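import Mathlib

/-! Multigraphs with the fewest closed walks: the definitions used in the statement. -/

namespace CW

/-- A loopless multigraph on `n` vertices, given by its matrix of multiplicities. -/
structure MG (n : ℕ) where
  mu : Matrix (Fin n) (Fin n) ℕ
  symm : ∀ i j, mu i j = mu j i
  diag : ∀ i, mu i i = 0

variable {n : ℕ}

/-- The number of edges. -/
def MG.edges (G : MG n) : ℕ := ∑ i, ∑ j, if i < j then G.mu i j else 0

/-- The number of closed walks of length `h`. -/
def MG.cw (G : MG n) (h : ℕ) : ℕ := (G.mu ^ h).trace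

/-- `G` minimises the numbers of closed walks of lengths `2, 3, 4, ...` sequentially. -/
def MG.Fewest (G : MG n) : Prop :=
  ∀ H : MG n, H.edges = G.edges → (∀ h, 2 ≤ h → G.cw h = H.cw h) ∨
    ∃ t, 2 ≤ t ∧ G.cw t < H.cw t ∧ ∀ h, 2 ≤ h → h < t → G.cw h = H.cw h

/-- All multiplicities are `l` or `l + 1`. -/
def MG.Two (G : MG n) (l : ℕ) : Prop := ∀ i j, i ≠ j → G.mu i j = l ∨ G.mu i j = l + 1

/-- The pairs of distinct vertices with multiplicity `l`. -/
def MG.lvl (G : MG n) (l : ℕ) (i j : Fin n) : Prop := i ≠ j ∧ G.mu i j = l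

/-- The graph with adjacency `B` is the disjoint union of `c` paths with `P i ≥ 1` vertices and of
`b` cycles with `Y j ≥ 3` vertices: a vertex has a block and a position in its block, neighbours
are consecutive in a block, or are the last and the first vertex of a cycle. -/
def Shape (B : Fin n → Fin n → Prop) {c b : ℕ} (P : Fin c → ℕ) (Y : Fin b → ℕ) : Prop :=
  (∀ i, 1 ≤ P i) ∧ (∀ j, 3 ≤ Y j) ∧ ∃ (blk : Fin n → Fin c ⊕ Fin b) (pos : Fin n → ℕ),
    Set.BijOn (fun v => (blk v, pos v)) Set.univ {p | p.2 < Sum.elim P Y p.1} ∧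
    ∀ u v, B u v ↔ blk u = blk v ∧ (pos u + 1 = pos v ∨ pos v + 1 = pos u ∨
      ∃ j, blk u = .inr j ∧ (pos u + 1 = Y j ∧ pos v = 0 ∨ pos v + 1 = Y j ∧ pos u = 0))

end CW
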