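import Pool.Agent.Work.MP_64623b_co.Main

/-! Closed triples of a reflexive symmetric relation with bounded degrees: bound and equality. -/

open Finset

namespace CW.E

variable {V : Type} {R : V → V → Prop}

/-- A graph with all loops. -/
structure Cl (R : V → V → Prop) : Prop where
  symm : ∀ x y, R x y → R y x
  refl : ∀ x, R x x

theorem Cl.ind_symm (h : Cl R) (x y : V) : ind R x y = ind R y x := by
  by_cases e : R x y
  · rw [ind_pos e, ind_pos (h.symm _ _ e)]
  · rw [ind_neg e, ind_neg fun e' => e (h.symm _ _ e')]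

theorem ind_01 (x y : V) : ind R x y = 0 ∨ ind R x y = 1 := by
  by_cases e : R x y
  · exact Or.inr (ind_pos e)
  · exact Or.inl (ind_neg e)

noncomputable def tr3 (R : V → V → Prop) (S : Finset V) : ℤ :=
  ∑ a ∈ S, ∑ b ∈ S, ∑ c ∈ S, ind R a b * ind R b c * ind R c a

open Classical in
noncomputable def nb (R : V → V → Prop) (S : Finset V) (v : V) : Finset V := S.filter (R v)

open Classical in
noncomputable def far (R : V → V → Prop) (S : Finset V) (v : V) : Finset V :=
  S.filter fun u => ¬ R v u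

theorem mem_nb {S : Finset V} {v u : V} : u ∈ nb R S v ↔ u ∈ S ∧ R v u := by simp [nb]

theorem mem_far {S : Finset V} {v u : V} : u ∈ far R S v ↔ u ∈ S ∧ ¬ R v u := by simp [far]

theorem card_nb (S : Finset V) (v : V) : ((nb R S v).card : ℤ) = ∑ a ∈ S, ind R v a := by
  classical
  rw [nb, card_filter]
  push_cast
  refine sum_congr rfl fun a _ => ?_
  by_cases h : R v a
  · rw [if_pos h, ind_pos h]
  · rw [if_neg h, ind_neg h]

theorem card_split (S : Finset V) (v : V) : (nb R S v).card + (far R S v).card = S.card := by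
  classical
  unfold nb far
  convert card_filter_add_card_filter_not (s := S) (R v)

theorem sum_far (S : Finset V) (v : V) (f : V → ℤ) :
    ∑ a ∈ far R S v, f a = ∑ a ∈ S, (1 - ind R v a) * f a := by
  classical
  rw [far, sum_filter]
  refine sum_congr rfl fun a _ => ?_
  by_cases h : R v a
  · rw [if_neg (not_not.2 h), ind_pos h]; ring
  · rw [if_pos h, ind_neg h]; ring

def s4 (S : Finset V) (F : V → V → V → V → ℤ) : ℤ :=
  ∑ v ∈ S, ∑ a ∈ S, ∑ b ∈ S, ∑ c ∈ S, F v a b c

theorem s4_01 (S : Finset V) (F : V → V → V → V → ℤ) : s4 S F = s4 S fun v a b c => F a v b c :=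
  sum_comm

theorem s4_12 (S : Finset V) (F : V → V → V → V → ℤ) : s4 S F = s4 S fun v a b c => F v b a c :=
  sum_congr rfl fun _ _ => sum_comm

theorem s4_23 (S : Finset V) (F : V → V → V → V → ℤ) : s4 S F = s4 S fun v a b c => F v a c b :=
  sum_congr rfl fun _ _ => sum_congr rfl fun _ _ => sum_comm

theorem s4_four (S : Finset V) (F : V → V → V → V → ℤ) :
    4 * s4 S F = s4 S fun v a b c => F v a b c + F a v b c + F b v a c + F c v a b := by
  have h1 := s4_01 S F
  have h2 := h1.trans (s4_12 S _)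
  have h3 := h2.trans (s4_23 S _)
  simp only [s4, sum_add_distrib] at *
  linarith

theorem claw (h : Cl R) (S : Finset V) :
    ∑ v ∈ S, (tr3 R S - tr3 R (far R S v)) ≤ ∑ v ∈ S, ((nb R S v).card : ℤ) ^ 3 := by
  have e1 : ∑ v ∈ S, (tr3 R S - tr3 R (far R S v)) = s4 S fun v a b c =>
      ind R a b * ind R b c * ind R c a *
        (1 - (1 - ind R v a) * (1 - ind R v b) * (1 - ind R v c)) := by
    refine sum_congr rfl fun v _ => ?_
    simp only [tr3, sum_far, mul_sum, ← sum_sub_distrib]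
    exact sum_congr rfl fun a _ => sum_congr rfl fun b _ => sum_congr rfl fun c _ => by ring
  have e2 : ∑ v ∈ S, ((nb R S v).card : ℤ) ^ 3 = s4 S fun v a b c =>
      ind R v a * ind R v b * ind R v c := by
    refine sum_congr rfl fun v _ => ?_
    rw [card_nb, pow_succ, sq, sum_mul_sum, sum_mul]
    refine sum_congr rfl fun a _ => ?_
    rw [sum_mul]
    exact sum_congr rfl fun b _ => mul_sum _ _ _
  rw [e1, e2]
  refine le_of_mul_le_mul_left ?_ (show (0 : ℤ) < 4 by norm_num)
  rw [s4_four, s4_four]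
  refine sum_le_sum fun v _ => sum_le_sum fun a _ => sum_le_sum fun b _ => sum_le_sum fun c _ => ?_
  simp only [h.ind_symm a v, h.ind_symm b v, h.ind_symm c v, h.ind_symm b a, h.ind_symm c a,
    h.ind_symm c b]
  rcases ind_01 (R := R) v a with h1 | h1 <;> rcases ind_01 (R := R) v b with h2 | h2 <;>
    rcases ind_01 (R := R) v c with h3 | h3 <;> rcases ind_01 (R := R) a b with h4 | h4 <;>
    rcases ind_01 (R := R) a c with h5 | h5 <;> rcases ind_01 (R := R) b c with h6 | h6 <;>
    simp [h1, h2, h3, h4, h5, h6]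

/-- The value of `n / D` cliques of order `D` and one of order `n % D`. -/
def psi (D n : ℕ) : ℤ := (n / D : ℕ) * (D : ℤ) ^ 3 + ((n % D : ℕ) : ℤ) ^ 3

theorem psi_eq {D q s : ℕ} (hs : s < D) : psi D (q * D + s) = q * (D : ℤ) ^ 3 + (s : ℤ) ^ 3 := by
  have h1 : (q * D + s) / D = q := by
    rw [add_comm, Nat.add_mul_div_right _ _ (by omega), Nat.div_eq_of_lt hs, zero_add]
  have h2 : (q * D + s) % D = s := by
    rw [add_comm, Nat.add_mul_mod_self_right, Nat.mod_eq_of_lt hs]
  rw [psi, h1, h2]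

theorem psi_step {D n c : ℕ} (h1 : 1 ≤ c) (h2 : c ≤ D) (h3 : c ≤ n) :
    (c : ℤ) ^ 3 + psi D (n - c) ≤ psi D n ∧
      ((c : ℤ) ^ 3 + psi D (n - c) = psi D n → c = D ∨ c = n % D) := by
  obtain ⟨q, s, hs, rfl⟩ : ∃ q s, s < D ∧ n = q * D + s :=
    ⟨n / D, n % D, Nat.mod_lt _ (by omega), (Nat.div_add_mod' n D).symm⟩
  have h2' : (q * D + s) % D = s := by
    rw [add_comm, Nat.add_mul_mod_self_right, Nat.mod_eq_of_lt hs]
  rw [h2', psi_eq hs]
  rcases le_or_gt c s with h | h
  · obtain ⟨t, rfl⟩ := Nat.exists_eq_add_of_le h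
    rw [show q * D + (c + t) - c = q * D + t by omega, psi_eq (by omega)]
    push_cast
    have c0 : (1 : ℤ) ≤ c := by exact_mod_cast h1
    have t0 : (0 : ℤ) ≤ t := by positivity
    have t1 : (0 : ℤ) ≤ t * c * (c + t) := by positivity
    refine ⟨by nlinarith, fun e => Or.inr ?_⟩
    have : (t : ℤ) * (c * (c + t)) = 0 := by linarith
    rcases mul_eq_zero.1 this with h | h
    · omega
    · nlinarith
  · obtain ⟨p, rfl⟩ : ∃ p, q = p + 1 := ⟨q - 1, by
      rcases q with _ | q
      · omega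
      · rfl⟩
    obtain ⟨x, rfl⟩ := Nat.exists_eq_add_of_lt h
    obtain ⟨y, rfl⟩ := Nat.exists_eq_add_of_le h2
    rw [show (p + 1) * (s + x + 1 + y) + s - (s + x + 1) = p * (s + x + 1 + y) + (s + y) by
      rw [add_mul]; omega, psi_eq (by omega)]
    push_cast
    have s0 : (0 : ℤ) ≤ s := by positivity
    have x0 : (0 : ℤ) ≤ x := by positivity
    have y0 : (0 : ℤ) ≤ y := by positivity
    have key : ((p : ℤ) + 1) * (s + x + 1 + y) ^ 3 + s ^ 3 -
        ((s + x + 1) ^ 3 + (p * (s + x + 1 + y) ^ 3 + (s + y) ^ 3)) =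
        y * (3 * (x + 1) * (2 * s + x + 1 + y)) := by ring
    have pos : (0 : ℤ) < 3 * (x + 1) * (2 * s + x + 1 + y) := by positivity
    refine ⟨by nlinarith [mul_nonneg y0 pos.le], fun e => Or.inl ?_⟩
    have : (y : ℤ) * (3 * (x + 1) * (2 * s + x + 1 + y)) = 0 := by linarith
    rcases mul_eq_zero.1 this with h | h
    · omega
    · exact absurd h pos.ne'

theorem nb_pos (h : Cl R) {S : Finset V} {v : V} (hv : v ∈ S) : 1 ≤ (nb R S v).card :=
  card_pos.2 ⟨v, mem_nb.2 ⟨hv, h.refl v⟩⟩

theorem far_deg {S : Finset V} {D : ℕ} (hD : ∀ v ∈ S, (nb R S v).card ≤ D) (v : V) :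
    ∀ u ∈ far R S v, (nb R (far R S v) u).card ≤ D := fun u hu =>
  (card_le_card fun _ hx => mem_nb.2 ⟨(mem_far.1 (mem_nb.1 hx).1).1, (mem_nb.1 hx).2⟩).trans
    (hD u (mem_far.1 hu).1)

theorem bound (h : Cl R) {D : ℕ} : ∀ (k : ℕ) (S : Finset V), S.card = k →
    (∀ v ∈ S, (nb R S v).card ≤ D) → tr3 R S ≤ psi D k := by
  intro k
  induction k using Nat.strong_induction_on with
  | _ k ih =>
    intro S hk hD
    rcases S.eq_empty_or_nonempty with rfl | hS
    · subst hk
      simp [tr3, psi]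
    obtain ⟨v, hv, h1⟩ := exists_le_of_sum_le hS (claw h S)
    have h2 := card_split (R := R) S v
    have h3 := nb_pos h hv
    have h4 := ih (k - (nb R S v).card) (by omega) (far R S v) (by omega) (far_deg hD v)
    have h5 := (psi_step (n := k) h3 (hD v hv) (by omega)).1
    linarith

theorem tight (h : Cl R) {D : ℕ} {S : Finset V} (hD : ∀ v ∈ S, (nb R S v).card ≤ D)
    (he : tr3 R S = psi D S.card) : ∀ v ∈ S, tr3 R (far R S v) = psi D (far R S v).card ∧
      ((nb R S v).card = D ∨ (nb R S v).card = S.card % D) := by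
  have h1 : ∀ v ∈ S, tr3 R (far R S v) ≤ psi D (far R S v).card := fun v _ =>
    bound h _ _ rfl (far_deg hD v)
  have h2 : ∀ v ∈ S, (far R S v).card = S.card - (nb R S v).card := fun v _ => by
    have := card_split (R := R) S v
    omega
  have h3 := fun v hv => psi_step (n := S.card) (nb_pos h hv) (hD v hv)
    (by have := card_split (R := R) S v; omega)
  have h4 : ∀ v ∈ S, ((nb R S v).card : ℤ) ^ 3 ≤ tr3 R S - tr3 R (far R S v) := fun v hv => by
    have a := h1 v hv
    rw [h2 v hv] at a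
    linarith [(h3 v hv).1]
  have h5 := (sum_eq_sum_iff_of_le h4).1 (le_antisymm (sum_le_sum h4) (claw h S))
  intro v hv
  have a := h1 v hv
  have b := h5 v hv
  have c := (h3 v hv).1
  rw [h2 v hv] at a ⊢
  exact ⟨by linarith, (h3 v hv).2 (by linarith)⟩

/-- A set of `D` pairwise related points. -/
def Clq (R : V → V → Prop) (D : ℕ) (S C : Finset V) : Prop :=
  C ⊆ S ∧ C.card = D ∧ ∀ x ∈ C, ∀ y ∈ C, R x y

theorem clq_nb {D : ℕ} {S C : Finset V} (hC : Clq R D S C)
    (hD : ∀ v ∈ S, (nb R S v).card ≤ D) {v : V} (hv : v ∈ C) : nb R S v = C :=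
  (eq_of_subset_of_card_le (fun x hx => mem_nb.2 ⟨hC.1 hx, hC.2.2 v hv x hx⟩)
    ((hD v (hC.1 hv)).trans hC.2.1.ge)).symm

theorem full {D : ℕ} {S : Finset V} (hc : S.card = D) (hr : ∀ v ∈ S, (nb R S v).card = D) :
    Clq R D S S := ⟨subset_rfl, hc, fun x hx y hy => by
  have : nb R S x = S := eq_of_subset_of_card_le (fun _ h => (mem_nb.1 h).1) (by rw [hr x hx, hc])
  exact (mem_nb.1 (this.symm ▸ hy : y ∈ nb R S x)).2⟩

theorem struct (h : Cl R) {D : ℕ} (D0 : 0 < D) : ∀ (k : ℕ) (S : Finset V), S.card = k → D ≤ k →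
    (∀ v ∈ S, (nb R S v).card ≤ D) → tr3 R S = psi D k →
    (∃ C, Clq R D S C) ∨ (k < 2 * D ∧ ∀ v ∈ S, (nb R S v).card = D) := by
  intro k
  induction k using Nat.strong_induction_on with
  | _ k ih =>
    intro S hk hDk hD he
    subst hk
    have t := tight h hD he
    have up : ∀ v, (∃ C, Clq R D (far R S v) C) → ∃ C, Clq R D S C := fun v ⟨C, h1, h2⟩ =>
      ⟨C, fun x hx => (mem_far.1 (h1 hx)).1, h2⟩
    by_cases hr : ∀ v ∈ S, (nb R S v).card = D
    · rcases lt_or_ge S.card (2 * D) with h2 | h2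
      · exact Or.inr ⟨h2, hr⟩
      obtain ⟨v, hv⟩ : S.Nonempty := card_pos.1 (by omega)
      have h3 := card_split (R := R) S v
      have h4 := hr v hv
      rcases ih (far R S v).card (by omega) (far R S v) rfl (by omega) (far_deg hD v)
        (t v hv).1 with h5 | ⟨-, h5⟩
      · exact Or.inl (up v h5)
      refine Or.inl ⟨nb R S v, fun _ hx => (mem_nb.1 hx).1, h4, fun x hx y hy => ?_⟩
      have a : nb R S x ⊆ nb R S v := fun z hz => by
        by_contra hz'
        have z1 : z ∈ far R S v := mem_far.2 ⟨(mem_nb.1 hz).1, fun e =>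
          hz' (mem_nb.2 ⟨(mem_nb.1 hz).1, e⟩)⟩
        have z2 : nb R (far R S v) z = nb R S z := eq_of_subset_of_card_le
          (fun w hw => mem_nb.2 ⟨(mem_far.1 (mem_nb.1 hw).1).1, (mem_nb.1 hw).2⟩)
          (by rw [h5 z z1, hr z (mem_nb.1 hz).1])
        have z3 : x ∈ nb R (far R S v) z :=
          z2.symm ▸ mem_nb.2 ⟨(mem_nb.1 hx).1, h.symm _ _ (mem_nb.1 hz).2⟩
        exact (mem_far.1 (mem_nb.1 z3).1).2 (mem_nb.1 hx).2
      have b := eq_of_subset_of_card_le a (by rw [h4, hr x (mem_nb.1 hx).1])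
      exact (mem_nb.1 (b.symm ▸ hy : y ∈ nb R S x)).2
    · push Not at hr
      obtain ⟨v, hv, h1⟩ := hr
      have h2 := ((t v hv).2).resolve_left h1
      have h3 := card_split (R := R) S v
      have h4 := nb_pos h hv
      have h5 := Nat.div_add_mod S.card D
      obtain ⟨p, hp⟩ : ∃ p, S.card / D = p + 1 :=
        ⟨S.card / D - 1, by have := Nat.div_pos hDk D0; omega⟩
      rw [hp, mul_add, mul_one] at h5
      refine Or.inl (up v ?_)
      rcases ih (far R S v).card (by omega) (far R S v) rfl (by omega) (far_deg hD v)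
        (t v hv).1 with h6 | ⟨h6, h7⟩
      · exact h6
      refine ⟨_, full ?_ h7⟩
      rcases p with _ | p
      · omega
      · rw [mul_add] at h5
        omega

theorem blocks (h : Cl R) {D s : ℕ} (hs : s < D) : ∀ (j : ℕ) (S : Finset V),
    S.card = (j + 1) * D + s → (∀ v ∈ S, (nb R S v).card = D) → tr3 R S = psi D S.card →
    ∃ b : V → ℕ, (∀ v ∈ S, b v ≤ j) ∧
      (∀ i, 1 ≤ i → i ≤ j → (S.filter fun v => b v = i).card = D) ∧
      (S.filter fun v => b v = 0).card = D + s ∧
      ∀ u ∈ S, ∀ v ∈ S, b u ≠ 0 → (R u v ↔ b u = b v) := by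
  classical
  intro j
  induction j with
  | zero =>
    intro S hc _ _
    exact ⟨fun _ => 0, fun _ _ => le_rfl, fun i _ _ => by omega, by simpa using hc,
      fun _ _ _ _ e => (e rfl).elim⟩
  | succ j ih =>
    intro S hc hr he
    have hD : ∀ v ∈ S, (nb R S v).card ≤ D := fun v hv => (hr v hv).le
    have hc' : S.card = j * D + D + D + s := by rw [hc]; ring
    obtain ⟨C, hC⟩ := (struct h (by omega) _ S rfl (by omega) hD he).resolve_right
      fun e => by have := e.1; omega
    obtain ⟨v, hv⟩ : C.Nonempty := card_pos.1 (by rw [hC.2.1]; omega)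
    have n1 : ∀ x ∈ C, ∀ y ∈ S, (R x y ↔ y ∈ C) := fun x hx y hy => by
      rw [← clq_nb hC hD hx, mem_nb]
      exact ⟨fun e => ⟨hy, e⟩, fun e => e.2⟩
    have m : ∀ x, x ∈ far R S v ↔ x ∈ S ∧ x ∉ C := fun x => by
      rw [mem_far]
      exact and_congr_right fun hx => by rw [n1 v hv x hx]
    have h3 := card_split (R := R) S v
    rw [hr v (hC.1 hv)] at h3
    obtain ⟨b, b1, b2, b3, b4⟩ := ih (far R S v) (by rw [add_mul]; omega) (fun u hu => by
      rw [← hr u ((m u).1 hu).1]
      congr 1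
      ext x
      rw [mem_nb, mem_nb, m]
      exact ⟨fun e => ⟨e.1.1, e.2⟩, fun e => ⟨⟨e.1, fun x' => ((m u).1 hu).2
        ((n1 x x' u ((m u).1 hu).1).1 (h.symm _ _ e.2))⟩, e.2⟩⟩)
      (tight h hD he v (hC.1 hv)).1
    have f : ∀ i ≤ j, (S.filter fun x => (if x ∈ C then j + 1 else b x) = i) =
        (far R S v).filter fun x => b x = i := fun i hi => by
      ext x
      rw [mem_filter, mem_filter, m]
      by_cases e : x ∈ C
      · rw [if_pos e]
        exact iff_of_false (fun a => by have := a.2; omega) fun a => a.1.2 e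
      · simp [e]
    refine ⟨fun x => if x ∈ C then j + 1 else b x, fun x hx => ?_, fun i i1 i2 => ?_, ?_,
      fun x hx y hy e => ?_⟩
    · by_cases e : x ∈ C
      · simp [e]
      · simp only [if_neg e]
        exact (b1 x ((m x).2 ⟨hx, e⟩)).trans (Nat.le_succ j)
    · rcases i2.eq_or_lt with rfl | i2
      · rw [← hC.2.1]
        congr 1
        ext x
        rw [mem_filter]
        by_cases e : x ∈ C
        · simp [e, hC.1 e]
        · beta_reduce
          rw [if_neg e]
          refine iff_of_false (fun a => ?_) e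
          have := b1 x ((m x).2 ⟨a.1, e⟩)
          have := a.2
          omega
      · rw [f i (by omega)]
        exact b2 i i1 (by omega)
    · rw [f 0 (by omega)]
      exact b3
    · by_cases ex : x ∈ C
      · rw [n1 x ex y hy]
        by_cases ey : y ∈ C
        · simp [ex, ey]
        · have := b1 y ((m y).2 ⟨hy, ey⟩)
          refine iff_of_false ey ?_
          show ¬ (if x ∈ C then j + 1 else b x) = if y ∈ C then j + 1 else b y
          rw [if_pos ex, if_neg ey]
          omega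
      · simp only [if_neg ex] at e ⊢
        by_cases ey : y ∈ C
        · simp only [if_pos ey]
          have := b1 x ((m x).2 ⟨hx, ex⟩)
          exact iff_of_false (fun r => ex ((n1 y ey x hx).1 (h.symm _ _ r))) (by omega)
        · simp only [if_neg ey]
          exact b4 x ((m x).2 ⟨hx, ex⟩) y ((m y).2 ⟨hy, ey⟩) e

end CW.E
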