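import Pool.Agent.Work.MP_64623b_co.E1

/-! Arbitrary degrees (a penalty for large degrees), and the sequential order on regular layers. -/

open Finset Matrix Polynomial

namespace CW.E

variable {V : Type} [Fintype V] [DecidableEq V] {R B H X : V → V → Prop}

omit [DecidableEq V] in
theorem nb_dg (v : V) : ((nb R univ v).card : ℤ) = dg R v := card_nb _ _

def pen (D : ℕ) (x : ℤ) : ℤ := if x ≤ D then 0 else 3 * D * ((x - D) ^ 2 + (x - D))

theorem pen_mono (D : ℕ) {x y : ℤ} (h : x ≤ y) : pen D x ≤ pen D y := by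
  unfold pen
  have : (0 : ℤ) ≤ D := by positivity
  split_ifs with h1 h2 h2
  · rfl
  · have : 0 ≤ y - D := by omega
    positivity
  · omega
  · refine mul_le_mul_of_nonneg_left ?_ (by omega)
    nlinarith

theorem pen_le (D : ℕ) (x : ℤ) : pen D x ≤ 3 * D * ((x - D) ^ 2 + (x - D)) := by
  unfold pen
  split_ifs with h
  · have h1 : 0 ≤ (x - D) ^ 2 + (x - D) := by
      rcases h.eq_or_lt with h | h
      · simp [h]
      · nlinarith [mul_nonneg (show 0 ≤ D - x by omega) (show 0 ≤ D - x - 1 by omega)]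
    positivity
  · rfl

theorem psi_add {D : ℕ} (D0 : 0 < D) (n : ℕ) : ∀ c : ℕ, psi D n + c ≤ psi D (n + c)
  | 0 => by simp
  | c + 1 => by
    have h1 := psi_add D0 n c
    have h2 := (psi_step (n := n + (c + 1)) le_rfl D0 (by omega)).1
    rw [show n + (c + 1) - 1 = n + c by omega] at h2
    push_cast at h2 ⊢
    linarith

theorem psi_pen {D k c : ℕ} (D0 : 0 < D) (h1 : 1 ≤ c) (h3 : c ≤ k) :
    2 * (c : ℤ) ^ 3 + 2 * psi D (k - c) ≤ 2 * psi D k + c * pen D c := by
  rcases le_or_gt c D with h | h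
  · rw [pen, if_pos (by exact_mod_cast h)]
    linarith [(psi_step h1 h h3).1]
  rw [pen, if_neg (by exact_mod_cast h.not_ge)]
  obtain ⟨y, rfl⟩ := Nat.exists_eq_add_of_le h.le
  have y1 : (1 : ℤ) ≤ y := by exact_mod_cast (by omega : 1 ≤ y)
  have d1 : (1 : ℤ) ≤ D := by exact_mod_cast D0
  rcases le_or_gt y D with g | g
  · have a1 := (psi_step (n := k) D0 le_rfl (by omega)).1
    have a2 := (psi_step (n := k - D) (c := y) (by omega) g (by omega)).1
    rw [show k - D - y = k - (D + y) by omega] at a2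
    push_cast
    have : (0 : ℤ) ≤ (D + y) * D * (y * (y - 1)) :=
      mul_nonneg (by positivity) (mul_nonneg (by omega) (by omega))
    nlinarith
  · have a1 := psi_add D0 (k - (D + y)) (D + y)
    rw [show k - (D + y) + (D + y) = k by omega] at a1
    obtain ⟨z, rfl⟩ := Nat.exists_eq_add_of_lt g
    obtain ⟨d, rfl⟩ := Nat.exists_eq_add_of_lt D0
    push_cast at a1 ⊢
    have : (0 : ℤ) ≤ (2 * d + z + 3) * (3 * d ^ 3 + 6 * d ^ 2 * z + 10 * d ^ 2 + 3 * d * z ^ 2 +
      13 * d * z + 9 * d + z ^ 2 + 3 * z + 2) := by positivity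
    nlinarith

omit [Fintype V] [DecidableEq V] in
theorem bound_pen (h : Cl R) {D : ℕ} (D0 : 0 < D) (p : V → ℤ) : ∀ (k : ℕ) (S : Finset V),
    S.card = k → (∀ v ∈ S, pen D (nb R S v).card ≤ p v) →
    2 * tr3 R S ≤ 2 * psi D k + ∑ v ∈ S, p v := by
  intro k
  induction k using Nat.strong_induction_on with
  | _ k ih =>
    intro S hk hp
    rcases S.eq_empty_or_nonempty with rfl | hS
    · subst hk
      simp [tr3, psi]
    have e : ∑ v ∈ S, ((nb R S v).card : ℤ) * p v = ∑ v ∈ S, ∑ w ∈ S, ind R v w * p w := by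
      simp only [card_nb, sum_mul]
      rw [sum_comm]
      exact sum_congr rfl fun v _ => sum_congr rfl fun w _ => by rw [h.ind_symm]
    obtain ⟨v, hv, h1⟩ := exists_le_of_sum_le hS
      (f := fun v => 2 * (tr3 R S - tr3 R (far R S v)) + (nb R S v).card * p v)
      (g := fun v => 2 * ((nb R S v).card : ℤ) ^ 3 + ∑ w ∈ S, ind R v w * p w) (by
        rw [sum_add_distrib, sum_add_distrib, ← mul_sum, ← mul_sum, e]
        linarith [claw h S])
    have h2 := card_split (R := R) S v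
    have h3 := nb_pos h hv
    have h4 := ih (k - (nb R S v).card) (by omega) (far R S v) (by omega) fun u hu =>
      (pen_mono D (by
        exact_mod_cast card_le_card fun _ hx => mem_nb.2
          ⟨(mem_far.1 (mem_nb.1 hx).1).1, (mem_nb.1 hx).2⟩)).trans (hp u (mem_far.1 hu).1)
    have h5 := psi_pen (k := k) D0 h3 (by omega)
    have h6 := mul_le_mul_of_nonneg_left (hp v hv) (Int.natCast_nonneg (nb R S v).card)
    simp only [sum_far, sub_mul, one_mul, sum_sub_distrib] at h4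
    linarith

omit [DecidableEq V] in
theorem cyc (F : V → V → V → ℤ) : ∑ a, ∑ b, ∑ c, F a b c = ∑ b, ∑ c, ∑ a, F a b c :=
  sum_comm.trans (sum_congr rfl fun _ _ => sum_comm)

/-- The graph together with all loops. -/
def cls (H : V → V → Prop) (a b : V) : Prop := a = b ∨ H a b

omit [Fintype V] [DecidableEq V] in
theorem cls_cl (h : Sim H) : Cl (cls H) :=
  ⟨fun _ _ x => x.imp Eq.symm (h.symm _ _), fun _ => Or.inl rfl⟩

omit [Fintype V] in
theorem ind_cls (h : Sim H) : ind (cls H) = ind H + 1 := by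
  ext a b
  rw [Matrix.add_apply, one_apply]
  by_cases e : a = b
  · rw [ind_pos (B := cls H) (Or.inl e), if_pos e, e, ind_neg (h.irr b), zero_add]
  · rw [if_neg e, add_zero]
    by_cases c : H a b
    · rw [ind_pos (B := cls H) (Or.inr c), ind_pos c]
    · rw [ind_neg (B := cls H) fun x => x.elim e c, ind_neg c]

theorem dg_cls (h : Sim H) (v : V) : dg (cls H) v = dg H v + 1 := by
  simp [dg, ind_cls h, sum_add_distrib, one_apply]

theorem tr3_trace : tr3 R univ = trace (ind R ^ 3) := by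
  simp only [tr3, pow_succ, pow_zero, one_mul, trace, Matrix.diag, mul_apply, sum_mul]
  exact sum_congr rfl fun _ _ => sum_comm

theorem tr_one (h : Sim H) : trace (ind H ^ 1) = 0 := by simp [trace, ind_neg (h.irr _)]

theorem tr_two (h : Sim H) : trace (ind H ^ 2) = ∑ v, dg H v := by simp [sq, trace, h.sq_diag]

theorem tr3_cls (h : Sim H) :
    tr3 (cls H) univ = trace (ind H ^ 3) + 3 * ∑ v, dg H v + Fintype.card V := by
  have e : (ind H + 1) ^ 3 = ind H ^ 3 + (3 : ℤ) • ind H ^ 2 + (3 : ℤ) • ind H ^ 1 + 1 := by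
    noncomm_ring
  rw [tr3_trace, ind_cls h, e, trace_add, trace_add, trace_add, trace_smul, trace_smul, tr_one h,
    tr_two h, trace_one]
  simp

theorem tq3 (h : Sim H) : trL (ind H) (Tq 3) = trace (ind H ^ 3) := by
  have e : Tq 3 = Polynomial.X ^ 3 - (3 : ℤ) • Tq 1 := by simp [Tq, T]; ring
  rw [e, map_sub, map_smul, h.t1, smul_zero, sub_zero, trL_apply, map_pow, aeval_X]

def Reg (H : V → V → Prop) (d : ℤ) : Prop := ∀ v, dg H v = d

theorem Reg.sm_pow {d : ℤ} (h : Reg H d) (j : ℕ) : sm (ind H ^ j) = Fintype.card V * d ^ j := by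
  have : ∀ x, ∑ y, (ind H ^ j) x y = d ^ j := by
    induction j with
    | zero => simp [one_apply]
    | succ j ih =>
      intro x
      simp only [pow_succ, mul_apply]
      rw [sum_comm, ← ih x, sum_mul]
      exact sum_congr rfl fun y _ => by rw [← mul_sum, ← h y, dg]
  simp [sm_apply, this]

omit [DecidableEq V] in
theorem Reg.sum {d : ℤ} (h : Reg H d) : ∑ v, dg H v = Fintype.card V * d := by simp [h _]

theorem lay_reg {d : ℤ} (a : ℤ) (hB : Reg B d) (hH : Reg H d) {h : ℕ}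
    (he : ∀ j ≤ h, trace (ind B ^ j) = trace (ind H ^ j)) :
    trace (lay (-1) a (ind B) ^ (h + 1)) - trace (lay (-1) a (ind H) ^ (h + 1)) =
      (-1) ^ (h + 1) * trace (ind B ^ (h + 1)) - (-1) ^ (h + 1) * trace (ind H ^ (h + 1)) := by
  have m : ∀ j, ((Polynomial.X : ℤ[X]) ^ j).Monic ∧ ((Polynomial.X : ℤ[X]) ^ j).natDegree = j :=
    fun j => ⟨monic_X_pow j, natDegree_X_pow j⟩
  have s : ∀ j, smL (ind B) (Polynomial.X ^ j) - smL (ind H) (Polynomial.X ^ j) = 0 := fun j => by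
    simp [smL_apply, hB.sm_pow, hH.sm_pow]
  rw [lay_diff a (by norm_num) (ind B) (ind H) (van_of m _ fun j hj => by
    simp [trL_apply, he j (by omega)]) (van_of m _ fun j _ => s j) (m _).1 (m _).2 (m _).1 (m _).2, s]
  simp only [trL_apply, map_pow, aeval_X]
  ring

/-- The signed numbers of closed walks, ordered lexicographically. -/
noncomputable def key (H : V → V → Prop) : Lex (ℕ → ℤ) :=
  toLex fun h => (-1) ^ h * trace (ind H ^ h)

theorem sgn {h : ℕ} {x y : ℤ} (e : (-1) ^ h * x = (-1) ^ h * y) : x = y :=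
  mul_left_cancel₀ (pow_ne_zero _ (by norm_num)) e

theorem key_eq {d : ℤ} (a : ℤ) (hB : Reg B d) (hH : Reg H d) (e : key B = key H) (h : ℕ)
    (h2 : 2 ≤ h) : trace (lay (-1) a (ind B) ^ h) = trace (lay (-1) a (ind H) ^ h) := by
  obtain ⟨h, rfl⟩ : ∃ k, h = k + 1 := ⟨h - 1, by omega⟩
  have e' : ∀ j, trace (ind B ^ j) = trace (ind H ^ j) := fun j => sgn (congrFun e j)
  have := lay_reg a hB hH (h := h) fun j _ => e' j
  rw [e'] at this
  linarith

theorem key_lt {d : ℤ} (a : ℤ) (sB : Sim B) (sH : Sim H) (hB : Reg B d) (hH : Reg H d)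
    (e : key H < key B) : Less (lay (-1) a (ind H)) (lay (-1) a (ind B)) := by
  obtain ⟨t, t1, t2⟩ := e
  have t1' : ∀ j < t, trace (ind B ^ j) = trace (ind H ^ j) := fun j hj => (sgn (t1 j hj)).symm
  have t2' : (-1) ^ t * trace (ind H ^ t) < (-1) ^ t * trace (ind B ^ t) := t2
  have t3 : 2 ≤ t := by
    by_contra c
    obtain rfl | rfl : t = 0 ∨ t = 1 := by omega
    · simp at t2'
    · rw [tr_one sB, tr_one sH] at t2'
      exact t2'.false
  refine ⟨t, t3, ?_, fun h h2 h3 => ?_⟩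
  · obtain ⟨t, rfl⟩ : ∃ k, t = k + 1 := ⟨t - 1, by omega⟩
    linarith [lay_reg a hB hH (h := t) fun j hj => t1' j (by omega)]
  · obtain ⟨h, rfl⟩ : ∃ k, h = k + 1 := ⟨h - 1, by omega⟩
    have := lay_reg a hB hH (h := h) fun j hj => t1' j (by omega)
    rw [t1' _ h3] at this
    linarith

/-- First among the regular graphs. -/
def Opt (d : ℤ) (H : V → V → Prop) : Prop :=
  Sim H ∧ Reg H d ∧ ∀ B : V → V → Prop, Sim B → Reg B d → key H ≤ key B

theorem exists_opt {d : ℤ} (sX : Sim X) (rX : Reg X d) : ∃ H : V → V → Prop, Opt d H := by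
  obtain ⟨H, h1, h2⟩ := Set.exists_min_image {B : V → V → Prop | Sim B ∧ Reg B d} key
    (Set.toFinite _) ⟨X, sX, rX⟩
  exact ⟨H, h1.1, h1.2, fun B a b => h2 B ⟨a, b⟩⟩

theorem Opt.tr3 {D : ℕ} (sX : Sim X) (rX : Reg X (D - 1))
    (tX : tr3 (cls X) univ = psi D (Fintype.card V)) (h : Opt (D - 1) H) :
    tr3 (cls H) univ = psi D (Fintype.card V) := by
  refine le_antisymm (bound (cls_cl h.1) _ _ card_univ fun v _ => ?_) ?_
  · have := nb_dg (R := cls H) v
    rw [dg_cls h.1, h.2.1 v] at this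
    omega
  have := Pi.apply_le_of_toLex (i := 3) (h.2.2 X sX rX) fun j hj => by
    obtain rfl | rfl | rfl : j = 0 ∨ j = 1 ∨ j = 2 := by omega
    · simp
    · simp only [tr_one sX, tr_one h.1]
    · simp only [tr_two sX, tr_two h.1, rX.sum, h.2.1.sum]
  rw [← tX, tr3_cls sX, tr3_cls h.1, rX.sum, h.2.1.sum]
  linarith

theorem fewest_iff {n D l : ℕ} (D0 : 0 < D) (hl : D ≤ 2 * l + 1) {X : Fin n → Fin n → Prop} (sX : Sim X)
    (rX : Reg X (D - 1)) (tX : tr3 (cls X) univ = psi D (Fintype.card (Fin n))) (G : MG n)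
    (he : 2 * (G.edges : ℤ) + n * (D - 1) = (l + 1) * (2 * (n.choose 2 : ℕ))) :
    G.Fewest ↔ G.Two l ∧ Opt (D - 1) (G.lvl l) := by
  obtain ⟨H, hH⟩ := exists_opt sX rX
  have tH := hH.tr3 sX rX tX
  have sH := hH.2.1.sum
  refine layer (Or.inr ⟨rfl, rfl, rfl⟩) G hH.1 ?_ (Opt (D - 1)) (fun B _ _ hB => key_eq _ hB.2.1
    hH.2.1 (le_antisymm (hB.2.2 H hH.1 hH.2.1) (hH.2.2 B hB.1 hB.2.1))) fun B sB e => ?_
  · rw [sH, Fintype.card_fin]
    push_cast
    linarith
  by_cases r : Reg B (D - 1)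
  · rcases (hH.2.2 B sB r).eq_or_lt with k | k
    · exact Or.inl ⟨sB, r, fun C a b => k ▸ hH.2.2 C a b⟩
    · exact Or.inr (key_lt _ sB hH.1 r hH.2.1 k)
  refine Or.inr (less_of _ (by norm_num) (t := 2) (by norm_num) (low_t sB hH.1 e)
    (fun j hj => low_s e j (by omega)) ?_)
  have a1 := bound_pen (cls_cl sB) D0 (fun v => pen D (dg (cls B) v)) _ _ card_univ
    fun v _ => by rw [nb_dg]
  have a2 : ∑ v, pen D (dg (cls B) v) ≤ 3 * D * ∑ v, (dg B v - (D - 1)) ^ 2 +
      3 * D * ∑ v, (dg B v - (D - 1)) := by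
    rw [← mul_add, ← sum_add_distrib, mul_sum]
    refine sum_le_sum fun v _ => (pen_le _ _).trans_eq ?_
    rw [dg_cls sB]
    ring
  have a3 : ∑ v, (dg B v - (D - 1)) = 0 := by
    rw [sum_sub_distrib, e, sH, sum_const, card_univ, nsmul_eq_mul, sub_self]
  have a4 : 0 < ∑ v, (dg B v - (D - 1)) ^ 2 := by
    unfold Reg at r
    push Not at r
    obtain ⟨v, hv⟩ := r
    exact sum_pos' (fun _ _ => sq_nonneg _) ⟨v, mem_univ v, sq_pos_of_ne_zero (sub_ne_zero.2 hv)⟩
  have a5 : ∑ v, (dg B v - (D - 1)) ^ 2 = ∑ v, dg B v ^ 2 - ∑ v, dg H v ^ 2 := by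
    have : ∀ v, (dg B v - (D - 1)) ^ 2 =
        dg B v ^ 2 - dg H v ^ 2 - 2 * (D - 1) * (dg B v - (D - 1)) := fun v => by
      rw [hH.2.1 v]; ring
    simp only [this, sum_sub_distrib (f := fun v => dg B v ^ 2 - dg H v ^ 2), ← mul_sum, a3]
    simp
  rw [tq3 sB, tq3 hH.1, sB.s2, hH.1.s2, e]
  rw [← tH, tr3_cls sB, tr3_cls hH.1, e] at a1
  rw [a3, a5] at a2
  rw [a5] at a4
  have a6 : (D : ℤ) ≤ 2 * l + 1 := by exact_mod_cast hl
  push_cast
  nlinarith [mul_nonneg (sub_nonneg.2 a6) a4.le]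

end CW.E
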