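import Pool.Agent.Work.MP_64623b_co.E2

/-! Disjoint unions with cliques, the model, and the reduction to the kernel. -/

open Finset Matrix

namespace CW.E

variable {V W U : Type} [Fintype V] [DecidableEq V] [Fintype W] [DecidableEq W] [Fintype U]
  [DecidableEq U]

def pull (e : V ≃ W) (K : W → W → Prop) (a b : V) : Prop := K (e a) (e b)

theorem trace_pull (e : V ≃ W) (K : W → W → Prop) (h : ℕ) :
    trace (ind (pull e K) ^ h) = trace (ind K ^ h) := by
  have e1 : ind (pull e K) = (ind K).submatrix e e := rfl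
  have e2 : ((ind K).submatrix e e) ^ h = (ind K ^ h).submatrix e e := by
    induction h with
    | zero => simp
    | succ h ih => rw [pow_succ, pow_succ, ih, submatrix_mul_equiv]
  rw [e1, e2]
  exact e.sum_comp fun w => (ind K ^ h) w w

theorem key_pull (e : V ≃ W) (K : W → W → Prop) : key (pull e K) = key K := by
  simp only [key, trace_pull]

omit [DecidableEq V] [DecidableEq W] in
theorem dg_pull (e : V ≃ W) (K : W → W → Prop) (v : V) : dg (pull e K) v = dg K (e v) :=
  e.sum_comp fun w => ind K (e v) w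

omit [Fintype V] [Fintype W] [DecidableEq V] [DecidableEq W] in
theorem sim_pull (e : V ≃ W) {K : W → W → Prop} (h : Sim K) : Sim (pull e K) :=
  ⟨fun _ _ => h.symm _ _, fun _ => h.irr _⟩

def join (K : U → U → Prop) (C : W → W → Prop) : U ⊕ W → U ⊕ W → Prop
  | .inl a, .inl b => K a b
  | .inr a, .inr b => C a b
  | _, _ => False

variable {K K' : U → U → Prop} {C : W → W → Prop}

omit [Fintype U] [Fintype W] [DecidableEq U] [DecidableEq W] in
theorem ind_join : ind (join K C) = fromBlocks (ind K) 0 0 (ind C) := by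
  ext (a | a) (b | b)
  · rfl
  · exact ind_neg id
  · exact ind_neg id
  · rfl

theorem trace_join (h : ℕ) :
    trace (ind (join K C) ^ h) = trace (ind K ^ h) + trace (ind C ^ h) := by
  rw [ind_join, fromBlocks_diagonal_pow]
  simp [trace, Fintype.sum_sum_type]

theorem key_join : key (join K C) ≤ key (join K' C) ↔ key K ≤ key K' := by
  rw [← not_lt, ← not_lt]
  refine not_congr (exists_congr fun t => and_congr (forall₂_congr fun j _ => ?_) ?_)
  · simp only [key, Pi.toLex_apply, trace_join, mul_add, add_left_inj]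
  · simp only [key, Pi.toLex_apply, trace_join, mul_add, add_lt_add_iff_right]

omit [DecidableEq U] [DecidableEq W] in
theorem dg_inl (a : U) : dg (join K C) (.inl a) = dg K a := by
  simp [dg, ind_join, Fintype.sum_sum_type]

omit [DecidableEq U] [DecidableEq W] in
theorem dg_inr (a : W) : dg (join K C) (.inr a) = dg C a := by
  simp [dg, ind_join, Fintype.sum_sum_type]

omit [Fintype U] [Fintype W] [DecidableEq U] [DecidableEq W] in
theorem sim_join (h : Sim K) (h' : Sim C) : Sim (join K C) := by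
  refine ⟨?_, ?_⟩
  · rintro (a | a) (b | b)
    exacts [h.symm a b, id, id, h'.symm a b]
  · rintro (a | a)
    exacts [h.irr a, h'.irr a]

omit [DecidableEq U] [DecidableEq W] [DecidableEq V] in
theorem reg_join {d : ℤ} (e : V ≃ U ⊕ W) (h : Reg K d) (h' : Reg C d) :
    Reg (pull e (join K C)) d := fun v => by
  rw [dg_pull]
  rcases e v with a | a
  · rw [dg_inl, h]
  · rw [dg_inr, h']

/-- `j` disjoint cliques of order `D`. -/
def Cq (j D : ℕ) (p p' : Fin j × Fin D) : Prop := p ≠ p' ∧ p.1 = p'.1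

theorem sim_Cq (j D : ℕ) : Sim (Cq j D) := ⟨fun _ _ h => ⟨h.1.symm, h.2.symm⟩, fun _ h => h.1 rfl⟩

theorem ind_Cq (j D : ℕ) (p p' : Fin j × Fin D) :
    ind (cls (Cq j D)) p p' = if p.1 = p'.1 then 1 else 0 := by
  split_ifs with h
  · exact ind_pos ((em (p = p')).imp_right fun e => ⟨e, h⟩)
  · exact ind_neg fun e => e.elim (fun e => h (congrArg _ e)) fun e => h e.2

theorem sum_Cq (j D : ℕ) (p : Fin j × Fin D) : ∑ p', ind (cls (Cq j D)) p p' = D := by
  simp only [ind_Cq]
  rw [Fintype.sum_prod_type_right]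
  simp

theorem reg_Cq (j D : ℕ) : Reg (Cq j D) (D - 1) := fun p => by
  have := dg_cls (sim_Cq j D) p
  rw [dg, sum_Cq] at this
  linarith

theorem tr3_Cq (j D : ℕ) : tr3 (cls (Cq j D)) univ = j * (D : ℤ) ^ 3 := by
  have : ∀ a b c : Fin j × Fin D, ind (cls (Cq j D)) a b * ind (cls (Cq j D)) b c *
      ind (cls (Cq j D)) c a = ind (cls (Cq j D)) a b * ind (cls (Cq j D)) a c := fun a b c => by
    simp only [ind_Cq]
    by_cases h1 : a.1 = b.1
    · rw [if_pos h1, ← h1]
      by_cases h2 : a.1 = c.1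
      · rw [if_pos h2, if_pos h2.symm, mul_one]
      · rw [if_neg h2, mul_zero, zero_mul]
    · rw [if_neg h1, zero_mul, zero_mul, zero_mul]
  simp only [tr3, this, ← mul_sum, ← sum_mul, sum_Cq]
  simp
  ring

/-- The complement. -/
def cpl (K : U → U → Prop) (a b : U) : Prop := a ≠ b ∧ ¬ K a b

omit [Fintype U] [DecidableEq U] in
theorem sim_cpl (h : Sim K) : Sim (cpl K) :=
  ⟨fun _ _ x => ⟨x.1.symm, fun y => x.2 (h.symm _ _ y)⟩, fun _ x => x.1 rfl⟩

omit [Fintype U] [DecidableEq U] in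
theorem ind_cpl (a b : U) : ind (cls K) a b = 1 - ind (cpl K) a b := by
  by_cases h : cls K a b
  · rw [ind_pos h, ind_neg (B := cpl K) fun x => h.elim x.1 x.2, sub_zero]
  · rw [ind_neg h, ind_pos (B := cpl K) (not_or.1 h), sub_self]

omit [Fintype U] [DecidableEq U] in
theorem cpl_cpl (h : Sim K) : cpl (cpl K) = K := by
  ext a b
  refine ⟨fun x => by_contra fun y => x.2 ⟨x.1, y⟩, fun x => ⟨fun y => ?_, fun y => y.2 x⟩⟩
  exact h.irr b (y ▸ x)

theorem dg_cpl (h : Sim K) (a : U) : dg (cpl K) a = Fintype.card U - 1 - dg K a := by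
  have := dg_cls h a
  rw [dg] at this
  simp only [ind_cpl, sum_sub_distrib, sum_const, card_univ, nsmul_eq_mul, mul_one] at this
  rw [dg]
  linarith

theorem tr3_kernel {D s : ℕ} (hc : Fintype.card U = D + s) (h : Sim K) (hr : Reg K (D - 1)) :
    tr3 (cls K) univ = (D : ℤ) ^ 3 + (s : ℤ) ^ 3 - tr3 (cpl K) univ := by
  have r1 : ∀ a, ∑ b, ind (cpl K) a b = s := fun a => by
    have := dg_cpl h a
    rw [hr, hc, dg] at this
    push_cast at this
    linarith
  have r2 : ∀ a, ∑ b, ind (cpl K) b a = s := fun a => by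
    rw [← r1 a]
    exact sum_congr rfl fun b _ => (sim_cpl h).ind_symm _ _
  have p1 : ∑ a, ∑ b, ∑ _c : U, ind (cpl K) a b = (D + s : ℤ) * ((D + s) * s) := by
    simp [← mul_sum, r1, hc]
  have p2 : ∑ a, ∑ b, ∑ c, ind (cpl K) a b * ind (cpl K) b c = (D + s : ℤ) * (s * s) := by
    simp [← mul_sum, ← sum_mul, r1, hc]
  have p3 := (cyc fun a b _ : U => ind (cpl K) a b).symm.trans p1
  have p4 := (cyc fun b _ a : U => ind (cpl K) a b).symm.trans p3
  have p5 := (cyc fun a b c : U => ind (cpl K) a b * ind (cpl K) b c).symm.trans p2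
  have p6 := (cyc fun b c a : U => ind (cpl K) a b * ind (cpl K) b c).symm.trans p5
  have e : tr3 (cls K) univ = ∑ _a : U, ∑ _b : U, ∑ _c : U, (1 : ℤ) -
      ∑ a, ∑ b, ∑ _c : U, ind (cpl K) a b - ∑ b, ∑ _c : U, ∑ a, ind (cpl K) a b -
      ∑ _c : U, ∑ a, ∑ b, ind (cpl K) a b + ∑ a, ∑ b, ∑ c, ind (cpl K) a b * ind (cpl K) b c +
      ∑ b, ∑ c, ∑ a, ind (cpl K) a b * ind (cpl K) b c +
      ∑ c, ∑ a, ∑ b, ind (cpl K) a b * ind (cpl K) b c - tr3 (cpl K) univ := by
    simp only [tr3, ind_cpl, ← sum_sub_distrib, ← sum_add_distrib]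
    exact sum_congr rfl fun a _ => sum_congr rfl fun b _ => sum_congr rfl fun c _ => by ring
  rw [e, p1, p2, p3, p4, p5, p6]
  simp only [sum_const, card_univ, hc, nsmul_eq_mul]
  push_cast
  ring

/-- No triangle. -/
def TF (F : U → U → Prop) : Prop := ∀ a b c, F a b → F b c → ¬ F c a

omit [DecidableEq U] in
theorem tf_iff {F : U → U → Prop} : TF F ↔ tr3 F univ = 0 := by
  have p : ∀ a b c, 0 ≤ ind F a b * ind F b c * ind F c a := fun _ _ _ =>
    mul_nonneg (mul_nonneg (ind_nonneg _ _) (ind_nonneg _ _)) (ind_nonneg _ _)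
  rw [tr3, sum_eq_zero_iff_of_nonneg fun a _ => sum_nonneg fun b _ => sum_nonneg fun c _ => p a b c]
  refine forall_congr' fun a => ?_
  rw [sum_eq_zero_iff_of_nonneg fun b _ => sum_nonneg fun c _ => p a b c]
  simp only [mem_univ, true_imp_iff]
  refine forall_congr' fun b => ?_
  rw [sum_eq_zero_iff_of_nonneg fun c _ => p a b c]
  simp only [mem_univ, true_imp_iff]
  refine forall_congr' fun c => ?_
  by_cases h1 : F a b <;> by_cases h2 : F b c <;> by_cases h3 : F c a <;>
    simp [ind_pos, ind_neg, h1, h2, h3]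

theorem tr3_model {D s j : ℕ} (hs : s < D) (hc : Fintype.card U = D + s) (h : Sim K)
    (hr : Reg K (D - 1)) (ht : TF (cpl K)) (e : V ≃ U ⊕ Fin j × Fin D) :
    tr3 (cls (pull e (join K (Cq j D)))) univ = psi D (Fintype.card V) := by
  have c : Fintype.card V = (j + 1) * D + s := by
    rw [Fintype.card_congr e, Fintype.card_sum, hc]
    simp only [Fintype.card_prod, Fintype.card_fin]
    ring
  have a1 := tr3_kernel hc h hr
  have a2 := tr3_Cq j D
  rw [tf_iff.1 ht, tr3_cls h, hr.sum, hc] at a1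
  rw [tr3_cls (sim_Cq j D), (reg_Cq j D).sum] at a2
  rw [tr3_cls (sim_pull e (sim_join h (sim_Cq j D))), (reg_join e hr (reg_Cq j D)).sum, trace_pull,
    trace_join, c, psi_eq hs]
  simp only [Fintype.card_prod, Fintype.card_fin] at a2
  push_cast at a1 a2 ⊢
  linarith

theorem split {D s j : ℕ} (hs : s < D) (hc : Fintype.card V = (j + 1) * D + s) {H : V → V → Prop}
    (h : Sim H) (hr : Reg H (D - 1)) (ht : tr3 (cls H) univ = psi D (Fintype.card V)) :
    ∃ (e : V ≃ Fin (D + s) ⊕ Fin j × Fin D) (K : Fin (D + s) → Fin (D + s) → Prop),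
      Sim K ∧ Reg K (D - 1) ∧ H = pull e (join K (Cq j D)) := by
  obtain ⟨b, b1, b2, b3, b4⟩ := blocks (cls_cl h) hs j univ hc (fun v _ => by
    have := nb_dg (R := cls H) v
    rw [dg_cls h, hr v] at this
    omega) ht
  let g : Fin (D + s) ⊕ Fin j × Fin D → ℕ := Sum.elim (fun _ => 0) fun p => p.1 + 1
  have cd : ∀ c, Fintype.card {v // b v = c} = Fintype.card {w // g w = c} := fun c => by
    have : Fintype.card {w // g w = c} = (if c = 0 then D + s else 0) +
        ∑ i : Fin j, if (i : ℕ) + 1 = c then D else 0 := by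
      rw [Fintype.card_subtype, card_filter, Fintype.sum_sum_type, Fintype.sum_prod_type]
      congr 1
      · rcases c with _ | c <;> simp [g]
      · refine sum_congr rfl fun i _ => ?_
        by_cases x : (i : ℕ) + 1 = c <;> simp [g, x]
    rw [this, Fintype.card_subtype]
    rcases c with _ | c
    · simp [b3]
    rcases lt_or_ge c j with hj | hj
    · rw [b2 _ (by omega) (by omega), sum_eq_single (⟨c, hj⟩ : Fin j) (fun i _ hi =>
        if_neg fun x => hi (Fin.ext (by simpa using x))) (by simp)]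
      simp
    · rw [sum_eq_zero fun (i : Fin j) _ => if_neg (by have := i.2; omega),
        filter_false_of_mem fun v hv => by have := b1 v hv; omega]
      simp
  let e := Equiv.ofFiberEquiv fun c => Fintype.equivOfCardEq (cd c)
  have eg : ∀ v, g (e v) = b v := Equiv.ofFiberEquiv_map _
  have hH : H = pull e (join (fun a a' => H (e.symm (.inl a)) (e.symm (.inl a'))) (Cq j D)) := by
    ext u v
    obtain ⟨u, rfl⟩ := e.symm.surjective u
    obtain ⟨v, rfl⟩ := e.symm.surjective v
    have gu := eg (e.symm u)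
    have gv := eg (e.symm v)
    rw [e.apply_symm_apply] at gu gv
    rw [pull, e.apply_symm_apply, e.apply_symm_apply]
    have k1 := b4 (e.symm u) (mem_univ _) (e.symm v) (mem_univ _)
    have k2 := b4 (e.symm v) (mem_univ _) (e.symm u) (mem_univ _)
    rw [← gu, ← gv] at k1 k2
    rcases u with u | u <;> rcases v with v | v
    · rfl
    · exact iff_of_false (fun x => by simpa [g] using (k2 (by simp [g])).1 (Or.inr (h.symm _ _ x))) id
    · exact iff_of_false (fun x => by simpa [g] using (k1 (by simp [g])).1 (Or.inr x)) id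
    · have k := k1 (by simp [g])
      simp only [g, Sum.elim_inr, add_left_inj, Fin.val_inj] at k
      refine ⟨fun x => ⟨fun y => h.irr _ (y ▸ x), k.1 (Or.inr x)⟩, fun x =>
        (k.2 x.2).resolve_left fun y => x.1 (Sum.inr_injective (e.symm.injective y))⟩
  refine ⟨e, _, ⟨fun _ _ => h.symm _ _, fun _ => h.irr _⟩, fun a => ?_, hH⟩
  have := hr (e.symm (.inl a))
  rwa [hH, dg_pull, e.apply_symm_apply, dg_inl] at this

theorem opt_iff {D s j : ℕ} (hs : s < D) (hc : Fintype.card V = (j + 1) * D + s)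
    {X : Fin (D + s) → Fin (D + s) → Prop} (sX : Sim X) (rX : Reg X (D - 1)) (tX : TF (cpl X))
    {H : V → V → Prop} : Opt (D - 1) H ↔ ∃ (e : V ≃ Fin (D + s) ⊕ Fin j × Fin D)
      (K : Fin (D + s) → Fin (D + s) → Prop), Opt (D - 1) K ∧ H = pull e (join K (Cq j D)) := by
  have e0 : V ≃ Fin (D + s) ⊕ Fin j × Fin D := Fintype.equivOfCardEq (by rw [hc]; simp; ring)
  have s0 := sim_pull e0 (sim_join sX (sim_Cq j D))
  have r0 := reg_join e0 rX (reg_Cq j D)
  have fw : ∀ H : V → V → Prop, Opt (D - 1) H → ∃ (e : V ≃ Fin (D + s) ⊕ Fin j × Fin D)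
      (K : Fin (D + s) → Fin (D + s) → Prop), Opt (D - 1) K ∧ H = pull e (join K (Cq j D)) := by
    intro H h
    obtain ⟨e, K, k1, k2, k3⟩ := split hs hc h.1 h.2.1
      (h.tr3 s0 r0 (tr3_model hs (Fintype.card_fin _) sX rX tX e0))
    refine ⟨e, K, ⟨k1, k2, fun B b1 b2 => ?_⟩, k3⟩
    have := h.2.2 _ (sim_pull e (sim_join b1 (sim_Cq j D))) (reg_join e b2 (reg_Cq j D))
    rwa [k3, key_pull, key_pull, key_join] at this
  refine ⟨fw H, ?_⟩
  rintro ⟨e, K, k, rfl⟩
  obtain ⟨H, h⟩ := exists_opt s0 r0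
  obtain ⟨e', K', k', rfl⟩ := fw H h
  refine ⟨sim_pull e (sim_join k.1 (sim_Cq j D)), reg_join e k.2.1 (reg_Cq j D), fun B b1 b2 =>
    le_trans ?_ (h.2.2 B b1 b2)⟩
  rw [key_pull, key_pull, key_join]
  exact k.2.2 K' k'.1 k'.2.1

end CW.E
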