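import Pool.Agent.Work.MP_64623b_co.E3

/-! Triangle-free regular graphs, and the passage to multigraphs. -/

open Finset Matrix

namespace CW.E

/-- A triangle-free `s`-regular graph. -/
def Base {U : Type} [Fintype U] (s : ℕ) (F : U → U → Prop) : Prop := Sim F ∧ Reg F s ∧ TF F

theorem Base.pull {U : Type} [Fintype U] {s N : ℕ} {F : U → U → Prop} (h : Base s F)
    (hc : Fintype.card U = N) : ∃ F' : Fin N → Fin N → Prop, Base s F' :=
  let e := (Fintype.equivFinOfCardEq hc).symm
  ⟨E.pull e F, sim_pull e h.1, fun v => (dg_pull e F v).trans (h.2.1 _), fun _ _ _ => h.2.2 _ _ _⟩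

theorem base_even {h s : ℕ} (h0 : 0 < h) (hs : s ≤ h) :
    ∃ F : Fin (h + h) → Fin (h + h) → Prop, Base s F := by
  have : NeZero h := ⟨h0.ne'⟩
  let F : Fin h ⊕ Fin h → Fin h ⊕ Fin h → Prop := fun a b => match a, b with
    | .inl x, .inr y => ((y - x : Fin h) : ℕ) < s
    | .inr y, .inl x => ((y - x : Fin h) : ℕ) < s
    | _, _ => False
  have k : ∑ z : Fin h, (if (z : ℕ) < s then (1 : ℤ) else 0) = s := by
    exact_mod_cast sum_lt h s hs
  refine Base.pull (F := F) ⟨⟨?_, ?_⟩, ?_, ?_⟩ (by simp)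
  · rintro (a | a) (b | b) <;> exact id
  · rintro (a | a) <;> exact id
  · have i : ∀ x y (z : Fin h), (F x y ↔ (z : ℕ) < s) →
        ind F x y = if (z : ℕ) < s then (1 : ℤ) else 0 := fun x y z e => by
      split_ifs with c
      exacts [ind_pos (e.2 c), ind_neg fun x => c (e.1 x)]
    rintro (a | a)
    · rw [dg, Fintype.sum_sum_type, sum_eq_zero fun x _ => ind_neg (B := F) (x := .inl a)
        (y := .inl x) id, zero_add, ← k,
        ← (Equiv.subRight a).sum_comp fun z => if (z : ℕ) < s then (1 : ℤ) else 0]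
      exact sum_congr rfl fun y _ => i _ _ _ Iff.rfl
    · rw [dg, Fintype.sum_sum_type, sum_eq_zero fun x _ => ind_neg (B := F) (x := .inr a)
        (y := .inr x) id, add_zero, ← k,
        ← (Equiv.subLeft a).sum_comp fun z => if (z : ℕ) < s then (1 : ℤ) else 0]
      exact sum_congr rfl fun y _ => i _ _ _ Iff.rfl
  · rintro (a | a) (b | b) (c | c) h1 h2 h3 <;> first | exact h1 | exact h2 | exact h3

variable {n : ℕ}

theorem two_choose (n : ℕ) : 2 * ((n.choose 2 : ℕ) : ℤ) = n * (n - 1) := by
  induction n with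
  | zero => rfl
  | succ n ih =>
    rw [Nat.choose_succ_succ, Nat.choose_one_right]
    push_cast
    linarith

theorem row (K : MG n) {l : ℕ} (h : K.Two l) (a : Fin n) :
    ((∑ b, K.mu a b : ℕ) : ℤ) = (l + 1) * (n - 1) - dg (K.lvl l) a := by
  have : ∀ b, (K.mu a b : ℤ) = (l + 1) * (1 - if a = b then 1 else 0) - ind (K.lvl l) a b :=
    fun b => by
      by_cases e : a = b
      · simp [e, K.diag, ind_neg ((K.sim l).irr _)]
      · rw [if_neg e]
        rcases h a b e with x | x
        · rw [ind_pos (B := K.lvl l) ⟨e, x⟩, x]; ring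
        · rw [ind_neg (B := K.lvl l) fun y => by have := y.2; omega, x]; push_cast; ring
  push_cast
  simp [this, dg, ← mul_sum]

theorem cpl_lvl (K : MG n) {l : ℕ} (h : K.Two l) : cpl (K.lvl l) = K.lvl (l + 1) := by
  ext a b
  refine and_congr_right fun e => ⟨fun x => (h a b e).resolve_left fun y => x ⟨e, y⟩, fun x y => ?_⟩
  have := y.2
  omega

theorem reduction {q D s l : ℕ} (hn : n = (q + 1) * D + s) (hs : s < D) (hl : D ≤ 2 * l + 1)
    {F : Fin (D + s) → Fin (D + s) → Prop} (hF : Base s F) (G : MG n)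
    (he : 2 * (G.edges : ℤ) + n * (D - 1) = (l + 1) * (n * (n - 1))) :
    G.Fewest ↔ ∃ (e : Fin (D + s) ⊕ Fin q × Fin D ≃ Fin n) (K : MG (D + s)),
      (∀ p p', p ≠ p' → G.mu (e (.inr p)) (e (.inr p')) = if p.1 = p'.1 then l else l + 1) ∧
      (∀ a p, G.mu (e (.inl a)) (e (.inr p)) = l + 1) ∧
      (∀ a b, G.mu (e (.inl a)) (e (.inl b)) = K.mu a b) ∧
      K.Fewest ∧ K.Two l ∧ (∀ a, ∑ b, K.mu a b + l = l * (D + s) + s) ∧ TF (K.lvl (l + 1)) := by
  have sX := sim_cpl hF.1
  have rX : Reg (cpl F) (D - 1) := fun a => by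
    rw [dg_cpl hF.1, hF.2.1, Fintype.card_fin]
    push_cast
    ring
  have tX : TF (cpl (cpl F)) := by rw [cpl_cpl hF.1]; exact hF.2.2
  have hc : Fintype.card (Fin n) = (q + 1) * D + s := by rw [Fintype.card_fin, hn]
  have e0 : Fin n ≃ Fin (D + s) ⊕ Fin q × Fin D := Fintype.equivOfCardEq (by rw [hc]; simp; ring)
  have t1 : tr3 (cls (cpl F)) univ = psi D (Fintype.card (Fin (D + s))) := by
    have := psi_eq (q := 1) hs
    rw [one_mul] at this
    rw [tr3_kernel (Fintype.card_fin _) sX rX, tf_iff.1 tX, Fintype.card_fin, this]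
    simp
  have kf : ∀ K : MG (D + s), (∀ a, ∑ b, K.mu a b + l = l * (D + s) + s) →
      (K.Fewest ↔ K.Two l ∧ Opt (D - 1) (K.lvl l)) := fun K h => by
    refine fewest_iff (by omega) hl sX rX t1 K ?_
    have : ∀ a, ∑ b, K.z a b = l * (D + s) + s - l := fun a => by
      have := h a
      zify at this
      simp only [MG.z_apply]
      linarith
    rw [K.edges_z, sm_apply, two_choose]
    simp only [this, sum_const, card_univ, Fintype.card_fin, nsmul_eq_mul]
    push_cast
    ring
  rw [fewest_iff (by omega) hl (sim_pull e0 (sim_join sX (sim_Cq q D)))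
    (reg_join e0 rX (reg_Cq q D)) (tr3_model hs (Fintype.card_fin _) sX rX tX e0) G
    (by rw [two_choose]; exact he), opt_iff hs hc sX rX tX]
  constructor
  · rintro ⟨two, e, K0, hK, hG⟩
    have hl' : ∀ x y, G.lvl l (e.symm x) (e.symm y) ↔ join K0 (Cq q D) x y := fun x y => by
      rw [hG, pull, e.apply_symm_apply, e.apply_symm_apply]
    let K : MG (D + s) := ⟨fun a b => G.mu (e.symm (.inl a)) (e.symm (.inl b)),
      fun _ _ => G.symm _ _, fun _ => G.diag _⟩
    have k2 : K.Two l := fun a b h => two _ _ fun x => h (Sum.inl_injective (e.symm.injective x))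
    have k3 : K.lvl l = K0 := by
      ext a b
      refine Iff.trans (and_congr_left fun _ => not_congr ?_) (hl' (.inl a) (.inl b))
      rw [e.symm.injective.eq_iff, Sum.inl_injective.eq_iff]
    have k4 : ∀ a, ∑ b, K.mu a b + l = l * (D + s) + s := fun a => by
      have := row K k2 a
      rw [k3, hK.2.1] at this
      zify at this ⊢
      linarith
    refine ⟨e.symm, K, fun p p' h => ?_, fun a p => ?_, fun _ _ => rfl,
      (kf K k4).2 ⟨k2, k3 ▸ hK⟩, k2, k4, ?_⟩
    · have ne : e.symm (.inr p) ≠ e.symm (.inr p') := fun x =>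
        h (Sum.inr_injective (e.symm.injective x))
      split_ifs with c
      · exact ((hl' (.inr p) (.inr p')).2 ⟨h, c⟩).2
      · exact (two _ _ ne).resolve_left fun x => c ((hl' (.inr p) (.inr p')).1 ⟨ne, x⟩).2
    · have ne : e.symm (.inl a) ≠ e.symm (.inr p) := fun x =>
        Sum.inl_ne_inr (e.symm.injective x)
      exact (two _ _ ne).resolve_left fun x => (hl' (.inl a) (.inr p)).1 ⟨ne, x⟩
    · have a1 := hK.tr3 sX rX t1
      rw [← t1, tr3_kernel (Fintype.card_fin _) sX rX, tf_iff.1 tX,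
        tr3_kernel (Fintype.card_fin _) hK.1 hK.2.1] at a1
      rw [← cpl_lvl K k2, k3, tf_iff]
      linarith
  · rintro ⟨e, K, g1, g2, g3, k1, k2, k4, -⟩
    refine ⟨fun u v h => ?_, e.symm, K.lvl l, ((kf K k4).1 k1).2, ?_⟩
    · obtain ⟨u, rfl⟩ := e.surjective u
      obtain ⟨v, rfl⟩ := e.surjective v
      rcases u with u | u <;> rcases v with v | v
      · rw [g3]
        exact k2 u v fun x => h (by rw [x])
      · exact Or.inr (g2 u v)
      · exact Or.inr ((G.symm _ _).trans (g2 v u))
      · rw [g1 u v fun x => h (by rw [x])]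
        split_ifs
        exacts [Or.inl rfl, Or.inr rfl]
    · ext u v
      obtain ⟨u, rfl⟩ := e.surjective u
      obtain ⟨v, rfl⟩ := e.surjective v
      rw [pull, e.symm_apply_apply, e.symm_apply_apply, MG.lvl, e.injective.ne_iff]
      rcases u with u | u <;> rcases v with v | v
      · rw [g3, Sum.inl_injective.ne_iff]
        rfl
      · rw [g2]
        exact iff_of_false (fun x => by have := x.2; omega) id
      · rw [G.symm, g2]
        exact iff_of_false (fun x => by have := x.2; omega) id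
      · rw [Sum.inr_injective.ne_iff]
        refine and_congr_right fun h => ?_
        rw [g1 u v h]
        split_ifs with c
        · exact iff_of_true rfl c
        · exact iff_of_false (by omega) c

end CW.E
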