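import Pool.Agent.Work.MP_64623b_co.E4

/-! Triangle-free regular graphs inside blow-ups of the pentagon. -/

open Finset

namespace CW.E

open Classical in
noncomputable def io (p : Prop) : ℤ := if p then 1 else 0

theorem io_eq (p : Prop) [Decidable p] : io p = if p then 1 else 0 := by
  by_cases h : p <;> simp [io, h]

theorem sum_blocks (f : ℕ → ℤ) (g r : ℕ) :
    ∑ i ∈ range r, ∑ t ∈ range g, f (i * g + t) = ∑ z ∈ range (r * g), f z := by
  induction r with
  | zero => simp
  | succ r ih => rw [sum_range_succ, ih, Nat.succ_mul, sum_range_add]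

theorem base_five {r w y g a b k : ℕ} (h1 : w + g = r + r) (h2 : g ≤ y) (h3 : r * g = a * y + b)
    (h4 : b < y) (h5 : a + k + 1 = r + r) (h6 : k < y) :
    ∃ F : Fin (y + y + (r + r + w)) → Fin (y + y + (r + r + w)) → Prop, Base (r + r) F := by
  have : NeZero y := ⟨by omega⟩
  let A : Fin r → Fin y → Prop := fun i x => ∃ t < g, (i * g + t) % y = x
  let B : Fin y → Fin y → Prop := fun x x' =>
    ((x' - x : Fin y) : ℕ) < k + 1 ∧ (x' - x ≠ 0 ∨ b ≤ x)
  have a0 : ∀ i x, io (A i x) = ∑ t ∈ range g, if (i * g + t) % y = x then (1 : ℤ) else 0 := by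
    intro i x
    by_cases h : A i x
    · obtain ⟨t, ht, e⟩ := id h
      rw [io, if_pos h, sum_eq_single t (fun u hu ne => if_neg fun e' => ne ?_)
        (fun x => (x (mem_range.2 ht)).elim), if_pos e]
      have := Nat.ModEq.add_left_cancel' (i * g) (e'.trans e.symm)
      have hu := mem_range.1 hu
      exact Nat.ModEq.eq_of_lt_of_lt this (by omega) (by omega)
    · rw [io, if_neg h, sum_eq_zero fun t ht => if_neg fun e => h ⟨t, mem_range.1 ht, e⟩]
  have a1 : ∀ i, ∑ x, io (A i x) = g := fun i => by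
    simp only [a0]
    rw [sum_comm, sum_congr rfl (g := fun _ => (1 : ℤ)) fun t _ => ?_]
    · simp
    · rw [sum_eq_single (⟨(i * g + t) % y, Nat.mod_lt _ (by omega)⟩ : Fin y)
        (fun x _ ne => if_neg fun e => ne (Fin.ext e.symm)) (by simp), if_pos rfl]
  have a2 : ∀ x : Fin y, ∑ i, io (A i x) = a + if (x : ℕ) < b then 1 else 0 := fun x => by
    simp only [a0]
    rw [Fin.sum_univ_eq_sum_range (fun i => ∑ t ∈ range g,
      if (i * g + t) % y = x then (1 : ℤ) else 0),
      sum_blocks fun z => if z % y = x then (1 : ℤ) else 0, h3, sum_range_add, ← sum_blocks]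
    simp only [Nat.mul_add_mod_self_right]
    rw [sum_congr (s₁ := range y) rfl fun t ht => by rw [Nat.mod_eq_of_lt (mem_range.1 ht)],
      sum_congr (s₁ := range b) rfl fun t ht => by
        rw [Nat.mod_eq_of_lt ((mem_range.1 ht).trans h4)]]
    simp
  have b0 : ∀ x : Fin y, ∑ z : Fin y, io ((z : ℕ) < k + 1 ∧ (z ≠ 0 ∨ b ≤ x)) =
      k + 1 - if (x : ℕ) < b then 1 else 0 := fun x => by
    have e1 : ∑ z : Fin y, (if (z : ℕ) < k + 1 then (1 : ℤ) else 0) = (k + 1 : ℕ) := by
      exact_mod_cast sum_lt y (k + 1) h6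
    have e2 : ∀ z : Fin y, io ((z : ℕ) < k + 1 ∧ (z ≠ 0 ∨ b ≤ x)) =
        (if (z : ℕ) < k + 1 then (1 : ℤ) else 0) -
          if z = 0 then if (x : ℕ) < b then 1 else 0 else 0 := fun z => by
      rw [io_eq]
      by_cases c : z = 0
      · subst c
        by_cases d : (x : ℕ) < b
        · simp [d]
        · simp [d, not_lt.1 d]
      · simp [c]
    simp only [e2, sum_sub_distrib, e1]
    simp
  have b1 : ∀ x, ∑ x', io (B x x') = k + 1 - if (x : ℕ) < b then 1 else 0 := fun x => by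
    rw [← b0 x, ← (Equiv.subRight x).sum_comp fun z => io ((z : ℕ) < k + 1 ∧ (z ≠ 0 ∨ b ≤ x))]
    rfl
  have b2 : ∀ x', ∑ x, io (B x x') = k + 1 - if (x' : ℕ) < b then 1 else 0 := fun x' => by
    rw [← b0 x', ← (Equiv.subLeft x').sum_comp fun z => io ((z : ℕ) < k + 1 ∧ (z ≠ 0 ∨ b ≤ x'))]
    refine sum_congr rfl fun x _ => congrArg io (propext (and_congr_right fun _ => ?_))
    by_cases c : x' - x = 0
    · rw [sub_eq_zero.1 c]
      simp
    · exact iff_of_true (Or.inl c) (Or.inl c)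
  let F : (Fin y ⊕ Fin y) ⊕ (Fin r ⊕ Fin r) ⊕ Fin w →
      (Fin y ⊕ Fin y) ⊕ (Fin r ⊕ Fin r) ⊕ Fin w → Prop := fun u v => match u, v with
    | .inl (.inl x), .inl (.inr x') => B x x'
    | .inl (.inr x'), .inl (.inl x) => B x x'
    | .inl (.inl x), .inr (.inl (.inl i)) => A i x
    | .inr (.inl (.inl i)), .inl (.inl x) => A i x
    | .inl (.inr x), .inr (.inl (.inr i)) => A i x
    | .inr (.inl (.inr i)), .inl (.inr x) => A i x
    | .inr (.inl _), .inr (.inr _) => True
    | .inr (.inr _), .inr (.inl _) => True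
    | _, _ => False
  have i0 : io False = 0 := if_neg id
  have i1 : io True = 1 := if_pos trivial
  have z1 : (w : ℤ) + g = r + r := by exact_mod_cast h1
  have z5 : (a : ℤ) + k + 1 = r + r := by exact_mod_cast h5
  refine Base.pull (F := F) ⟨⟨?_, ?_⟩, fun u => ?_, ?_⟩ (by simp)
  · rintro ((u | u) | (u | u) | u) ((v | v) | (v | v) | v) <;> exact id
  · rintro ((u | u) | (u | u) | u) <;> exact id
  · show ∑ v, io (F u v) = _
    rcases u with (u | u) | (u | u) | u <;>
      simp only [Fintype.sum_sum_type, F, i0, i1, a1, a2, b1, b2, sum_const, card_univ,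
        Fintype.card_sum, Fintype.card_fin, nsmul_eq_mul] <;> push_cast <;> linarith
  · rintro ((u | u) | (u | u) | u) ((v | v) | (v | v) | v) ((x | x) | (x | x) | x) h1 h2 h3 <;>
      first | exact h1 | exact h2 | exact h3

theorem base_odd {N r : ℕ} (hN : Odd N) (h : 5 * r ≤ N) :
    ∃ F : Fin N → Fin N → Prop, Base (r + r) F := by
  rcases Nat.eq_zero_or_pos r with rfl | r0
  · exact ⟨fun _ _ => False, ⟨fun _ _ => id, fun _ => id⟩, fun _ => by simp [dg, ind],
      fun _ _ _ h => h.elim⟩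
  obtain ⟨w, g, y, h1, h2, h3, rfl⟩ : ∃ w g y, w + g = r + r ∧ g ≤ y ∧ r ≤ g ∧
      N = y + y + (r + r + w) := by
    obtain ⟨m, rfl⟩ := hN
    rcases Nat.even_or_odd' r with ⟨t, rfl | rfl⟩
    · exact ⟨2 * t - 1, 2 * t + 1, m + 1 - 3 * t, by omega, by omega, by omega, by omega⟩
    · exact ⟨2 * t + 1, 2 * t + 1, m - 1 - 3 * t, by omega, by omega, by omega, by omega⟩
  have y0 : 0 < y := by omega
  have a1 : r * g / y ≤ r := Nat.div_le_of_le_mul (by rw [mul_comm y]; gcongr)
  have a2 : r + r - y ≤ r * g / y := (Nat.le_div_iff_mul_le y0).2 (by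
    rcases le_total y (r + r) with c | c
    · zify [c]
      have : (r : ℤ) ≤ g := by exact_mod_cast h3
      nlinarith [sq_nonneg ((r : ℤ) - y), mul_nonneg (Int.natCast_nonneg r) (sub_nonneg.2 this)]
    · simp [Nat.sub_eq_zero_of_le c])
  exact base_five (a := r * g / y) (b := r * g % y) (k := r + r - 1 - r * g / y) h1 h2
    (Nat.div_add_mod' _ _).symm (Nat.mod_lt _ y0) (by omega) (by omega)

end CW.E
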