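import Pool.Agent.Work.MP_64623b_co.Defs

-- merged part: Pool.Agent.Work.MP_64623b_co.Ori
section
/-! A graph with degrees at most two is a disjoint union of paths and cycles. -/

open Equiv

namespace CW

/-- At most two neighbours. -/
def M2 {V : Type} (B : V → V → Prop) : Prop :=
  ∀ v a b c, B v a → B v b → B v c → a = b ∨ a = c ∨ b = c

structure Ori {V : Type} (B D : V → V → Prop) : Prop where
  adj : ∀ x y, B x y ↔ D x y ∨ D y x
  as : ∀ x y, D x y → ¬ D y x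
  fn : ∀ x y y', D x y → D x y' → y = y'
  inj : ∀ x x' y, D x y → D x' y → x = x'

theorem Ori.add {V : Type} {B B' D : V → V → Prop} (h : Ori B' D) {u v : V} (hne : u ≠ v)
    (hB : ∀ x y, B x y ↔ B' x y ∨ x = u ∧ y = v ∨ x = v ∧ y = u) (h0 : ¬ B' v u)
    (ho : ¬ ∃ y, D u y) (hi : ¬ ∃ y, D y v) : ∃ D, Ori B D := by
  have h1 : ¬ D v u := fun d => h0 ((h.adj _ _).2 (Or.inl d))
  refine ⟨fun x y => D x y ∨ x = u ∧ y = v, fun x y => ?_, ?_, ?_, ?_⟩
  · rw [hB, h.adj]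
    tauto
  · rintro x y (d | ⟨rfl, rfl⟩) (d' | ⟨e, e'⟩)
    exacts [h.as _ _ d d', h1 (e ▸ e' ▸ d), h1 d', hne e']
  · rintro x y y' (d | ⟨rfl, rfl⟩) (d' | ⟨e, e'⟩)
    exacts [h.fn _ _ _ d d', absurd ⟨_, e ▸ d⟩ ho, absurd ⟨_, d'⟩ ho, e'.symm]
  · rintro x x' y (d | ⟨rfl, rfl⟩) (d' | ⟨e, e'⟩)
    exacts [h.inj _ _ _ d d', absurd ⟨_, e' ▸ d⟩ hi, absurd ⟨_, d'⟩ hi, e.symm]

theorem Ori.card {V : Type} {B D : V → V → Prop} (h : Ori B D) :
    {x | ∃ y, D x y}.ncard = {x | ∃ y, D y x}.ncard := by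
  have e1 : {x | ∃ y, D x y} = Prod.fst '' {p : V × V | D p.1 p.2} := by ext; simp
  have e2 : {x | ∃ y, D y x} = Prod.snd '' {p : V × V | D p.1 p.2} := by ext; simp
  rw [e1, e2, Set.InjOn.ncard_image, Set.InjOn.ncard_image]
  · rintro ⟨a, b⟩ d ⟨a', b'⟩ d' (rfl : b = b')
    rw [h.inj a a' b d d']
  · rintro ⟨a, b⟩ d ⟨a', b'⟩ d' (rfl : a = a')
    rw [h.fn a b b' d d']

theorem exists_ori {V : Type} [Finite V] (k : ℕ) : ∀ B : V → V → Prop,
    {p : V × V | B p.1 p.2}.ncard = k → (∀ x y, B x y → B y x) → (∀ x, ¬ B x x) → M2 B →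
      ∃ D, Ori B D := by
  induction k using Nat.strong_induction_on with
  | _ k ih =>
  intro B hk hs hi hm
  by_cases he : ∃ u v, B u v
  swap
  · exact ⟨fun _ _ => False, fun x y => by simpa using fun h => he ⟨x, y, h⟩, by simp, by simp,
      by simp⟩
  obtain ⟨u, v, huv, hl⟩ : ∃ u v, B u v ∧
      ((∀ x, B u x → x = v) ∨ ∀ x y, B x y → ∃ z, B x z ∧ z ≠ y) := by
    by_cases hl : ∃ u v, B u v ∧ ∀ x, B u x → x = v
    · obtain ⟨u, v, h1, h2⟩ := hl
      exact ⟨u, v, h1, Or.inl h2⟩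
    · obtain ⟨u, v, h1⟩ := he
      refine ⟨u, v, h1, Or.inr fun x y h => by_contra fun h' => hl ⟨x, y, h, fun z hz => ?_⟩⟩
      exact by_contra fun h2 => h' ⟨z, hz, h2⟩
  have hne : u ≠ v := fun e => hi v (e ▸ huv)
  obtain ⟨D, hD⟩ := ih _ (by
      rw [← hk]
      exact Set.ncard_lt_ncard ⟨fun p h => h.1, fun h => (h (show (u, v) ∈ _ from huv)).2.1 ⟨rfl, rfl⟩⟩)
    (fun x y => B x y ∧ ¬ (x = u ∧ y = v) ∧ ¬ (x = v ∧ y = u)) rfl
    (fun x y h => ⟨hs _ _ h.1, fun e => h.2.2 e.symm, fun e => h.2.1 e.symm⟩) (fun x h => hi x h.1)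
    fun x a b c h1 h2 h3 => hm x a b c h1.1 h2.1 h3.1
  have hB : ∀ x y, B x y ↔ (B x y ∧ ¬ (x = u ∧ y = v) ∧ ¬ (x = v ∧ y = u)) ∨
      x = u ∧ y = v ∨ x = v ∧ y = u := fun x y => by
    refine ⟨fun h => by_contra fun n => n (Or.inl ⟨h, fun p => n (Or.inr (Or.inl p)),
      fun q => n (Or.inr (Or.inr q))⟩), ?_⟩
    rintro (h | ⟨rfl, rfl⟩ | ⟨rfl, rfl⟩)
    exacts [h.1, huv, hs _ _ huv]
  have key : ∀ x y, B x y → (x = u ∧ y = v ∨ x = v ∧ y = u) → (∃ a, D x a) → (∃ a, D a x) →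
      False := by
    rintro x y hxy e ⟨a, ha⟩ ⟨b, hb⟩
    have h1 := (hD.adj _ _).2 (Or.inl ha)
    have h2 := (hD.adj _ _).2 (Or.inr hb)
    rcases hm x a b y h1.1 h2.1 hxy with rfl | rfl | rfl
    · exact hD.as _ _ ha hb
    · exact e.elim h1.2.1 h1.2.2
    · exact e.elim h2.2.1 h2.2.2
  have ku := key u v huv (Or.inl ⟨rfl, rfl⟩)
  have kv := key v u (hs _ _ huv) (Or.inr ⟨rfl, rfl⟩)
  suffices H : ((¬ ∃ y, D u y) ∧ ¬ ∃ y, D y v) ∨ ((¬ ∃ y, D v y) ∧ ¬ ∃ y, D y u) by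
    rcases H with H | H
    · exact hD.add hne hB (fun h => h.2.2 ⟨rfl, rfl⟩) H.1 H.2
    · exact hD.add hne.symm (fun x y => (hB x y).trans (or_congr_right or_comm))
        (fun h => h.2.1 ⟨rfl, rfl⟩) H.1 H.2
  rcases hl with hl | hl
  · have h1 : ¬ ∃ y, D u y := fun ⟨y, h⟩ =>
      ((hD.adj _ _).2 (Or.inl h)).2.1 ⟨rfl, hl y ((hD.adj _ _).2 (Or.inl h)).1⟩
    have h2 : ¬ ∃ y, D y u := fun ⟨y, h⟩ =>
      ((hD.adj _ _).2 (Or.inr h)).2.1 ⟨rfl, hl y ((hD.adj _ _).2 (Or.inr h)).1⟩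
    exact (em (∃ y, D y v)).elim (fun o => Or.inr ⟨fun h => kv h o, h2⟩) fun o => Or.inl ⟨h1, o⟩
  · have h1 : ∀ x, x ≠ u → x ≠ v → ((∃ y, D x y) ↔ ∃ y, D y x) := fun x xu xv => by
      constructor
      · rintro ⟨y, h⟩
        obtain ⟨z, hz, hn⟩ := hl x y ((hD.adj _ _).2 (Or.inl h)).1
        exact ⟨z, ((hD.adj x z).1 ⟨hz, fun e => xu e.1, fun e => xv e.1⟩).resolve_left
          fun d => hn (hD.fn _ _ _ d h)⟩
      · rintro ⟨y, h⟩
        obtain ⟨z, hz, hn⟩ := hl x y ((hD.adj _ _).2 (Or.inr h)).1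
        exact ⟨z, ((hD.adj x z).1 ⟨hz, fun e => xu e.1, fun e => xv e.1⟩).resolve_right
          fun d => hn (hD.inj _ _ _ d h)⟩
    by_contra H
    by_cases ou : ∃ y, D u y
    · have ov : ∃ y, D v y := by_contra fun n => H (Or.inr ⟨n, ku ou⟩)
      refine (Set.ncard_lt_ncard (s := {x | ∃ y, D y x}) (t := {x | ∃ y, D x y})
        ⟨fun x hx => (h1 x (fun e => ku ou (e ▸ hx)) fun e => kv ov (e ▸ hx)).2 hx,
          fun h => ku ou (h ou)⟩).ne' hD.card
    · have iv : ∃ y, D y v := by_contra fun n => H (Or.inl ⟨ou, n⟩)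
      have iu : ∃ y, D y u := by_contra fun n => H (Or.inr ⟨fun h => kv h iv, n⟩)
      refine (Set.ncard_lt_ncard (t := {x | ∃ y, D y x}) (s := {x | ∃ y, D x y})
        ⟨fun x hx => (h1 x (fun e => ou (e ▸ hx)) fun e => kv (e ▸ hx) iv).1 hx,
          fun h => ou (h iu)⟩).ne hD.card

theorem back {V : Type} [Finite V] (π : Perm V) (k : ℕ) (v : V) :
    ∃ j : ℕ, (π ^ j) ((π ^ k) v) = v :=
  (Perm.SameCycle.symm ⟨k, rfl⟩).exists_nat_pow_eq

/-- Coordinates along a permutation from a set that meets all orbits. -/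
theorem coords {V : Type} [Finite V] (π : Perm V) (M : V → Prop)
    (hM : ∀ v, ∃ k : ℕ, M ((π ^ k) v)) : ∃ (t : V → ℕ) (bs : V → V) (ps : V → ℕ),
      (∀ m, 0 < t m ∧ M ((π ^ t m) m) ∧ ∀ j, 0 < j → j < t m → ¬ M ((π ^ j) m)) ∧
      (∀ v, M (bs v) ∧ ps v < t (bs v) ∧ (π ^ ps v) (bs v) = v) ∧
      ∀ m j, M m → j < t m → bs ((π ^ j) m) = m ∧ ps ((π ^ j) m) = j := by
  classical
  have e1 : ∀ m, ∃ t, 0 < t ∧ M ((π ^ t) m) := fun m => by
    obtain ⟨k, hk⟩ := hM (π m)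
    exact ⟨k + 1, Nat.succ_pos _, by rwa [pow_succ]⟩
  have e2 : ∀ v, ∃ j, M ((π ^ j)⁻¹ v) := fun v => by
    obtain ⟨k, hk⟩ := hM v
    obtain ⟨j, hj⟩ := back π k v
    exact ⟨j, by rwa [Perm.inv_eq_iff_eq.2 hj.symm]⟩
  have ht : ∀ m j, 0 < j → j < Nat.find (e1 m) → ¬ M ((π ^ j) m) := fun m j h0 hj h =>
    Nat.find_min (e1 m) hj ⟨h0, h⟩
  have e : ∀ (i j : ℕ) v, i ≤ j → (π ^ i) ((π ^ j)⁻¹ v) = (π ^ (j - i))⁻¹ v := fun i j v h => by
    obtain ⟨l, rfl⟩ := Nat.exists_eq_add_of_le' h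
    simp [pow_add]
  refine ⟨fun m => Nat.find (e1 m), fun v => (π ^ Nat.find (e2 v))⁻¹ v, fun v => Nat.find (e2 v),
    fun m => ⟨(Nat.find_spec (e1 m)).1, (Nat.find_spec (e1 m)).2, ht m⟩,
    fun v => ⟨Nat.find_spec (e2 v), lt_of_not_ge fun h => ?_, by simp⟩, fun m j hm hj => ?_⟩
  · obtain ⟨h1, h2⟩ := Nat.find_spec (e1 ((π ^ Nat.find (e2 v))⁻¹ v))
    beta_reduce at h
    rw [e _ _ _ h] at h2
    exact Nat.find_min (e2 v) (by omega) h2
  · beta_reduce at hj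
    have h1 : Nat.find (e2 ((π ^ j) m)) = j := by
      refine (Nat.find_eq_iff _).2 ⟨by simpa using hm, fun i hi h => ?_⟩
      obtain ⟨l, rfl⟩ := Nat.exists_eq_add_of_lt hi
      refine ht m (l + 1) (Nat.succ_pos _) (by omega) ?_
      simpa [add_assoc, pow_add] using h
    simp [h1]

theorem exists_shape {n : ℕ} {B : Fin n → Fin n → Prop} (hs : ∀ x y, B x y → B y x)
    (hi : ∀ x, ¬ B x x) (hm : M2 B) :
    ∃ (c b : ℕ) (P : Fin c → ℕ) (Y : Fin b → ℕ), Shape B P Y := by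
  classical
  obtain ⟨D, hD⟩ := exists_ori _ B rfl hs hi hm
  obtain ⟨π, hπ⟩ := Perm.exists_extending_pair (α := {p : Fin n × Fin n // D p.1 p.2})
    (fun p => p.1.1) (fun p => p.1.2)
    (fun p q e => Subtype.ext (Prod.ext e (hD.fn _ _ _ p.2 (by rw [show p.1.1 = q.1.1 from e]; exact q.2))))
    fun p q e => Subtype.ext (Prod.ext (hD.inj _ _ _ p.2 (by rw [show p.1.2 = q.1.2 from e]; exact q.2)) e)
  let S : Fin n → Prop := fun x => ¬ ∃ y, D y x
  have hd : ∀ u v, D u v ↔ π u = v ∧ ¬ S v := fun u v =>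
    ⟨fun d => ⟨hπ ⟨(u, v), d⟩, fun h => h ⟨u, d⟩⟩, fun ⟨e, h⟩ => by
      obtain ⟨y, d⟩ := not_not.1 h
      rwa [π.injective (e.trans (hπ ⟨(y, v), d⟩).symm)]⟩
  let R : Fin n → Prop := fun x => ∀ k : ℕ, ¬ S ((π ^ k) x) ∧ x ≤ (π ^ k) x
  obtain ⟨t, bs, ps, ht, hb, hu⟩ := coords π (fun x => S x ∨ R x) fun v => by
    by_cases h : ∃ k : ℕ, S ((π ^ k) v)
    · exact h.imp fun k => Or.inl
    · obtain ⟨_, ⟨k, rfl⟩, hk⟩ := Set.exists_min_image (Set.range fun k : ℕ => (π ^ k) v) id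
        (Set.toFinite _) (Set.range_nonempty _)
      refine ⟨k, Or.inr fun l => ?_⟩
      rw [← Perm.mul_apply, ← pow_add]
      exact ⟨fun h' => h ⟨_, h'⟩, hk _ ⟨_, rfl⟩⟩
  have hR : ∀ m, R m → (π ^ t m) m = m := fun m h => by
    obtain ⟨j, hj⟩ := back π (t m) m
    exact le_antisymm ((((ht m).2.1.resolve_left (h _).1) j).2.trans_eq hj) (h _).2
  obtain ⟨c, ⟨eS⟩⟩ := Finite.exists_equiv_fin {x // S x}
  obtain ⟨b, ⟨eR⟩⟩ := Finite.exists_equiv_fin {x // R x}
  let g : Fin c ⊕ Fin b → Fin n := Sum.elim (fun i => (eS.symm i).1) fun j => (eR.symm j).1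
  have gi : Function.Injective g := by
    rintro (x | x) (y | y) e
    · rw [eS.symm.injective (Subtype.ext e)]
    · exact absurd (show S (g (.inr y)) from e ▸ (eS.symm x).2) ((eR.symm y).2 0).1
    · exact absurd (show S (g (.inr x)) from e.symm ▸ (eS.symm y).2) ((eR.symm x).2 0).1
    · rw [eR.symm.injective (Subtype.ext e)]
  have gm : ∀ x, S (g x) ∨ R (g x) := by
    rintro (x | x)
    exacts [Or.inl (eS.symm x).2, Or.inr (eR.symm x).2]
  choose blk hk using fun v => show ∃ x, g x = bs v from (hb v).1.elim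
    (fun h => ⟨.inl (eS ⟨_, h⟩), by simp [g]⟩) fun h => ⟨.inr (eR ⟨_, h⟩), by simp [g]⟩
  have hl : ∀ x, Sum.elim (fun i => t (g (.inl i))) (fun j => t (g (.inr j))) x = t (g x) := by
    rintro (x | x) <;> rfl
  have key : ∀ u v, D u v ↔ blk u = blk v ∧ (ps u + 1 = ps v ∨
      ∃ j, blk u = .inr j ∧ ps u + 1 = t (g (.inr j)) ∧ ps v = 0) := fun u v => by
    obtain ⟨h1, h2, h3⟩ := hb u
    have e : π u = (π ^ (ps u + 1)) (bs u) := by rw [pow_succ', Perm.mul_apply, h3]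
    rw [hd, ← gi.eq_iff, hk, hk]
    constructor
    · rintro ⟨rfl, h⟩
      rcases (Nat.succ_le_of_lt h2).lt_or_eq with h4 | h4
      · rw [e]
        exact ⟨(hu _ _ h1 h4).1.symm, Or.inl (hu _ _ h1 h4).2.symm⟩
      · replace h4 : ps u + 1 = t (bs u) := h4
        rw [h4] at e
        obtain ⟨j, hj⟩ := back π (t (bs u)) (bs u)
        have r : R (bs u) := h1.resolve_left fun s =>
          (((ht (bs u)).2.1.resolve_left (e ▸ h)) j).1 (hj.symm ▸ s)
        have h5 := hu (bs u) 0 h1 (ht _).1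
        rw [e, hR _ r]
        refine ⟨h5.1.symm, Or.inr ⟨eR ⟨_, r⟩, gi ((hk u).trans (by simp [g])), ?_, h5.2⟩⟩
        simp [g, h4]
    · rintro ⟨e', h | ⟨j, h4, h5, h6⟩⟩
      · have h7 := (hb v).2
        rw [← e', ← h] at h7
        exact ⟨e.trans h7.2, fun s => (ht _).2.2 _ (Nat.succ_pos _) h7.1 (Or.inl (h7.2.symm ▸ s))⟩
      · have h7 := (hb v).2.2
        have h8 : bs u = g (.inr j) := by rw [← hk, h4]
        rw [h6, ← e', h8] at h7
        rw [e, h5, h8, ← h7]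
        exact ⟨hR _ (eR.symm j).2, ((eR.symm j).2 0).1⟩
  refine ⟨c, b, fun i => t (g (.inl i)), fun j => t (g (.inr j)), fun i => (ht _).1, fun j => ?_,
    blk, ps, ⟨fun v _ => ?_, fun u _ v _ e => ?_, fun p hp => ?_⟩, fun u v => ?_⟩
  · have r := (eR.symm j).2
    have h1 := hR _ r
    have h2 := (ht (g (.inr j))).1
    have d1 := (hd _ _).2 ⟨rfl, (r 1).1⟩
    by_contra h
    beta_reduce at h
    rcases (show t (g (.inr j)) = 1 ∨ t (g (.inr j)) = 2 by omega) with h3 | h3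
    · rw [show t (eR.symm j).1 = 1 from h3, pow_one] at h1
      rw [h1] at d1
      exact hD.as _ _ d1 d1
    · rw [show t (eR.symm j).1 = 2 from h3] at h1
      exact hD.as _ _ d1 ((hd _ _).2 ⟨h1, (r 0).1⟩)
  · show ps v < _
    rw [hl, hk]
    exact (hb v).2.1
  · obtain ⟨e1, e2⟩ := Prod.ext_iff.1 e
    rw [← (hb u).2.2, ← (hb v).2.2, ← hk, ← hk, show blk u = blk v from e1,
      show ps u = ps v from e2]
  · have := hu (g p.1) p.2 (gm _) (by rw [← hl]; exact hp)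
    exact ⟨_, trivial, Prod.ext (gi ((hk _).trans this.1)) this.2⟩
  · rw [hD.adj, key, key]
    refine ⟨?_, fun ⟨e, h⟩ => ?_⟩
    · rintro (⟨e, h | ⟨j, h⟩⟩ | ⟨e, h | ⟨j, h⟩⟩)
      exacts [⟨e, Or.inl h⟩, ⟨e, Or.inr (Or.inr ⟨j, h.1, Or.inl h.2⟩)⟩, ⟨e.symm, Or.inr (Or.inl h)⟩,
        ⟨e.symm, Or.inr (Or.inr ⟨j, e ▸ h.1, Or.inr h.2⟩)⟩]
    · rcases h with h | h | ⟨j, h, h' | h'⟩
      exacts [Or.inl ⟨e, Or.inl h⟩, Or.inr ⟨e.symm, Or.inl h⟩, Or.inl ⟨e, Or.inr ⟨j, h, h'⟩⟩,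
        Or.inr ⟨e.symm, Or.inr ⟨j, e ▸ h, h'⟩⟩]

end CW
end

-- merged part: Pool.Agent.Work.MP_64623b_co.Main
section
-- merged part: Pool.Agent.Work.MP_64623b_co.Poly
section
/-! Traces of powers of `ε B + a (J V - 1)` in terms of closed walks and walks of `B`. -/

open Polynomial Matrix Finset

namespace CW

variable {V : Type} [Fintype V] [DecidableEq V]

/-- The sum of all entries. -/
def sm : Matrix V V ℤ →ₗ[ℤ] ℤ where
  toFun M := ∑ i, ∑ j, M i j
  map_add' M N := by simp [sum_add_distrib]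
  map_smul' a M := by simp [mul_sum]

omit [DecidableEq V] in
theorem sm_apply (M : Matrix V V ℤ) : sm M = ∑ i, ∑ j, M i j := rfl

def J (V : Type) : Matrix V V ℤ := Matrix.of fun _ _ => 1

omit [DecidableEq V] in
theorem mJm (M N : Matrix V V ℤ) (i j : V) : (M * J V * N) i j = (∑ x, M i x) * ∑ y, N y j := by
  simp [mul_apply, J, mul_sum]

omit [DecidableEq V] in
theorem sm_J (M N : Matrix V V ℤ) : sm (M * J V * N) = sm M * sm N := by
  simp only [sm_apply, mJm]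
  rw [sum_comm (f := fun i j => N i j), sum_mul_sum]

omit [DecidableEq V] in
theorem tr_J (M N : Matrix V V ℤ) : trace (M * J V * N) = sm (N * M) := by
  simp only [sm_apply, trace, Matrix.diag, mJm]
  simp only [mul_apply, sum_mul_sum]
  rw [sum_comm]
  conv_rhs => rw [sum_comm]
  refine sum_congr rfl fun x _ => ?_
  rw [sum_comm]
  exact sum_congr rfl fun y _ => sum_congr rfl fun z _ => mul_comm _ _

theorem rec_x (C : Matrix V V ℤ) (a : ℤ) (i j : ℕ) : sm ((C + a • J V) ^ (i + 1) * C ^ j) =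
    sm ((C + a • J V) ^ i * C ^ (j + 1)) + a * (sm ((C + a • J V) ^ i * C ^ 0) * sm (C ^ j)) := by
  rw [pow_succ, mul_add, add_mul, map_add, mul_assoc _ C, ← pow_succ', Matrix.mul_smul,
    Matrix.smul_mul, map_smul, sm_J, pow_zero, mul_one, smul_eq_mul]

theorem rec_y (C : Matrix V V ℤ) (a : ℤ) (i j : ℕ) : trace (C ^ j * (C + a • J V) ^ (i + 1)) =
    trace (C ^ (j + 1) * (C + a • J V) ^ i) + a * sm ((C + a • J V) ^ i * C ^ j) := by
  rw [pow_succ', ← mul_assoc, mul_add, add_mul, trace_add, ← pow_succ, Matrix.mul_smul,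
    Matrix.smul_mul, trace_smul, tr_J, smul_eq_mul]

theorem one_x (C D : Matrix V V ℤ) (a : ℤ) (i : ℕ) : ∀ j, (∀ l < i + j, sm (C ^ l) = sm (D ^ l)) →
    sm ((C + a • J V) ^ i * C ^ j) - sm ((D + a • J V) ^ i * D ^ j) =
      sm (C ^ (i + j)) - sm (D ^ (i + j)) := by
  induction i with
  | zero => intro j _; simp
  | succ i ih =>
    intro j h
    have h1 := ih (j + 1) fun l hl => h l (by omega)
    have h2 := ih 0 fun l hl => h l (by omega)
    rw [h (i + 0) (by omega), sub_self, sub_eq_zero] at h2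
    rw [rec_x, rec_x, h2, h j (by omega), show i + 1 + j = i + (j + 1) by omega]
    linarith

theorem one_y (C D : Matrix V V ℤ) (a : ℤ) (h : ℕ) (hl : ∀ l < h, sm (C ^ l) = sm (D ^ l)) (i : ℕ) :
    ∀ j, i + j = h + 1 → trace (C ^ j * (C + a • J V) ^ i) - trace (D ^ j * (D + a • J V) ^ i) =
      trace (C ^ (h + 1)) - trace (D ^ (h + 1)) + a * i * (sm (C ^ h) - sm (D ^ h)) := by
  induction i with
  | zero => intro j e; simp [← e]
  | succ i ih =>
    intro j e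
    have h1 := ih (j + 1) (by omega)
    have h2 := one_x C D a i j fun l h' => hl l (by omega)
    rw [show i + j = h by omega] at h2
    rw [rec_y, rec_y]
    push_cast
    linear_combination h1 + a * h2

noncomputable def trL (B : Matrix V V ℤ) : ℤ[X] →ₗ[ℤ] ℤ :=
  (traceLinearMap V ℤ ℤ).comp (aeval B).toLinearMap

noncomputable def smL (B : Matrix V V ℤ) : ℤ[X] →ₗ[ℤ] ℤ := sm.comp (aeval B).toLinearMap

theorem trL_apply (B : Matrix V V ℤ) (p : ℤ[X]) : trL B p = trace (aeval B p) := rfl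

theorem smL_apply (B : Matrix V V ℤ) (p : ℤ[X]) : smL B p = sm (aeval B p) := rfl

/-- The functional vanishes on polynomials of degree below `h`. -/
def Van (φ : ℤ[X] →ₗ[ℤ] ℤ) (h : ℕ) : Prop := ∀ q : ℤ[X], q.degree < h → φ q = 0

theorem van_of {φ : ℤ[X] →ₗ[ℤ] ℤ} {P : ℕ → ℤ[X]} (hP : ∀ j, (P j).Monic ∧ (P j).natDegree = j) :
    ∀ h, (∀ j < h, φ (P j) = 0) → Van φ h := by
  intro h
  induction h with
  | zero =>
    intro _ q hq
    have : q = 0 := degree_eq_bot.1 (Nat.WithBot.lt_zero_iff.1 (by simpa using hq))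
    rw [this, map_zero]
  | succ h ih =>
    intro h0 q hq
    have h1 : φ (q - q.coeff h • P h) = 0 := by
      refine ih (fun j hj => h0 j (by omega)) _ ((degree_lt_iff_coeff_zero _ _).2 fun m hm => ?_)
      rcases hm.eq_or_lt with rfl | hm
      · have := (hP h).1.coeff_natDegree
        rw [(hP h).2] at this
        simp [this]
      · have e1 := (degree_lt_iff_coeff_zero _ _).1 hq m hm
        have e2 : (P h).coeff m = 0 := coeff_eq_zero_of_natDegree_lt (by rw [(hP h).2]; exact hm)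
        simp [e1, e2]
    rw [map_sub, map_smul, h0 h (by omega)] at h1
    simpa using h1

theorem Van.eq {φ : ℤ[X] →ₗ[ℤ] ℤ} {h : ℕ} (hv : Van φ h) {p q : ℤ[X]} (hp : p.Monic)
    (hq : q.Monic) (dp : p.natDegree = h) (dq : q.natDegree = h) : φ p = φ q := by
  rw [← sub_eq_zero, ← map_sub]
  refine hv _ ?_
  rw [← dp, ← degree_eq_natDegree hp.ne_zero]
  refine degree_sub_lt_left ?_ hp.ne_zero (hp.trans hq.symm)
  rw [degree_eq_natDegree hp.ne_zero, degree_eq_natDegree hq.ne_zero, dp, dq]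

theorem Van.mono {φ : ℤ[X] →ₗ[ℤ] ℤ} {h k : ℕ} (hv : Van φ h) (hk : k ≤ h) : Van φ k :=
  fun q hq => hv q (hq.trans_le (by exact_mod_cast hk))

/-- The matrix with the layer `B`. -/
def lay (ε a : ℤ) (B : Matrix V V ℤ) : Matrix V V ℤ := ε • B + a • (J V - 1)

omit [Fintype V] in
theorem lay_eq (ε a : ℤ) (B : Matrix V V ℤ) : lay ε a B = (ε • B - a • 1) + a • J V := by
  rw [lay, smul_sub]
  abel

theorem lay_pow {ε : ℤ} (a : ℤ) (hε : ε * ε = 1) (B : Matrix V V ℤ) (l : ℕ) :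
    (ε • B - a • 1) ^ l = ε ^ l • aeval B ((X - C (ε * a)) ^ l) := by
  rw [map_pow, ← _root_.smul_pow]
  congr 1
  rw [map_sub, aeval_X, aeval_C, smul_sub, Algebra.algebraMap_eq_smul_one, smul_smul, ← mul_assoc,
    hε, one_mul]

theorem lay_diff {ε : ℤ} (a : ℤ) (hε : ε * ε = 1) (B D : Matrix V V ℤ) {h : ℕ}
    (hφ : Van (trL B - trL D) (h + 1)) (hψ : Van (smL B - smL D) h) {p q : ℤ[X]} (hp : p.Monic)
    (dp : p.natDegree = h + 1) (hq : q.Monic) (dq : q.natDegree = h) :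
    trace (lay ε a B ^ (h + 1)) - trace (lay ε a D ^ (h + 1)) =
      ε ^ (h + 1) * (trL B p - trL D p) + a * (h + 1) * ε ^ h * (smL B q - smL D q) := by
  have m : ∀ l, ((X - C (ε * a)) ^ l).Monic := fun l => (monic_X_sub_C _).pow l
  have d : ∀ l, ((X - C (ε * a)) ^ l).natDegree = l := fun l => by
    rw [(monic_X_sub_C _).natDegree_pow, natDegree_X_sub_C, mul_one]
  have key := one_y (ε • B - a • 1) (ε • D - a • 1) a h (fun l hl => by
    have := hψ ((X - C (ε * a)) ^ l) (by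
      rw [degree_eq_natDegree (m l).ne_zero, d]; exact_mod_cast hl)
    rw [lay_pow a hε, lay_pow a hε, map_smul, map_smul]
    congr 1
    exact sub_eq_zero.1 this) (h + 1) 0 rfl
  have e1 := hφ.eq (m _) hp (d _) dp
  have e2 := hψ.eq (m _) hq (d _) dq
  simp only [LinearMap.sub_apply] at e1 e2
  rw [pow_zero, pow_zero, one_mul, one_mul, ← lay_eq, ← lay_eq] at key
  rw [key, ← e1, ← e2]
  simp only [lay_pow a hε, trace_smul, map_smul, smul_eq_mul, trL_apply, smL_apply]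
  push_cast
  ring

/-- Chebyshev polynomials. -/
noncomputable def T : ℕ → ℤ[X]
  | 0 => 2
  | 1 => X
  | k + 2 => X * T (k + 1) - T k

theorem T_monic : ∀ k, (T (k + 1)).Monic ∧ (T (k + 1)).natDegree = k + 1
  | 0 => ⟨monic_X, natDegree_X⟩
  | k + 1 => by
    obtain ⟨h1, h2⟩ := T_monic k
    have m : (X * T (k + 1)).Monic := monic_X.mul h1
    have d : (X * T (k + 1)).natDegree = k + 2 := by
      rw [monic_X.natDegree_mul h1, h2, natDegree_X]; omega
    have d' : (T k).natDegree < (X * T (k + 1)).natDegree := by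
      rw [d]
      cases k with
      | zero => simp [T]
      | succ k => rw [(T_monic k).2]; omega
    exact ⟨m.sub_of_left (degree_lt_degree d'), (natDegree_sub_eq_left_of_natDegree_lt d').trans d⟩

noncomputable def Tq : ℕ → ℤ[X]
  | 0 => 1
  | k + 1 => T (k + 1)

noncomputable def Pq : ℕ → ℤ[X]
  | 0 => 1
  | 1 => X
  | k + 2 => (X - C 2) * T (k + 1)

theorem Tq_monic : ∀ k, (Tq k).Monic ∧ (Tq k).natDegree = k
  | 0 => ⟨monic_one, natDegree_one⟩
  | k + 1 => T_monic k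

theorem Pq_monic : ∀ k, (Pq k).Monic ∧ (Pq k).natDegree = k
  | 0 => ⟨monic_one, natDegree_one⟩
  | 1 => ⟨monic_X, natDegree_X⟩
  | k + 2 => ⟨(monic_X_sub_C 2).mul (T_monic k).1, by
      rw [Pq, (monic_X_sub_C 2).natDegree_mul (T_monic k).1, (T_monic k).2, natDegree_X_sub_C]
      omega⟩

/-- `A` comes strictly before `A'`. -/
def Less (A A' : Matrix V V ℤ) : Prop :=
  ∃ t, 2 ≤ t ∧ trace (A ^ t) < trace (A' ^ t) ∧ ∀ h, 2 ≤ h → h < t → trace (A ^ h) = trace (A' ^ h)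

theorem step {ε : ℤ} (a : ℤ) (hε : ε * ε = 1) {B D : Matrix V V ℤ} {h : ℕ}
    (hφ : ∀ j ≤ h, trL B (Tq j) = trL D (Tq j)) (hψ : ∀ j < h, smL B (Pq j) = smL D (Pq j)) :
    trace (lay ε a B ^ (h + 1)) - trace (lay ε a D ^ (h + 1)) =
      ε ^ (h + 1) * (trL B (Tq (h + 1)) - trL D (Tq (h + 1))) +
        a * (h + 1) * ε ^ h * (smL B (Pq h) - smL D (Pq h)) :=
  lay_diff a hε B D (van_of Tq_monic _ fun j hj => sub_eq_zero.2 (hφ j (by omega)))
    (van_of Pq_monic _ fun j hj => sub_eq_zero.2 (hψ j hj)) (Tq_monic _).1 (Tq_monic _).2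
    (Pq_monic _).1 (Pq_monic _).2

theorem less_of {ε : ℤ} (a : ℤ) (hε : ε * ε = 1) {B D : Matrix V V ℤ} {t : ℕ} (ht : 1 ≤ t)
    (hφ : ∀ j ≤ t, trL B (Tq j) = trL D (Tq j)) (hψ : ∀ j < t, smL B (Pq j) = smL D (Pq j))
    (hp : 0 < ε ^ (t + 1) * (trL B (Tq (t + 1)) - trL D (Tq (t + 1))) +
      a * (t + 1) * ε ^ t * (smL B (Pq t) - smL D (Pq t))) : Less (lay ε a D) (lay ε a B) := by
  refine ⟨t + 1, by omega, by linarith [step a hε hφ hψ], fun h h2 h3 => ?_⟩
  obtain ⟨h, rfl⟩ : ∃ k, h = k + 1 := ⟨h - 1, by omega⟩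
  have := step a hε (h := h) (fun j hj => hφ j (by omega)) fun j hj => hψ j (by omega)
  rw [hφ _ (by omega), hψ _ (by omega)] at this
  linarith

theorem eq_of {ε : ℤ} (a : ℤ) (hε : ε * ε = 1) {B D : Matrix V V ℤ}
    (hφ : ∀ j, trL B (Tq j) = trL D (Tq j)) (hψ : ∀ j, smL B (Pq j) = smL D (Pq j)) (h : ℕ)
    (h2 : 2 ≤ h) : trace (lay ε a B ^ h) = trace (lay ε a D ^ h) := by
  obtain ⟨h, rfl⟩ : ∃ k, h = k + 1 := ⟨h - 1, by omega⟩
  have := step a hε (h := h) (fun j _ => hφ j) fun j _ => hψ j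
  rw [hφ, hψ] at this
  linarith

/-- Without a common layer only traces matter. -/
theorem less_zero {B D : Matrix V V ℤ} {t : ℕ} (ht : 1 ≤ t)
    (hφ : ∀ j ≤ t, trL B (Tq j) = trL D (Tq j)) (hp : trL D (Tq (t + 1)) < trL B (Tq (t + 1))) :
    Less (lay 1 0 D) (lay 1 0 B) := by
  have key : ∀ h ≤ t + 1, trace (B ^ h) - trace (D ^ h) = trL B (Tq h) - trL D (Tq h) := by
    intro h hh
    have := (van_of (φ := trL B - trL D) Tq_monic h fun j hj =>
      sub_eq_zero.2 (hφ j (by omega))).eq (monic_X_pow h) (Tq_monic h).1 (natDegree_X_pow h)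
      (Tq_monic h).2
    simpa [trL_apply] using this
  simp only [lay, one_smul, zero_smul, add_zero]
  refine ⟨t + 1, by omega, by linarith [key (t + 1) le_rfl], fun h _ h3 => ?_⟩
  have := key h (by omega)
  rw [hφ h (by omega)] at this
  linarith

end CW
end

-- merged part: Pool.Agent.Work.MP_64623b_co.Ray
section
/-! Graphs with degrees at most two: rays that bounce at virtual vertices. -/

open Polynomial Finset Equiv
open Matrix hiding inv_zpow' mul_inv_rev zpow_add_one zpow_sub_one zpow_add zpow_mul zpow_neg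

namespace CW

variable {V W : Type} [Fintype V] [DecidableEq V] [Fintype W] [DecidableEq W]

def kap (σ : Perm W) : Perm (W × Bool) :=
  Function.Involutive.toPerm (fun x => if x.2 then (σ x.1, false) else (σ⁻¹ x.1, true)) <| by
    rintro ⟨w, _ | _⟩ <;> simp

def tau (Z : Finset W) : Perm (W × Bool) :=
  Function.Involutive.toPerm (fun x => if x.1 ∈ Z then x else (x.1, !x.2)) <| by
    rintro ⟨w, d⟩
    by_cases h : w ∈ Z <;> simp [h]

def rho (σ : Perm W) (Z : Finset W) : Perm (W × Bool) := tau Z * kap σ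

variable {σ : Perm W} {Z : Finset W}

omit [Fintype W] [DecidableEq W] in
theorem kap_t (w : W) : kap σ (w, true) = (σ w, false) := rfl

omit [Fintype W] [DecidableEq W] in
theorem kap_f (w : W) : kap σ (w, false) = (σ⁻¹ w, true) := rfl

omit [Fintype W] in
theorem tau_z {w : W} (h : w ∈ Z) (d : Bool) : tau Z (w, d) = (w, d) := if_pos h

omit [Fintype W] in
theorem tau_r {w : W} (h : w ∉ Z) (d : Bool) : tau Z (w, d) = (w, !d) := if_neg h

omit [Fintype W] [DecidableEq W] in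
theorem kap_inv : (kap σ)⁻¹ = kap σ := rfl

omit [Fintype W] in
theorem tau_inv : (tau Z)⁻¹ = tau Z := rfl

omit [Fintype W] in
theorem tau_conj (m : ℤ) : tau Z * rho σ Z ^ m * (tau Z)⁻¹ = rho σ Z ^ (-m) := by
  rw [← conj_zpow, ← inv_zpow']
  congr 1
  rw [rho, mul_inv_rev, kap_inv]
  nth_rw 1 [← tau_inv]
  group

omit [Fintype W] in
theorem kap_conj (m : ℤ) : kap σ * rho σ Z ^ m * (kap σ)⁻¹ = rho σ Z ^ (-m) := by
  rw [← conj_zpow, ← inv_zpow']
  congr 1
  rw [rho, mul_inv_rev, tau_inv, mul_assoc, mul_inv_cancel_right, kap_inv]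

omit [Fintype W] in
theorem rho_neg (m : ℤ) (x : W × Bool) :
    (rho σ Z ^ (-m)) x = tau Z ((rho σ Z ^ m) (tau Z x)) := by
  rw [← tau_conj]
  rfl

/-- The number of fixed points. -/
def fx {Ω : Type} [Fintype Ω] [DecidableEq Ω] (π : Perm Ω) : ℤ := ∑ x, if π x = x then 1 else 0

theorem fx_conj {Ω : Type} [Fintype Ω] [DecidableEq Ω] (g π : Perm Ω) :
    fx (g * π * g⁻¹) = fx π := by
  rw [fx, ← Equiv.sum_comp g]
  simp [fx]

theorem fx_tau (k : ℕ) : fx (tau Z * rho σ Z ^ (k : ℤ)) = (1 + (-1) ^ k) * Z.card := by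
  have e : ∀ (j : ℤ) (π : Perm (W × Bool)), tau Z * (rho σ Z ^ j * π * rho σ Z ^ j) =
      rho σ Z ^ (-j) * (tau Z * π) * (rho σ Z ^ (-j))⁻¹ := fun j π => by
    nth_rw 1 [← tau_conj]
    group
  rcases k.even_or_odd' with ⟨j, rfl | rfl⟩
  · have : rho σ Z ^ ((2 * j : ℕ) : ℤ) = rho σ Z ^ (j : ℤ) * 1 * rho σ Z ^ (j : ℤ) := by
      push_cast
      group
    rw [this, e, fx_conj, mul_one, fx, Fintype.sum_prod_type]
    rw [sum_congr rfl (g := fun w => if w ∈ Z then 2 else 0) fun w _ => by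
      by_cases h : w ∈ Z <;> simp [h, tau_z, tau_r]]
    simp [mul_comm]
  · have : rho σ Z ^ ((2 * j + 1 : ℕ) : ℤ) = rho σ Z ^ (j : ℤ) * rho σ Z * rho σ Z ^ (j : ℤ) := by
      push_cast
      group
    have e' : tau Z * rho σ Z = kap σ := by
      rw [rho]
      nth_rw 1 [← tau_inv]
      group
    rw [this, e, fx_conj, e', fx, Fintype.sum_prod_type]
    simp only [Fintype.sum_bool, kap_t, kap_f]
    simp [pow_succ]

theorem fx_rho (m : ℤ) :
    fx (rho σ Z ^ m) = 2 * ∑ w, if (rho σ Z ^ m) (w, true) = (w, true) then 1 else 0 := by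
  rw [fx, Fintype.sum_prod_type]
  simp only [Fintype.sum_bool, sum_add_distrib]
  rw [two_mul, add_right_inj, ← Equiv.sum_comp σ]
  refine sum_congr rfl fun w _ => if_congr ?_ rfl rfl
  rw [← kap_t]
  nth_rw 1 [← neg_neg m, ← kap_conj]
  simp only [Perm.mul_apply, Perm.coe_inv, symm_apply_apply, EmbeddingLike.apply_eq_iff_eq]
  rw [_root_.zpow_neg, Perm.inv_eq_iff_eq, eq_comm]

/-- The real vertices are the image of `i`, neighbours are consecutive for `σ`. -/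
structure Rep (σ : Perm W) (Z : Finset W) (i : V → W) (B : Matrix V V ℤ) : Prop where
  inj : Function.Injective i
  rng : ∀ w, w ∉ Z ↔ ∃ v, i v = w
  adj : ∀ u v, B u v = (if σ (i u) = i v then 1 else 0) + if σ (i v) = i u then 1 else 0

def ex (i : V → W) (f : V → ℤ) (w : W) : ℤ := ∑ v, if i v = w then f v else 0

def hat (i : V → W) (f : V → ℤ) (x : W × Bool) : ℤ := (if x.2 then 1 else -1) * ex i f x.1

variable {i : V → W} {B : Matrix V V ℤ}

omit [Fintype W] in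
theorem Rep.ex_r (R : Rep σ Z i B) (f : V → ℤ) (u : V) : ex i f (i u) = f u := by
  simp [ex, R.inj.eq_iff]

omit [Fintype W] [DecidableEq V] in
theorem Rep.ex_z (R : Rep σ Z i B) (f : V → ℤ) {w : W} (h : w ∈ Z) : ex i f w = 0 :=
  sum_eq_zero fun v _ => if_neg fun e => (R.rng w).2 ⟨v, e⟩ h

omit [Fintype W] [DecidableEq V] in
theorem Rep.hat_tau (R : Rep σ Z i B) (f : V → ℤ) (x : W × Bool) :
    hat i f (tau Z x) = -hat i f x := by
  obtain ⟨w, d⟩ := x
  by_cases h : w ∈ Z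
  · simp [tau_z h, hat, R.ex_z f h]
  · cases d <;> simp [tau_r h, hat]

omit [Fintype W] [DecidableEq V] in
theorem Rep.mul (R : Rep σ Z i B) (f : V → ℤ) (u : V) :
    (B *ᵥ f) u = ex i f (σ (i u)) + ex i f (σ⁻¹ (i u)) := by
  simp only [mulVec, dotProduct, R.adj, add_mul, sum_add_distrib, ex, ite_mul, one_mul, zero_mul,
    Perm.eq_inv_iff_eq, eq_comm (a := σ (i u))]

omit [Fintype W] in
theorem Rep.hat_mul (R : Rep σ Z i B) (f : V → ℤ) (x : W × Bool) :
    hat i (B *ᵥ f) x = hat i f (rho σ Z x) + hat i f ((rho σ Z)⁻¹ x) := by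
  rw [rho, mul_inv_rev, kap_inv, tau_inv, Perm.mul_apply, Perm.mul_apply, R.hat_tau]
  obtain ⟨w, d⟩ := x
  by_cases h : w ∈ Z
  · simp [tau_z h, hat, R.ex_z _ h]
  · obtain ⟨u, rfl⟩ := (R.rng w).1 h
    cases d <;> simp [tau_r h, hat, R.ex_r, R.mul, kap_t, kap_f, add_comm]

omit [Fintype W] [DecidableEq V] in
theorem hat_sub (f g : V → ℤ) (x : W × Bool) : hat i (f - g) x = hat i f x - hat i g x := by
  simp only [hat, ex, ← mul_sub, ← sum_sub_distrib]
  congr 1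
  refine sum_congr rfl fun v _ => ?_
  split_ifs <;> simp

omit [Fintype W] in
theorem Rep.hat_T (R : Rep σ Z i B) (f : V → ℤ) : ∀ (k : ℕ) (x : W × Bool),
    hat i (aeval B (T k) *ᵥ f) x =
      hat i f ((rho σ Z ^ (k : ℤ)) x) + hat i f ((rho σ Z ^ (-k : ℤ)) x)
  | 0, x => by
    have : aeval B (T 0) *ᵥ f = f - (0 - f) := by
      rw [T, map_ofNat, ← one_add_one_eq_two, add_mulVec, one_mulVec]
      abel
    rw [this, hat_sub, hat_sub]
    simp [hat, ex]
  | 1, x => by simp [T, R.hat_mul]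
  | k + 2, x => by
    have e : ∀ (m : ℤ), (rho σ Z ^ m) (rho σ Z x) = (rho σ Z ^ (m + 1)) x ∧
        (rho σ Z ^ m) ((rho σ Z)⁻¹ x) = (rho σ Z ^ (m - 1)) x := fun m => by
      rw [zpow_add_one, zpow_sub_one]
      exact ⟨rfl, rfl⟩
    rw [T, map_sub, map_mul, aeval_X, sub_mulVec, ← mulVec_mulVec, hat_sub, R.hat_mul,
      R.hat_T f (k + 1), R.hat_T f (k + 1), R.hat_T f k, (e _).1, (e _).1, (e _).2, (e _).2]
    push_cast
    ring_nf

omit [DecidableEq V] in
theorem Rep.sum (R : Rep σ Z i B) {F : W → ℤ} (h : ∀ w ∈ Z, F w = 0) :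
    ∑ v, F (i v) = ∑ w, F w :=
  Fintype.sum_of_injective i R.inj _ _ (fun w hw => h w (by_contra fun h' => hw ((R.rng w).1 h')))
    fun _ => rfl

theorem Rep.trace_T (R : Rep σ Z i B) (k : ℕ) : trL B (T k) =
    2 * (∑ w, if (rho σ Z ^ (k : ℤ)) (w, true) = (w, true) then 1 else 0) -
      (1 + (-1) ^ k) * Z.card := by
  rw [← fx_rho, ← fx_tau (σ := σ), fx, fx, ← sum_sub_distrib, Fintype.sum_prod_type, ← R.sum,
    trL_apply, trace]
  · refine sum_congr rfl fun u _ => ?_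
    have h : i u ∉ Z := (R.rng _).2 ⟨u, rfl⟩
    have h1 := R.hat_T (Pi.single u 1) k (i u, true)
    rw [rho_neg, R.hat_tau, tau_r h, Bool.not_true] at h1
    have h2 : ∀ (y : W × Bool) (d : Bool), (if d then 1 else -1) * hat i (Pi.single u 1) y =
        (if y = (i u, d) then 1 else 0) - if tau Z y = (i u, d) then 1 else 0 := by
      rintro ⟨w, e⟩ d
      by_cases hw : w ∈ Z
      · simp [tau_z hw, hat, R.ex_z _ hw]
      · obtain ⟨v, rfl⟩ := (R.rng w).1 hw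
        by_cases e' : v = u <;> cases d <;> cases e <;>
          simp [tau_r hw, hat, R.ex_r, R.inj.eq_iff, e', tau_r h]
    rw [Fintype.sum_bool, Perm.mul_apply, Perm.mul_apply, ← h2, ← h2]
    generalize hat i (Pi.single u 1) ((rho σ Z ^ (k : ℤ)) (i u, true)) = a at h1 ⊢
    generalize hat i (Pi.single u 1) ((rho σ Z ^ (k : ℤ)) (i u, false)) = b at h1 ⊢
    simpa [hat, R.ex_r, mulVec_single_one] using h1
  · intro w hw
    refine sum_eq_zero fun d _ => sub_eq_zero.2 (if_congr ?_ rfl rfl)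
    rw [Perm.mul_apply, ← tau_inv, Perm.inv_eq_iff_eq, tau_z hw]

theorem Rep.sum_T (R : Rep σ Z i B) (k : ℕ) : smL B ((X - C 2) * T k) = -∑ z ∈ Z,
    ((hat i 1 ((rho σ Z ^ (k + 1 : ℤ)) (z, true)) - hat i 1 ((rho σ Z ^ (k - 1 : ℤ)) (z, true))) -
    (hat i 1 ((rho σ Z ^ (k + 1 : ℤ)) (z, false)) -
      hat i 1 ((rho σ Z ^ (k - 1 : ℤ)) (z, false)))) := by
  set g := aeval B (T k) *ᵥ 1 with hg
  have h0 : smL B ((X - C 2) * T k) = ∑ u, (B *ᵥ g) u - 2 * ∑ u, g u := by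
    rw [smL_apply, map_mul, map_sub, aeval_X, aeval_C, sub_mul, map_sub, hg, mulVec_mulVec,
      ← Algebra.smul_def, map_smul]
    simp [sm_apply, mulVec, dotProduct]
  have h1 : ∑ u, g u = ∑ w, ex i g w := by
    rw [← R.sum fun w hw => R.ex_z g hw]
    simp [R.ex_r]
  have h2 : ∑ u, (B *ᵥ g) u = ∑ w, if w ∈ Z then 0 else ex i g (σ w) + ex i g (σ⁻¹ w) := by
    rw [← R.sum fun w hw => if_pos hw]
    exact sum_congr rfl fun u _ => by rw [if_neg ((R.rng _).2 ⟨u, rfl⟩), R.mul]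
  have h3 : ∑ w, (ex i g (σ w) + ex i g (σ⁻¹ w)) = 2 * ∑ w, ex i g w := by
    rw [sum_add_distrib, Equiv.sum_comp σ (ex i g), Equiv.sum_comp σ⁻¹ (ex i g), two_mul]
  have h4 : ∀ z ∈ Z, ∀ d, hat i g (rho σ Z (z, d)) = hat i 1 ((rho σ Z ^ (k + 1 : ℤ)) (z, d)) -
      hat i 1 ((rho σ Z ^ (k - 1 : ℤ)) (z, d)) := fun z hz d => by
    rw [hg, R.hat_T, ← Perm.mul_apply, ← Perm.mul_apply, ← zpow_add_one, ← zpow_add_one,
      show (-k + 1 : ℤ) = -(k - 1) by ring, rho_neg, R.hat_tau, tau_z hz, ← sub_eq_add_neg]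
  rw [h0, h1, h2, ← h3, ← sum_sub_distrib, ← sum_neg_distrib, ← sum_subset (subset_univ Z)
    fun w _ hw => by rw [if_neg hw, sub_self]]
  refine sum_congr rfl fun z hz => ?_
  rw [← h4 z hz, ← h4 z hz, rho, Perm.mul_apply, Perm.mul_apply, R.hat_tau, R.hat_tau, if_pos hz]
  simp [hat, kap_t, kap_f]

/-- The sign of a ray in a block of length `t` after `m` steps. -/
def xt (t : ℕ) (m : ℤ) : ℤ :=
  if m % (2 * t) = 0 ∨ m % (2 * t) = t then 0 else if m % (2 * t) < t then 1 else -1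

section blk

variable {z : W} {t : ℕ}

omit [Fintype W] in
theorem ray_go {w : W} {k : ℕ} (h : ∀ j, 0 < j → j ≤ k → (σ ^ j) w ∉ Z) :
    (rho σ Z ^ k) (w, true) = ((σ ^ k) w, true) := by
  induction k with
  | zero => rfl
  | succ k ih =>
    rw [pow_succ', Perm.mul_apply, ih fun j h1 h2 => h j h1 (by omega), rho, Perm.mul_apply, kap_t,
      ← Perm.mul_apply, ← pow_succ', tau_r (h _ (by omega) le_rfl)]
    rfl

omit [Fintype W] in
theorem ray_end (hz : z ∈ Z) (h0 : 0 < t) (ht : (σ ^ t) z = z)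
    (h : ∀ j, 0 < j → j < t → (σ ^ j) z ∉ Z) : (rho σ Z ^ (t : ℤ)) (z, true) = (z, false) := by
  obtain ⟨k, rfl⟩ : ∃ k, t = k + 1 := ⟨t - 1, by omega⟩
  rw [zpow_natCast, pow_succ', Perm.mul_apply, ray_go fun j h1 h2 => h j h1 (by omega), rho,
    Perm.mul_apply, kap_t, ← Perm.mul_apply, ← pow_succ', ht, tau_z hz]

omit [Fintype W] in
theorem ray_mod (hz : z ∈ Z) (h0 : 0 < t) (ht : (σ ^ t) z = z)
    (h : ∀ j, 0 < j → j < t → (σ ^ j) z ∉ Z) (m : ℤ) :
    (rho σ Z ^ m) (z, true) = (rho σ Z ^ (m % (2 * t))) (z, true) := by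
  have h1 := ray_end hz h0 ht h
  have h2 : (rho σ Z ^ (2 * t : ℤ)) (z, true) = (z, true) := by
    have := rho_neg (σ := σ) (Z := Z) t (z, true)
    rw [tau_z hz, h1, tau_z hz, _root_.zpow_neg, Perm.inv_eq_iff_eq] at this
    rw [two_mul, zpow_add, Perm.mul_apply, h1, ← this]
  conv_lhs => rw [← Int.emod_add_mul_ediv m (2 * t), zpow_add, Perm.mul_apply, zpow_mul,
    Perm.zpow_apply_eq_self_of_apply_eq_self h2]

omit [Fintype W] in
theorem Rep.ray_hat (R : Rep σ Z i B) (hz : z ∈ Z) (h0 : 0 < t) (ht : (σ ^ t) z = z)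
    (h : ∀ j, 0 < j → j < t → (σ ^ j) z ∉ Z) (m : ℤ) :
    hat i 1 ((rho σ Z ^ m) (z, true)) = xt t m := by
  have h1 : ∀ j : ℤ, 0 < j → j < t → hat i 1 ((rho σ Z ^ j) (z, true)) = 1 := fun j h1 h2 => by
    lift j to ℕ using h1.le
    have hj : j < t := by exact_mod_cast h2
    obtain ⟨u, hu⟩ := (R.rng _).1 (h j (by exact_mod_cast h1) hj)
    rw [zpow_natCast, ray_go fun l a b => h l a (by omega), ← hu]
    simp [hat, R.ex_r]
  have a := Int.emod_nonneg m (show (2 * t : ℤ) ≠ 0 by omega)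
  have b := Int.emod_lt_of_pos m (show (0 : ℤ) < 2 * t by omega)
  rw [xt]
  split_ifs with c d
  · rw [ray_mod hz h0 ht h]
    rcases c with c | c
    · simp [c, hat, R.ex_z _ hz]
    · simp only [c, ray_end hz h0 ht h, hat, R.ex_z _ hz, mul_zero]
  · rw [ray_mod hz h0 ht h]
    exact h1 _ (by omega) d
  · have e : m % (2 * t) = -(2 * t - m % (2 * t)) % (2 * t) := by
      rw [neg_sub, Int.sub_emod_right, Int.emod_emod]
    rw [ray_mod hz h0 ht h, e, ← ray_mod hz h0 ht h, rho_neg, R.hat_tau, tau_z hz,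
      h1 _ (by omega) (by omega)]

omit [Fintype W] in
theorem Rep.ray_fix (R : Rep σ Z i B) (hz : z ∈ Z) (ht : (σ ^ t) z = z)
    (h : ∀ j, 0 < j → j < t → (σ ^ j) z ∉ Z) {j : ℕ} (hj : j < t) (k : ℕ) :
    (rho σ Z ^ (k : ℤ)) ((σ ^ j) z, true) = ((σ ^ j) z, true) ↔ 2 * t ∣ k := by
  have h0 : 0 < t := by omega
  rw [← ray_go fun l a b => h l a (by omega), ← Perm.mul_apply, zpow_natCast, pow_mul_comm,
    Perm.mul_apply, EmbeddingLike.apply_eq_iff_eq, ← zpow_natCast, ← Int.natCast_dvd_natCast,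
    Int.dvd_iff_emod_eq_zero]
  push_cast
  refine ⟨fun e => ?_, fun e => by rw [ray_mod hz h0 ht h, e]; rfl⟩
  have h1 := R.ray_hat hz h0 ht h k
  rw [e, xt] at h1
  rw [ray_mod hz h0 ht h] at e
  split_ifs at h1 with c d
  · refine c.resolve_right fun c => ?_
    rw [c, ray_end hz h0 ht h] at e
    simp at e
  · simp [hat, R.ex_z _ hz] at h1
  · simp [hat, R.ex_z _ hz] at h1

end blk

end CW
end

-- merged part: Pool.Agent.Work.MP_64623b_co.Blk
section
/-! Closed walks and walks in a disjoint union of paths and cycles. -/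

open Polynomial Finset Equiv

namespace CW

section rot

variable {ι : Type} {L : ι → ℕ}

theorem sig_ext {w w' : Σ x, Fin (L x)} : w = w' ↔ w.1 = w'.1 ∧ (w.2 : ℕ) = w'.2 := by
  obtain ⟨x, j⟩ := w
  obtain ⟨y, k⟩ := w'
  refine ⟨fun h => by cases h; exact ⟨rfl, rfl⟩, ?_⟩
  rintro ⟨rfl, h⟩
  exact congrArg _ (Fin.ext h)

def rot (L : ι → ℕ) : Perm (Σ x, Fin (L x)) := Equiv.sigmaCongrRight fun x => finRotate (L x)

theorem rot_pow (k : ℕ) (w : Σ x, Fin (L x)) :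
    ((rot L ^ k) w).1 = w.1 ∧ (((rot L ^ k) w).2 : ℕ) = (w.2 + k) % L w.1 := by
  induction k generalizing w with
  | zero => exact ⟨rfl, (Nat.mod_eq_of_lt w.2.2).symm⟩
  | succ k ih =>
    rw [pow_succ, Perm.mul_apply]
    obtain ⟨x, j⟩ := w
    refine ⟨(ih _).1, (ih _).2.trans ?_⟩
    show ((finRotate (L x) j : ℕ) + k) % L x = (j + (k + 1)) % L x
    rw [finRotate_apply, Fin.val_add, Fin.val_one', Nat.add_mod_mod, Nat.mod_add_mod]
    congr 1
    omega

end rot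

open Classical in
/-- The adjacency matrix. -/
noncomputable def ind {V : Type} (B : V → V → Prop) : Matrix V V ℤ :=
  Matrix.of fun u v => if B u v then 1 else 0

def Gp (k s : ℕ) : ℤ := (if 2 * (s + 1) ∣ k then 2 * (s + 1 : ℤ) else 0) - (1 + (-1) ^ k)

def Gc (k l : ℕ) : ℤ := if l ∣ k then 2 * (l : ℤ) else 0

def Fw (k s : ℕ) : ℤ := -((xt (s + 1) (k + 1) - xt (s + 1) (k - 1)) -
  (xt (s + 1) (k + 1 + (s + 1 : ℕ)) - xt (s + 1) (k - 1 + (s + 1 : ℕ))))

/-- The data that determine all numbers of closed walks. -/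
structure Dat {n c b : ℕ} (M : Matrix (Fin n) (Fin n) ℤ) (P : Fin c → ℕ) (Y : Fin b → ℕ) : Prop where
  tr : ∀ k, trL M (T k) = ∑ i, Gp k (P i) + ∑ j, Gc k (Y j)
  sm : ∀ k, smL M ((X - C 2) * T k) = ∑ i, Fw k (P i)
  cd : ∑ i, P i + ∑ j, Y j = n
  p1 : ∀ i, 1 ≤ P i
  y3 : ∀ j, 3 ≤ Y j

theorem Shape.dat {n c b : ℕ} {B : Fin n → Fin n → Prop} {P : Fin c → ℕ} {Y : Fin b → ℕ}
    (h : Shape B P Y) : Dat (ind B) P Y := by
  obtain ⟨p1, y3, blk, pos, hb, hB⟩ := h
  let L : Fin c ⊕ Fin b → ℕ := Sum.elim (fun i => P i + 1) Y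
  let δ : Fin c ⊕ Fin b → ℕ := Sum.elim (fun _ => 1) fun _ => 0
  have hL : ∀ x, L x = Sum.elim P Y x + δ x := by rintro (x | x) <;> rfl
  have hp : ∀ v, pos v < Sum.elim P Y (blk v) := fun v => hb.mapsTo (Set.mem_univ v)
  let i : Fin n → Σ x, Fin (L x) := fun v => ⟨blk v, pos v + δ (blk v), by
    rw [hL]; exact Nat.add_lt_add_right (hp v) _⟩
  let z : Fin c ↪ Σ x, Fin (L x) := ⟨fun a => ⟨.inl a, 0, Nat.succ_pos _⟩, fun a a' e =>
    Sum.inl_injective (sig_ext.1 e).1⟩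
  have hZ : ∀ w : Σ x, Fin (L x), w ∈ univ.map z ↔ (w.2 : ℕ) < δ w.1 := by
    rintro ⟨x | x, j⟩
    · simp only [mem_map, mem_univ, true_and, sig_ext, δ, z]
      simp [eq_comm]
    · simp [sig_ext, δ, z]
  have r1 : ∀ u v, rot L (i u) = i v ↔ blk u = blk v ∧ (pos u + 1 = pos v ∨
      ∃ j, blk u = .inr j ∧ pos u + 1 = Y j ∧ pos v = 0) := fun u v => by
    have := rot_pow 1 (i u)
    rw [pow_one] at this
    rw [sig_ext, this.2, this.1]
    refine and_congr_right fun e => ?_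
    replace e : blk u = blk v := e
    have h1 := hp u
    have h2 := hp v
    show (pos u + δ (blk u) + 1) % L (blk u) = pos v + δ (blk v) ↔ _
    rw [← e] at h2 ⊢
    generalize blk u = x at h1 h2 ⊢
    rcases x with x | x
    · simp only [L, δ, Sum.elim_inl, reduceCtorEq, false_and, exists_false, or_false] at h1 h2 ⊢
      rcases (show pos u + 1 + 1 < P x + 1 ∨ pos u + 1 + 1 = P x + 1 by omega) with h | h
      · rw [Nat.mod_eq_of_lt h]; omega
      · rw [h, Nat.mod_self]; omega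
    · simp only [L, δ, Sum.elim_inr, Sum.inr.injEq, exists_eq_left', add_zero] at h1 h2 ⊢
      rcases (show pos u + 1 < Y x ∨ pos u + 1 = Y x by omega) with h | h
      · rw [Nat.mod_eq_of_lt h]; omega
      · rw [h, Nat.mod_self]; omega
  have R : Rep (rot L) (univ.map z) i (ind B) := by
    refine ⟨fun u v e => ?_, fun w => ?_, fun u v => ?_⟩
    · obtain ⟨e1, e2⟩ := sig_ext.1 e
      replace e1 : blk u = blk v := e1
      replace e2 : pos u + δ (blk u) = pos v + δ (blk v) := e2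
      rw [e1] at e2
      exact hb.injOn (Set.mem_univ u) (Set.mem_univ v) (Prod.ext e1 (Nat.add_right_cancel e2))
    · rw [hZ, not_lt]
      refine ⟨fun h => ?_, ?_⟩
      · have h1 := w.2.2
        obtain ⟨v, -, e⟩ := hb.surjOn (show (w.1, w.2 - δ w.1) ∈ {p : _ × ℕ | p.2 < Sum.elim P Y p.1}
          by have := hL w.1; show _ < Sum.elim P Y w.1; omega)
        obtain ⟨e1, e2⟩ := Prod.ext_iff.1 e
        refine ⟨v, sig_ext.2 ⟨e1, ?_⟩⟩
        replace e1 : blk v = w.1 := e1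
        replace e2 : pos v = w.2 - δ w.1 := e2
        show pos v + δ (blk v) = _
        rw [e1]; omega
      · rintro ⟨v, rfl⟩
        exact Nat.le_add_left _ _
    · rw [ind, Matrix.of_apply]
      simp only [hB, r1]
      by_cases e : blk u = blk v
      · rw [← e]
        generalize blk u = x
        rcases x with x | x
        · simp only [reduceCtorEq, false_and, exists_false, or_false, true_and]
          split_ifs <;> omega
        · have := y3 x
          simp only [Sum.inr.injEq, exists_eq_left', true_and]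
          split_ifs <;> omega
      · simp [e, Ne.symm e]
  have hz : ∀ a, z a ∈ univ.map z := fun a => mem_map_of_mem _ (mem_univ a)
  have ht : ∀ a, (rot L ^ (P a + 1)) (z a) = z a := fun a =>
    sig_ext.2 ⟨(rot_pow _ _).1, (rot_pow _ _).2.trans (by simp [z, L])⟩
  have hm : ∀ a j, 0 < j → j < P a + 1 → (rot L ^ j) (z a) ∉ univ.map z := fun a j h1 h2 => by
    rw [hZ, (rot_pow _ _).2, (rot_pow _ _).1]
    show ¬ (0 + j) % (P a + 1) < 1
    rw [zero_add, Nat.mod_eq_of_lt h2]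
    omega
  refine ⟨fun k => ?_, fun k => ?_, ?_, p1, y3⟩
  · rw [R.trace_T, Fintype.sum_sigma, Fintype.sum_sum_type, mul_add, mul_sum, mul_sum, card_map,
      add_sub_right_comm]
    congr 1
    · simp only [Gp, sum_sub_distrib, sum_const, nsmul_eq_mul, mul_comm (1 + (-1 : ℤ) ^ k)]
      congr 1
      refine sum_congr rfl fun a _ => ?_
      rw [sum_congr rfl (g := fun _ => if 2 * (P a + 1) ∣ k then 1 else 0) fun j _ => ?_]
      · rw [sum_const, card_univ, Fintype.card_fin]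
        split_ifs <;> simp [L]
      · have e : (rot L ^ (j : ℕ)) (z a) = ⟨.inl a, j⟩ := sig_ext.2 ⟨(rot_pow _ _).1,
          (rot_pow _ _).2.trans (by simpa [z] using Nat.mod_eq_of_lt j.2)⟩
        rw [← e]
        exact if_congr (R.ray_fix (hz a) (ht a) (hm a) j.2 k) rfl rfl
    · refine sum_congr rfl fun a _ => ?_
      rw [sum_congr rfl (g := fun _ => if Y a ∣ k then 1 else 0) fun j _ => ?_]
      · rw [Gc, sum_const, card_univ, Fintype.card_fin]
        split_ifs <;> simp [L]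
      · rw [zpow_natCast, ray_go fun l _ _ => by rw [hZ, (rot_pow _ _).2, (rot_pow _ _).1]; simp [δ]]
        refine if_congr ?_ rfl rfl
        rw [Prod.mk.injEq, sig_ext, (rot_pow _ _).2, (rot_pow _ _).1]
        simp only [true_and, and_true]
        show (j + k) % Y a = j ↔ _
        nth_rw 2 [← Nat.mod_eq_of_lt j.2]
        exact (Nat.ModEq.comm.trans (Nat.modEq_iff_dvd' (Nat.le_add_right _ _))).trans (by simp)
  · rw [R.sum_T, sum_map, ← sum_neg_distrib]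
    refine sum_congr rfl fun a _ => ?_
    simp only [← ray_end (hz a) (Nat.succ_pos _) (ht a) (hm a), ← Perm.mul_apply, ← zpow_add,
      R.ray_hat (hz a) (Nat.succ_pos _) (ht a) (hm a), Fw]
  · have h1 := R.sum (F := fun w => 1 - if w ∈ univ.map z then 1 else 0) fun w hw => by
      rw [if_pos hw, sub_self]
    rw [sum_congr rfl (g := fun _ => 1) fun v _ => by rw [if_neg ((R.rng _).2 ⟨v, rfl⟩), sub_zero],
      sum_sub_distrib, sum_boole, filter_mem_eq_inter, univ_inter, card_map, Fintype.sum_sigma,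
      Fintype.sum_sum_type] at h1
    simp only [sum_const, card_univ, Fintype.card_fin, nsmul_eq_mul, mul_one] at h1
    simp only [L, Sum.elim_inl, Sum.elim_inr, Nat.cast_add, Nat.cast_one, sum_add_distrib,
      sum_const, card_univ, Fintype.card_fin, nsmul_eq_mul, mul_one] at h1
    zify
    linarith

end CW
end

-- merged part: Pool.Agent.Work.MP_64623b_co.Cnt
section
/-! Counting blocks of given sizes. -/

open Polynomial Finset Matrix

namespace CW

variable {c : ℕ}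

/-- The number of blocks of size `s`. -/
def cnt (P : Fin c → ℕ) (s : ℕ) : ℤ := ∑ i, if P i = s then 1 else 0

theorem sum_cnt (P : Fin c → ℕ) {F : ℕ → ℤ} {N : ℕ} (h : ∀ s, N ≤ s → F s = 0) :
    ∑ i, F (P i) = ∑ s ∈ range N, cnt P s * F s := by
  simp only [cnt, sum_mul, ite_mul, one_mul, zero_mul]
  rw [sum_comm]
  refine sum_congr rfl fun i _ => ?_
  rw [sum_ite_eq]
  split_ifs with hi
  · rfl
  · exact h _ (by simpa using hi)

theorem sum_first {P Q : Fin c → ℕ} {F : ℕ → ℤ} {a : ℤ} {s₀ : ℕ} (hF : ∀ s, s₀ < s → F s = a)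
    (h : ∀ s < s₀, cnt P s = cnt Q s) :
    ∑ i, F (P i) - ∑ i, F (Q i) = (F s₀ - a) * (cnt P s₀ - cnt Q s₀) := by
  have h1 := sum_cnt P (F := fun s => F s - a) (N := s₀ + 1) fun s hs => sub_eq_zero.2 (hF s hs)
  have h2 := sum_cnt Q (F := fun s => F s - a) (N := s₀ + 1) fun s hs => sub_eq_zero.2 (hF s hs)
  rw [sum_range_succ, sum_sub_distrib] at h1 h2
  have h3 : ∑ s ∈ range s₀, cnt P s * (F s - a) = ∑ s ∈ range s₀, cnt Q s * (F s - a) :=
    sum_congr rfl fun s hs => by rw [h s (mem_range.1 hs)]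
  linear_combination h1 - h2 + h3

theorem sum_same {P Q : Fin c → ℕ} (h : ∀ s, cnt P s = cnt Q s) (F : ℕ → ℤ) :
    ∑ i, F (P i) = ∑ i, F (Q i) := by
  have h1 := sum_first (P := P) (Q := Q) (s₀ := ∑ i, P i + ∑ i, Q i) (a := 0)
    (F := fun s => if s ≤ ∑ i, P i + ∑ i, Q i then F s else 0) (fun s hs => if_neg (by omega))
    fun s _ => h s
  rw [h, sub_self, mul_zero, sub_eq_zero, sum_congr rfl fun i _ => if_pos ?_,
    sum_congr rfl fun i _ => if_pos ?_] at h1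
  · exact h1
  · exact (single_le_sum (fun _ _ => Nat.zero_le _) (mem_univ i)).trans (Nat.le_add_left _ _)
  · exact (single_le_sum (fun _ _ => Nat.zero_le _) (mem_univ i)).trans (Nat.le_add_right _ _)

theorem cnt_pos {P : Fin c → ℕ} {s : ℕ} : 0 < cnt P s ↔ ∃ i, P i = s := by
  simp [cnt, card_pos, filter_nonempty_iff]

theorem cnt_nonneg (P : Fin c → ℕ) (s : ℕ) : 0 ≤ cnt P s := by simp [cnt]

theorem first_diff {P Q : Fin c → ℕ} (hs : ∑ i, P i ≤ ∑ i, Q i) (hQ : ∀ i j, Q i ≤ Q j + 1) :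
    (∀ s, cnt P s = cnt Q s) ∨ ∃ s₀, (∀ s < s₀, cnt P s = cnt Q s) ∧ cnt Q s₀ < cnt P s₀ := by
  classical
  refine or_iff_not_imp_left.2 fun h => ?_
  have h := not_forall.1 h
  have h1 : ∀ s < Nat.find h, cnt P s = cnt Q s := fun s hs => not_not.1 (Nat.find_min h hs)
  refine ⟨_, h1, lt_of_le_of_ne (not_lt.1 fun h2 => ?_) (Ne.symm (Nat.find_spec h))⟩
  obtain ⟨j, hj⟩ := cnt_pos.1 ((cnt_nonneg P _).trans_lt h2)
  have h3 := sum_first (F := fun s => (min s (Nat.find h + 1) : ℕ)) (a := (Nat.find h + 1 : ℕ))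
    (fun s hs => by rw [min_eq_right hs]) h1
  have h6 : ∑ i, ((min (Q i) (Nat.find h + 1) : ℕ) : ℤ) = ∑ i, (Q i : ℤ) :=
    sum_congr rfl fun i _ => by rw [min_eq_left (hj ▸ hQ i j)]
  rw [h6, min_eq_left (Nat.le_succ _)] at h3
  have h4 : ∑ i, ((min (P i) (Nat.find h + 1) : ℕ) : ℤ) ≤ ∑ i, (P i : ℤ) :=
    sum_le_sum fun i _ => by exact_mod_cast min_le_left _ _
  have h5 : ∑ i, (P i : ℤ) ≤ ∑ i, (Q i : ℤ) := by exact_mod_cast hs
  push_cast at h3 h4
  linarith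

theorem Gp_lt {k s : ℕ} (h0 : 0 < k) (h : k < 2 * (s + 1)) : Gp k s = -(1 + (-1) ^ k) := by
  rw [Gp, if_neg (Nat.not_dvd_of_pos_of_lt h0 h), zero_sub]

theorem Gc_nonneg (k l : ℕ) : 0 ≤ Gc k l := by
  rw [Gc]; split_ifs <;> omega

theorem Gc_lt {k l : ℕ} (h0 : 0 < k) (h : k < l) : Gc k l = 0 :=
  if_neg (Nat.not_dvd_of_pos_of_lt h0 h)

theorem xt_val {t : ℕ} {m : ℤ} (h0 : 0 ≤ m) (h : m < 2 * t) :
    xt t m = if m = 0 ∨ m = t then 0 else if m < t then 1 else -1 := by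
  rw [xt, Int.emod_eq_of_lt h0 h]

theorem Fw_le {k s : ℕ} (h0 : 0 < k) (h : k ≤ s) :
    Fw k s = (if k = 1 then -2 else 0) + if k = s then 2 else 0 := by
  rw [Fw, xt_val (m := k + 1) (by omega) (by push_cast; omega),
    xt_val (m := k - 1) (by omega) (by push_cast; omega),
    xt_val (m := k - 1 + _) (by omega) (by push_cast; omega)]
  rcases h.lt_or_eq with h | rfl
  · rw [xt_val (by omega) (by push_cast; omega)]
    push_cast
    split_ifs <;> omega
  · rw [xt, show ((k : ℤ) + 1 + (k + 1 : ℕ)) = 2 * (k + 1 : ℕ) by push_cast; ring, Int.emod_self,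
      if_pos (Or.inl rfl), if_pos rfl]
    push_cast
    split_ifs <;> omega

variable {V : Type} [Fintype V] [DecidableEq V] {B D : Matrix V V ℤ}

theorem less_mono {a : ℤ} (ha : 0 ≤ a) (N : ℕ) (hu : ∀ j ≤ N + 1, trL D (Tq j) ≤ trL B (Tq j))
    (hv : ∀ j ≤ N, a ≠ 0 → smL D (Pq j) ≤ smL B (Pq j)) (h1 : trL B (Tq 1) = trL D (Tq 1))
    (h : trL D (Tq (N + 1)) < trL B (Tq (N + 1)) ∨ 0 < a ∧ smL D (Pq N) < smL B (Pq N)) :
    Less (lay 1 a D) (lay 1 a B) := by
  classical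
  by_cases h0 : a = 0
  · have e : ∃ h, trL B (Tq (h + 1)) ≠ trL D (Tq (h + 1)) := ⟨N, (h.resolve_right (by omega)).ne'⟩
    have hN : Nat.find e ≤ N := Nat.find_min' e (h.resolve_right (by omega)).ne'
    subst h0
    refine less_zero (t := Nat.find e) (Nat.pos_of_ne_zero fun z => (z ▸ Nat.find_spec e) h1)
      (fun j hj => ?_) (lt_of_le_of_ne (hu _ (by omega)) (Nat.find_spec e).symm)
    cases j with
    | zero => simp [Tq, trL_apply]
    | succ j => exact not_not.1 (Nat.find_min e hj)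
  have e' : ¬ (trL B (Tq (N + 1)) = trL D (Tq (N + 1)) ∧ smL B (Pq N) = smL D (Pq N)) := by omega
  have e : ∃ h, ¬ (trL B (Tq (h + 1)) = trL D (Tq (h + 1)) ∧ smL B (Pq h) = smL D (Pq h)) := ⟨N, e'⟩
  have hN : Nat.find e ≤ N := Nat.find_min' e e'
  refine less_of a (one_mul 1) (t := Nat.find e) (Nat.pos_of_ne_zero fun z =>
    (z ▸ Nat.find_spec e) ⟨h1, by simp [Pq, smL_apply]⟩) (fun j hj => ?_)
    (fun j hj => (not_not.1 (Nat.find_min e hj)).2) ?_
  · cases j with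
    | zero => simp [Tq, trL_apply]
    | succ j => exact (not_not.1 (Nat.find_min e hj)).1
  · have a1 := hu (Nat.find e + 1) (by omega)
    have a2 := hv _ hN h0
    have a3 := Nat.find_spec e
    have a4 : 0 < a * ((Nat.find e : ℤ) + 1) := by positivity
    rw [one_pow, one_pow, one_mul, mul_one]
    rcases a2.lt_or_eq with a2 | a2
    · nlinarith
    · rw [a2, sub_self, mul_zero, add_zero]
      omega

/-- Closed walks of length four below a full layer. -/
theorem four (a : ℤ) (hφ : ∀ j ≤ 2, trL B (Tq j) = trL D (Tq j))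
    (hψ : ∀ j ≤ 1, smL B (Pq j) = smL D (Pq j)) :
    trace (lay (-1) a B ^ 4) - trace (lay (-1) a D ^ 4) = (trL B (Tq 4) - trL D (Tq 4)) +
      4 * a * (trL B (Tq 3) - trL D (Tq 3)) - 4 * a * (smL B (Pq 3) - smL D (Pq 3)) +
      (4 * a ^ 2 * Fintype.card V - 12 * a ^ 2 - 8 * a) * (smL B (Pq 2) - smL D (Pq 2)) := by
  have key : ∀ M : Matrix V V ℤ, trace ((M + a • J V) ^ 4) = trace (M ^ 4) + 4 * a * sm (M ^ 3) +
      a ^ 2 * (4 * sm (M ^ 0) * sm (M ^ 2) + 2 * sm (M ^ 1) ^ 2) +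
      4 * a ^ 3 * sm (M ^ 0) ^ 2 * sm (M ^ 1) + a ^ 4 * sm (M ^ 0) ^ 4 := fun M => by
    have := rec_y M a 3 0
    rw [pow_zero, one_mul] at this
    rw [this]
    simp only [rec_y M a 2, rec_y M a 1, rec_y M a 0, rec_x M a 2, rec_x M a 1, rec_x M a 0,
      ← pow_zero M, pow_zero (M + _), one_mul, mul_one]
    simp only [pow_zero, one_mul, mul_one, rec_x M a 0, zero_add, Nat.reduceAdd]
    ring
  have e4 : (X - C (-1 * a)) ^ 4 = Tq 4 + (4 * a) • Tq 3 + (6 * a ^ 2 + 4) • Tq 2 +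
      (4 * a ^ 3 + 12 * a) • Tq 1 + (a ^ 4 + 12 * a ^ 2 + 6) • Tq 0 := by
    simp [Tq, T]; ring
  have e3 : (X - C (-1 * a)) ^ 3 = Pq 3 + (3 * a + 2) • Pq 2 + (3 * a ^ 2 + 6 * a + 6) • Pq 1 +
      (a ^ 3 - 4) • Pq 0 := by
    simp [Pq, T]; ring
  have e2 : (X - C (-1 * a)) ^ 2 = Pq 2 + (2 * a + 2) • Pq 1 + (a ^ 2) • Pq 0 := by
    simp [Pq, T]; ring
  have e1 : (X - C (-1 * a)) ^ 1 = Pq 1 + a • Pq 0 := by
    simp [Pq]
  have e0 : sm (1 : Matrix V V ℤ) = Fintype.card V := by simp [sm_apply, one_apply]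
  rw [lay_eq, lay_eq, key, key, pow_zero, pow_zero, e0]
  simp only [lay_pow a (show (-1 : ℤ) * -1 = 1 by norm_num), trace_smul, map_smul, ← trL_apply,
    ← smL_apply]
  simp only [e4, e3, e2, e1, map_add, map_smul, smul_eq_mul, hφ 0 (by omega), hφ 1 (by omega),
    hφ 2 le_rfl, hψ 0 (by omega), hψ 1 le_rfl]
  ring

end CW
end

-- merged part: Pool.Agent.Work.MP_64623b_co.Loc
section
/-! Short closed walks and degrees. -/

open Polynomial Finset Matrix

namespace CW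

variable {V : Type} [Fintype V] [DecidableEq V] {B : V → V → Prop}

/-- A simple graph. -/
structure Sim (B : V → V → Prop) : Prop where
  symm : ∀ x y, B x y → B y x
  irr : ∀ x, ¬ B x x

noncomputable def dg (B : V → V → Prop) (v : V) : ℤ := ∑ u, ind B v u

omit [Fintype V] [DecidableEq V] in
theorem ind_pos {x y : V} (h : B x y) : ind B x y = 1 := if_pos h

omit [Fintype V] [DecidableEq V] in
theorem ind_neg {x y : V} (h : ¬ B x y) : ind B x y = 0 := if_neg h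

omit [Fintype V] [DecidableEq V] in
theorem ind_nonneg (x y : V) : 0 ≤ ind B x y := by
  by_cases h : B x y <;> simp [ind_pos, ind_neg, h]

omit [Fintype V] [DecidableEq V] in
theorem ind_sq (x y : V) : ind B x y * ind B x y = ind B x y := by
  by_cases h : B x y <;> simp [ind_pos, ind_neg, h]

omit [Fintype V] [DecidableEq V] in
theorem Sim.ind_symm (h : Sim B) (x y : V) : ind B x y = ind B y x := by
  by_cases e : B x y
  · rw [ind_pos e, ind_pos (h.symm _ _ e)]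
  · rw [ind_neg e, ind_neg fun e' => e (h.symm _ _ e')]

omit [DecidableEq V] in
theorem Sim.sq_diag (h : Sim B) (x : V) : (ind B * ind B) x x = dg B x := by
  rw [mul_apply]
  exact sum_congr rfl fun y _ => by rw [h.ind_symm y x, ind_sq]

omit [DecidableEq V] in
theorem Sim.sm_sq (h : Sim B) : sm (ind B * ind B) = ∑ v, dg B v ^ 2 := by
  simp only [sm_apply, mul_apply, dg, sq, sum_mul_sum]
  rw [sum_congr rfl fun x _ => sum_comm, sum_comm]
  exact sum_congr rfl fun y _ => sum_congr rfl fun x _ => sum_congr rfl fun z _ => by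
    rw [h.ind_symm x y]

theorem Sim.t1 (h : Sim B) : trL (ind B) (Tq 1) = 0 := by
  simp [Tq, T, trL_apply, trace, ind_neg (h.irr _)]

theorem Sim.t2 (h : Sim B) : trL (ind B) (Tq 2) = ∑ v, dg B v - 2 * Fintype.card V := by
  simp [Tq, T, trL_apply, trace, h.sq_diag, map_ofNat, ofNat_apply, mul_comm]

theorem Sim.t3 (h : Sim B) :
    trL (ind B) (Tq 3) = ∑ x, ∑ y, ∑ z, ind B x y * ind B x z * ind B y z := by
  have e : Tq 3 = X * X * X - (3 : ℤ) • Tq 1 := by simp [Tq, T]; ring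
  rw [e, map_sub, map_smul, h.t1, smul_zero, sub_zero, trL_apply]
  simp only [map_mul, aeval_X, trace, Matrix.diag, mul_apply, sum_mul]
  refine sum_congr rfl fun x _ => sum_comm.trans <| sum_congr rfl fun y _ =>
    sum_congr rfl fun z _ => ?_
  rw [h.ind_symm z x]
  ring

theorem Sim.t4 (h : Sim B) :
    2 * ∑ v, dg B v ^ 2 - 5 * ∑ v, dg B v + 2 * Fintype.card V ≤ trL (ind B) (Tq 4) := by
  have e : Tq 4 = X * X * (X * X) - (4 : ℤ) • Tq 2 - (6 : ℤ) • Tq 0 := by simp [Tq, T]; ring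
  have e0 : trL (ind B) (Tq 0) = Fintype.card V := by simp [Tq, trL_apply]
  have e1 : ∀ x y, (ind B * ind B) y x = (ind B * ind B) x y := fun x y => by
    rw [mul_apply, mul_apply]
    exact sum_congr rfl fun z _ => by rw [h.ind_symm y z, h.ind_symm z x, mul_comm]
  have e2 : sm (ind B * ind B) + ∑ v, (dg B v ^ 2 - dg B v) ≤
      trace (ind B * ind B * (ind B * ind B)) := by
    rw [sm_apply, ← sum_add_distrib]
    refine sum_le_sum fun x _ => ?_
    rw [Matrix.diag, mul_apply, ← le_sub_iff_add_le', ← sum_sub_distrib]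
    refine le_trans ?_ (single_le_sum (fun y _ => ?_) (mem_univ x))
    · rw [h.sq_diag, sq]
    · rw [e1 x y, ← sq]
      exact sub_nonneg.2 (Int.le_self_sq _)
  rw [h.sm_sq, sum_sub_distrib] at e2
  rw [e, map_sub, map_sub, map_smul, map_smul, h.t2, e0, trL_apply]
  simp only [map_mul, aeval_X, smul_eq_mul]
  linarith

theorem s1 : smL (ind B) (Pq 1) = ∑ v, dg B v := by simp [Pq, smL_apply, sm_apply, dg]

theorem Sim.s2 (h : Sim B) : smL (ind B) (Pq 2) = ∑ v, dg B v ^ 2 - 2 * ∑ v, dg B v := by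
  have e : Pq 2 = X * X - (2 : ℤ) • Pq 1 := by simp [Pq, T]; ring
  rw [e, map_sub, map_smul, s1, smL_apply, map_mul, aeval_X, h.sm_sq, smul_eq_mul]

theorem Sim.t3_nonneg (h : Sim B) : 0 ≤ trL (ind B) (Tq 3) := by
  rw [h.t3]
  exact sum_nonneg fun _ _ => sum_nonneg fun _ _ => sum_nonneg fun _ _ =>
    mul_nonneg (mul_nonneg (ind_nonneg _ _) (ind_nonneg _ _)) (ind_nonneg _ _)

theorem three_le {v a b c : V} (ha : B v a) (hb : B v b) (hc : B v c) (ab : a ≠ b) (ac : a ≠ c)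
    (bc : b ≠ c) : 3 ≤ dg B v := by
  refine le_trans ?_ (sum_le_sum_of_subset_of_nonneg (subset_univ {a, b, c})
    fun _ _ _ => ind_nonneg _ _)
  rw [sum_insert (by simp [ab, ac]), sum_pair bc, ind_pos ha, ind_pos hb, ind_pos hc]
  norm_num

theorem Sim.cherry (h : Sim B) : ∑ v, dg B v ^ 2 - ∑ v, dg B v - trL (ind B) (Tq 3) =
    ∑ x, ∑ y, ∑ z, ind B x y * ind B x z * (1 - (if y = z then 1 else 0) - ind B y z) := by
  simp only [h.t3, dg, sq, sum_mul_sum, mul_sub, sum_sub_distrib, mul_one, mul_ite, mul_zero,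
    sum_ite_eq, mem_univ, if_true, ind_sq]

theorem Sim.big (h : Sim B) (hm : ¬ M2 B) :
    0 ≤ ∑ v, dg B v ^ 2 - ∑ v, dg B v - trL (ind B) (Tq 3) ∧ 6 ≤ ∑ v, dg B v ^ 2 - ∑ v, dg B v ∧
    2 ≤ ∑ v, dg B v ^ 2 - 3 * ∑ v, dg B v + 2 * Fintype.card V ∧
    (4 ≤ ∑ v, dg B v ^ 2 - 3 * ∑ v, dg B v + 2 * Fintype.card V ∨
      1 ≤ ∑ v, dg B v ^ 2 - ∑ v, dg B v - trL (ind B) (Tq 3)) := by
  simp only [M2, not_forall, not_or] at hm
  obtain ⟨v, a, b, c, ha, hb, hc, ab, ac, bc⟩ := hm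
  have hv := three_le ha hb hc ab ac bc
  have n1 : ∀ x y z, 0 ≤ ind B x y * ind B x z * (1 - (if y = z then 1 else 0) - ind B y z) :=
    fun x y z => mul_nonneg (mul_nonneg (ind_nonneg _ _) (ind_nonneg _ _)) <| by
      split_ifs with e
      · rw [e, ind_neg (h.irr _)]; norm_num
      · by_cases e' : B y z <;> simp [ind_pos, ind_neg, e']
  have e : ∑ v, dg B v ^ 2 - 3 * ∑ v, dg B v + 2 * Fintype.card V =
      ∑ v, (dg B v - 1) * (dg B v - 2) := by
    rw [mul_sum, ← card_univ, ← sum_sub_distrib, mul_comm, ← nsmul_eq_mul, ← sum_const,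
      ← sum_add_distrib]
    exact sum_congr rfl fun v _ => by ring
  have n2 : ∀ x : ℤ, 0 ≤ (x - 1) * (x - 2) := fun x => by
    rcases le_or_gt x 1 with h | h
    · exact mul_nonneg_of_nonpos_of_nonpos (by omega) (by omega)
    · exact mul_nonneg (by omega) (by omega)
  have n3 : ∀ x : ℤ, 3 ≤ x → 2 ≤ (x - 1) * (x - 2) := fun x hx => by nlinarith
  rw [e, h.cherry]
  refine ⟨sum_nonneg fun _ _ => sum_nonneg fun _ _ => sum_nonneg fun _ _ => n1 _ _ _, ?_,
    (n3 _ hv).trans (single_le_sum (fun x _ => n2 (dg B x)) (mem_univ v)), ?_⟩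
  · rw [← sum_sub_distrib]
    refine le_trans ?_ (single_le_sum (fun x _ => ?_) (mem_univ v))
    · nlinarith
    · exact sub_nonneg.2 (Int.le_self_sq _)
  · have key : ∀ y z, B v y → B v z → y ≠ z → ¬ B y z → 1 ≤ ∑ x, ∑ y, ∑ z,
        ind B x y * ind B x z * (1 - (if y = z then 1 else 0) - ind B y z) := fun y z h1 h2 h3 h4 => by
      refine le_trans ?_ (single_le_sum (fun _ _ => sum_nonneg fun _ _ => sum_nonneg fun _ _ =>
        n1 _ _ _) (mem_univ v))
      refine le_trans ?_ (single_le_sum (fun _ _ => sum_nonneg fun _ _ => n1 _ _ _) (mem_univ y))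
      refine le_trans ?_ (single_le_sum (fun _ _ => n1 _ _ _) (mem_univ z))
      simp [ind_pos h1, ind_pos h2, ind_neg h4, h3]
    by_cases h1 : B a b
    · by_cases h2 : B a c
      · have av : a ≠ v := fun e => h.irr v (e ▸ ha)
        have := three_le h1 h2 (h.symm _ _ ha) bc (fun e => h.irr v (e ▸ hb))
          fun e => h.irr v (e ▸ hc)
        refine Or.inl (le_trans ?_ (sum_le_sum_of_subset_of_nonneg (subset_univ {a, v})
          fun x _ _ => n2 (dg B x)))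
        rw [sum_pair av]
        linarith [n3 _ hv, n3 _ this]
      · exact Or.inr (key a c ha hc ac h2)
    · exact Or.inr (key a b ha hb ab h1)

end CW
end

-- merged part: Pool.Agent.Work.MP_64623b_co.Cmp
section
/-! Comparison with the extremal graphs. -/

open Polynomial Finset Matrix

namespace CW

variable {n c b b' : ℕ} {B D : Fin n → Fin n → Prop} {P Q : Fin c → ℕ} {Y : Fin b → ℕ}
  {Y' : Fin b' → ℕ}

theorem Dat.deg (h : Sim B) (d : Dat (ind B) P Y) : ∑ v, dg B v = 2 * n - 2 * c := by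
  have h1 := d.tr 2
  rw [show T 2 = Tq 2 from rfl, h.t2,
    sum_congr rfl fun i _ => Gp_lt (by omega) (show 2 < 2 * (P i + 1) by have := d.p1 i; omega),
    sum_eq_zero fun j _ => Gc_lt (by omega) (d.y3 j)] at h1
  simp at h1
  linarith

theorem low_t (hB : Sim B) (hD : Sim D) (he : ∑ v, dg B v = ∑ v, dg D v) :
    ∀ j ≤ 2, trL (ind B) (Tq j) = trL (ind D) (Tq j)
  | 0, _ => by simp [Tq, trL_apply]
  | 1, _ => by rw [hB.t1, hD.t1]
  | 2, _ => by rw [hB.t2, hD.t2, he]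

theorem low_s (he : ∑ v, dg B v = ∑ v, dg D v) : ∀ j ≤ 1, smL (ind B) (Pq j) = smL (ind D) (Pq j)
  | 0, _ => by simp [Pq, smL_apply]
  | 1, _ => by rw [s1, s1, he]

theorem same (ε a : ℤ) (hε : ε * ε = 1) (he : ∑ v, dg B v = ∑ v, dg D v) (d : Dat (ind B) P Y)
    (d' : Dat (ind D) Q Y) (hc : ∀ s, cnt P s = cnt Q s) (h : ℕ) (h2 : 2 ≤ h) :
    trace (lay ε a (ind B) ^ h) = trace (lay ε a (ind D) ^ h) := by
  refine eq_of a hε (fun j => ?_) (fun j => ?_) h h2
  · cases j with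
    | zero => simp [Tq, trL_apply]
    | succ j => rw [Tq, d.tr, d'.tr, sum_same hc]
  · match j with
    | 0 => exact low_s he 0 (by omega)
    | 1 => exact low_s he 1 le_rfl
    | j + 2 => rw [Pq, d.sm, d'.sm, sum_same hc]

theorem Gp3 (s : ℕ) : Gp 3 s = 0 := by
  rw [Gp, if_neg fun h => by have := (Dvd.intro _ rfl).trans h; omega]
  norm_num

theorem Gp4 {s : ℕ} (h : 1 ≤ s) : Gp 4 s = (if s = 1 then 4 else 0) - 2 := by
  split_ifs with e
  · rw [e]; rfl
  · rw [Gp_lt (by omega) (by omega)]; norm_num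

theorem Fw1 {s : ℕ} (h : 1 ≤ s) : Fw 1 s = (if s = 1 then 2 else 0) - 2 := by
  rw [Fw_le (by omega) h]
  split_ifs <;> omega

theorem Fw2 {s : ℕ} (h : 1 ≤ s) :
    Fw 2 s = (if s = 1 then 4 else 0) + if s = 2 then 2 else 0 := by
  rcases h.eq_or_lt with rfl | h
  · rfl
  · rw [Fw_le (by omega) h]
    split_ifs <;> omega

theorem cnt_mul (P : Fin c → ℕ) (s : ℕ) (x : ℤ) :
    ∑ i, (if P i = s then x else 0) = x * cnt P s := by
  simp only [cnt, mul_sum, mul_ite, mul_one, mul_zero]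

theorem Dat.s2 (d : Dat (ind B) P Y) : smL (ind B) (Pq 2) = 2 * cnt P 1 - 2 * c := by
  rw [Pq, d.sm, sum_congr rfl fun i _ => Fw1 (d.p1 i), sum_sub_distrib, cnt_mul]
  simp [mul_comm]

theorem Dat.s3 (d : Dat (ind B) P Y) : smL (ind B) (Pq 3) = 4 * cnt P 1 + 2 * cnt P 2 := by
  rw [Pq, d.sm, sum_congr rfl fun i _ => Fw2 (d.p1 i), sum_add_distrib, cnt_mul, cnt_mul]

theorem Dat.t3 (d : Dat (ind B) P Y) : trL (ind B) (Tq 3) = 6 * cnt Y 3 := by
  rw [Tq, d.tr, sum_eq_zero fun i _ => Gp3 _, zero_add, ← cnt_mul]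
  refine sum_congr rfl fun j _ => ?_
  split_ifs with e
  · rw [e]; rfl
  · exact Gc_lt (by omega) (by have := d.y3 j; omega)

theorem Dat.t4 (d : Dat (ind B) P Y) (h : ∀ j, Y j ≠ 4) :
    trL (ind B) (Tq 4) = 4 * cnt P 1 - 2 * c := by
  rw [Tq, d.tr, sum_congr rfl fun i _ => Gp4 (d.p1 i), sum_sub_distrib, cnt_mul,
    sum_eq_zero (f := fun j => Gc (3 + 1) (Y j)) fun j _ => if_neg fun e => ?_]
  · simp [mul_comm]
  · have h1 := Nat.le_of_dvd (by omega) e
    have h2 := d.y3 j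
    have h3 := h j
    rw [show Y j = 3 by omega] at e
    omega

/-- The number of blocks with at least three vertices. -/
def big (P : Fin c → ℕ) : ℤ := ∑ i, if 2 < P i then 1 else 0

def exc (P : Fin c → ℕ) : ℤ := ∑ i, if 2 < P i then (P i : ℤ) - 2 else 0

theorem pstat (h : ∀ i, 1 ≤ P i) : cnt P 1 + cnt P 2 + big P = c ∧
    (∑ i, P i : ℕ) = cnt P 1 + 2 * cnt P 2 + 2 * big P + exc P ∧ 0 ≤ big P ∧ big P ≤ exc P ∧
    (big P = 0 → exc P = 0) := by
  simp only [cnt, big, exc, mul_sum, ← sum_add_distrib, Nat.cast_sum]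
  refine ⟨(sum_congr rfl (g := fun _ => 1) fun i _ => ?_).trans (by simp),
    sum_congr rfl fun i _ => ?_, sum_nonneg fun i _ => ?_, sum_le_sum fun i _ => ?_, fun e => ?_⟩
  · have := h i
    split_ifs <;> omega
  · have := h i
    split_ifs <;> omega
  · split_ifs <;> omega
  · split_ifs <;> omega
  · refine sum_eq_zero fun i hi => if_neg fun h' => ?_
    have := (sum_eq_zero_iff_of_nonneg fun i _ => by split_ifs <;> omega).1 e i hi
    rw [if_pos h'] at this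
    omega

theorem big_le : big P ≤ 1 ↔ ∀ i j, 2 < P i → 2 < P j → i = j := by
  simp [big, card_le_one]
  exact ⟨fun h i j a b => h i a j b, fun h i a j b => h i j a b⟩

theorem big_zero : big P = 0 ↔ ∀ i, P i ≤ 2 := by simp [big, filter_eq_empty_iff]

theorem cnt_big (h : big P ≤ 1) {s : ℕ} (hs : 2 < s) :
    cnt P s = if (s : ℤ) = exc P + 2 then big P else 0 := by
  have key : ∀ i, 2 < P i → exc P = P i - 2 := fun i hi => by
    rw [exc, sum_eq_single i (fun j _ hj => if_neg fun h' => hj (big_le.1 h _ _ h' hi)) (by simp),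
      if_pos hi]
  split_ifs with e
  · refine sum_congr rfl fun i _ => if_congr ⟨fun h => h ▸ hs, fun h => ?_⟩ rfl rfl
    have := key i h
    omega
  · refine sum_eq_zero fun i _ => if_neg fun h => ?_
    have := key i (h ▸ hs)
    omega

theorem cnt_zero (h : ∀ i, 1 ≤ P i) : cnt P 0 = 0 :=
  sum_eq_zero fun i _ => if_neg (by have := h i; omega)

theorem sparse_big {a : ℤ} (ha : 0 ≤ a) (hB : Sim B) (hD : Sim D)
    (he : ∑ v, dg B v = ∑ v, dg D v) (d : Dat (ind D) Q Y) (h5 : ∀ j, 5 ≤ Y j)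
    (hQ : cnt Q 1 = 0 ∨ big Q = 0 ∧ b = 0) (hm : ¬ M2 B) :
    Less (lay 1 a (ind D)) (lay 1 a (ind B)) := by
  obtain ⟨-, b1, b2, -⟩ := hB.big hm
  obtain ⟨q1, q2, -, -, q3⟩ := pstat d.p1
  have e1 := d.deg hD
  have e2 := d.s2
  have e3 := d.t3
  have e4 := d.t4 fun j => by have := h5 j; omega
  have e5 := hB.s2
  have e6 := hB.t4
  have e7 : cnt Y 3 = 0 := sum_eq_zero fun j _ => if_neg (by have := h5 j; omega)
  have e8 := hB.t3_nonneg
  rw [Fintype.card_fin] at b2 e6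
  have key : smL (ind D) (Pq 2) < smL (ind B) (Pq 2) := by
    rcases hQ with h | ⟨h, rfl⟩
    · omega
    · have := d.cd
      have := q3 h
      simp only [univ_eq_empty, sum_empty, add_zero] at *
      omega
  have l := low_t hB hD he
  by_cases h0 : a = 0
  · refine less_mono ha 3 (fun j hj => ?_) (fun _ _ h => absurd h0 h) (l 1 (by omega))
      (Or.inl (by show trL _ (Tq 4) < trL _ (Tq 4); omega))
    rcases (show j ≤ 2 ∨ j = 3 ∨ j = 4 by omega) with h | rfl | rfl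
    exacts [(l j h).ge, by omega, by omega]
  · refine less_mono ha 2 (fun j hj => ?_) (fun j hj _ => ?_) (l 1 (by omega))
      (Or.inr ⟨by omega, key⟩)
    · rcases (show j ≤ 2 ∨ j = 3 by omega) with h | rfl
      exacts [(l j h).ge, by omega]
    · rcases (show j ≤ 1 ∨ j = 2 by omega) with h | rfl
      exacts [(low_s he j h).ge, key.le]

theorem shape_of (hB : Sim B) (hm : M2 B) (he : ∑ v, dg B v = 2 * n - 2 * c) :
    ∃ (b : ℕ) (P : Fin c → ℕ) (Y : Fin b → ℕ), Shape B P Y := by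
  obtain ⟨c', b, P, Y, h⟩ := exists_shape hB.symm hB.irr hm
  obtain rfl : c' = c := by have := h.dat.deg hB; omega
  exact ⟨b, P, Y, h⟩

theorem sparse_cmp {a : ℤ} (ha : 0 ≤ a) (hB : Sim B) (hD : Sim D)
    (he : ∑ v, dg B v = ∑ v, dg D v) (d : Dat (ind D) Q Fin.elim0) (hQ : ∀ i j, Q i ≤ Q j + 1) :
    (∃ P : Fin c → ℕ, (∀ i j, P i ≤ P j + 1) ∧ Shape B P Fin.elim0) ∨
      Less (lay 1 a (ind D)) (lay 1 a (ind B)) := by
  by_cases hm : M2 B
  swap
  · refine Or.inr (sparse_big ha hB hD he d (fun j => j.elim0) ?_ hm)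
    refine ((cnt_nonneg Q 1).eq_or_lt.imp Eq.symm fun h => ⟨big_zero.2 fun i => ?_, rfl⟩)
    obtain ⟨j, hj⟩ := cnt_pos.1 h
    have := hQ i j
    omega
  obtain ⟨b, P, Y, h⟩ := shape_of hB hm (he.trans (d.deg hD))
  have d' := h.dat
  have c1 := d.cd
  have c2 := d'.cd
  simp only [univ_eq_empty, sum_empty, add_zero] at c1
  rcases first_diff (P := P) (by omega) hQ with e | ⟨s, e, e'⟩
  · have h1 : ∑ i, P i = ∑ i, Q i := by exact_mod_cast sum_same e fun s => (s : ℤ)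
    obtain rfl : b = 0 := by
      by_contra hb
      have := single_le_sum (f := Y) (fun _ _ => Nat.zero_le _) (mem_univ ⟨0, by omega⟩)
      have := d'.y3 ⟨0, by omega⟩
      omega
    refine Or.inl ⟨P, fun i j => ?_, Subsingleton.elim Y Fin.elim0 ▸ h⟩
    obtain ⟨i', hi⟩ := cnt_pos.1 (e _ ▸ cnt_pos.2 ⟨i, rfl⟩)
    obtain ⟨j', hj⟩ := cnt_pos.1 (e _ ▸ cnt_pos.2 ⟨j, rfl⟩)
    exact hi ▸ hj ▸ hQ i' j'
  · have hs : 1 ≤ s := by
      obtain ⟨i, hi⟩ := cnt_pos.1 ((cnt_nonneg Q s).trans_lt e')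
      exact hi ▸ d'.p1 i
    have u : ∀ j ≤ 2 * s + 1, (if 2 * (s + 1) ∣ j + 1 then 2 * (s + 1 : ℤ) else 0) *
        (cnt P s - cnt Q s) ≤ trL (ind B) (Tq (j + 1)) - trL (ind D) (Tq (j + 1)) := fun j hj => by
      have := sum_first (F := Gp (j + 1)) (fun t ht => Gp_lt (by omega) (by omega)) e
      have h2 : 0 ≤ ∑ i, Gc (j + 1) (Y i) := sum_nonneg fun _ _ => Gc_nonneg _ _
      rw [Gp, sub_neg_eq_add, sub_add_cancel] at this
      rw [Tq, d.tr, d'.tr, ← this]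
      simp only [univ_eq_empty, sum_empty]
      linarith
    have u' : ∀ j ≤ 2 * s + 2, trL (ind D) (Tq j) ≤ trL (ind B) (Tq j) := fun j hj => by
      cases j with
      | zero => exact (low_t hB hD he 0 (by omega)).ge
      | succ j =>
        refine sub_nonneg.1 (le_trans (mul_nonneg ?_ (by omega)) (u j (by omega)))
        split_ifs <;> omega
    have v : ∀ j, j + 1 ≤ s → smL (ind B) (Pq (j + 2)) - smL (ind D) (Pq (j + 2)) =
        (if j + 1 = s then 2 else 0) * (cnt P s - cnt Q s) := fun j hj => by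
      rw [Pq, d.sm, d'.sm, sum_first (a := if j + 1 = 1 then -2 else 0) (fun t ht => by
        rw [Fw_le (by omega) (by omega), if_neg (show j + 1 ≠ t by omega), add_zero]) e,
        Fw_le (by omega) hj, add_sub_cancel_left]
    right
    by_cases h0 : a = 0
    · refine less_mono ha (2 * s + 1) u' (fun _ _ h => absurd h0 h) (low_t hB hD he 1 (by omega))
        (Or.inl ?_)
      have := u (2 * s + 1) le_rfl
      rw [if_pos (Dvd.intro 1 (by ring))] at this
      nlinarith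
    · obtain ⟨s, rfl⟩ := Nat.exists_eq_add_of_le' hs
      refine less_mono ha (s + 2) (fun j hj => u' j (by omega)) (fun j hj _ => ?_)
        (low_t hB hD he 1 (by omega)) (Or.inr ⟨by omega, ?_⟩)
      · rcases le_or_gt j 1 with h | h
        · exact (low_s he j h).ge
        · obtain ⟨j, rfl⟩ : ∃ k, j = k + 2 := ⟨j - 2, by omega⟩
          have := v j (by omega)
          split_ifs at this <;> omega
      · have := v s le_rfl
        rw [if_pos rfl] at this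
        omega

theorem cycle_cmp {a : ℤ} (ha : 0 ≤ a) (hB : Sim B) (hD : Sim D)
    (he : ∑ v, dg B v = ∑ v, dg D v) (d : Dat (ind D) Fin.elim0 ![n]) (h5 : 5 ≤ n) :
    Shape B Fin.elim0 ![n] ∨ Less (lay 1 a (ind D)) (lay 1 a (ind B)) := by
  by_cases hm : M2 B
  swap
  · exact Or.inr (sparse_big ha hB hD he d (by simpa using h5) (Or.inl (by simp [cnt])) hm)
  obtain ⟨b, P, Y, h⟩ := shape_of hB hm (he.trans (d.deg hD))
  have d' := h.dat
  have c2 := d'.cd
  simp only [univ_eq_empty, sum_empty, zero_add] at c2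
  obtain rfl : P = Fin.elim0 := Subsingleton.elim _ _
  by_cases h1 : b = 1
  · subst h1
    obtain rfl : Y = ![n] := by
      funext j
      rw [Subsingleton.elim j 0]
      simpa using c2
    exact Or.inl h
  obtain ⟨b, rfl⟩ : ∃ k, b = k + 2 := ⟨b - 2, by
    rcases b with _ | b
    · simp at c2; omega
    · omega⟩
  rw [Fin.sum_univ_succ, Fin.sum_univ_succ] at c2
  have y0 := d'.y3 0
  have y1 := d'.y3 (Fin.succ 0)
  have u : ∀ j, j + 1 < n → trL (ind B) (Tq (j + 1)) - trL (ind D) (Tq (j + 1)) =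
      ∑ i, Gc (j + 1) (Y i) := fun j hj => by
    rw [Tq, d.tr, d'.tr]
    simp [Gc_lt (Nat.succ_pos j) hj]
  obtain ⟨N, hN⟩ : ∃ N, Y 0 = N + 1 := ⟨Y 0 - 1, by omega⟩
  refine Or.inr (less_mono ha N (fun j hj => ?_) (fun j _ _ => ?_) (low_t hB hD he 1 (by omega))
    (Or.inl ?_))
  · cases j with
    | zero => exact (low_t hB hD he 0 (by omega)).ge
    | succ j => exact sub_nonneg.1 (u j (by omega) ▸ sum_nonneg fun _ _ => Gc_nonneg _ _)
  · rcases le_or_gt j 1 with h | h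
    · exact (low_s he j h).ge
    · obtain ⟨j, rfl⟩ := Nat.exists_eq_add_of_le' h
      rw [Pq, d.sm, d'.sm]
  · have := single_le_sum (f := fun i => Gc (N + 1) (Y i)) (fun _ _ => Gc_nonneg _ _) (mem_univ 0)
    rw [← u N (by omega), hN, Gc, if_pos dvd_rfl] at this
    omega

/-- The condition on the paths below a full layer. -/
def Cond (P : Fin c → ℕ) : Prop :=
  (∀ i j, 2 < P i → 2 < P j → i = j) ∧ ∀ i j, P i < 2 → P j ≤ 2

theorem cond_iff (h : ∀ i, 1 ≤ P i) : Cond P ↔ big P ≤ 1 ∧ (0 < cnt P 1 → big P = 0) := by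
  rw [Cond, big_le, big_zero, cnt_pos]
  refine and_congr_right fun _ => ⟨fun h' ⟨i, hi⟩ j => h' i j (by omega), fun h' i j hi => ?_⟩
  exact h' ⟨i, by have := h i; omega⟩ j

theorem cnt_three : cnt (fun _ : Fin b => 3) 3 = b := by simp [cnt]

theorem dense_same (d : Dat (ind B) P fun _ : Fin b => 3) (d' : Dat (ind D) Q fun _ : Fin b => 3)
    (hP : Cond P) (hQ : Cond Q) (s : ℕ) : cnt P s = cnt Q s := by
  obtain ⟨p1, p2, p3, p4, p5⟩ := pstat d.p1
  obtain ⟨q1, q2, q3, q4, q5⟩ := pstat d'.p1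
  obtain ⟨p6, p7⟩ := (cond_iff d.p1).1 hP
  obtain ⟨q6, q7⟩ := (cond_iff d'.p1).1 hQ
  have c1 := d.cd
  have c2 := d'.cd
  have := cnt_nonneg P 1
  have := cnt_nonneg Q 1
  rcases (show s = 0 ∨ s = 1 ∨ s = 2 ∨ 2 < s by omega) with rfl | rfl | rfl | h
  · rw [cnt_zero d.p1, cnt_zero d'.p1]
  · omega
  · omega
  · rw [cnt_big p6 h, cnt_big q6 h, show exc P = exc Q by omega, show big P = big Q by omega]

theorem arQ {x1 x2 g e : ℤ} {s : ℕ} (q1 : x1 + x2 + g = c) (q2 : s = x1 + 2 * x2 + 2 * g + e)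
    (q3 : 0 ≤ g) (q4 : g ≤ e) (q5 : g = 0 → e = 0) (q6 : g ≤ 1) (q7 : 0 < x1 → g = 0) (q8 : 0 ≤ x1)
    (c1 : s + b * 3 = n) (hb : b = (n - 2 * c) / 3) :
    (x1 = 0 ∧ n = 2 * c + e + 3 * b ∧ e ≤ 2 ∧ (e = 2 → x2 = c - 1)) ∨
      (0 < x1 ∧ b = 0 ∧ n = 2 * c - x1) := by
  omega

theorem arP {x1 x2 e y1 y2 g' e' : ℤ} {s : ℕ}
    (hq : (x1 = 0 ∧ n = 2 * c + e + 3 * b ∧ e ≤ 2 ∧ (e = 2 → x2 = c - 1)) ∨
      (0 < x1 ∧ b = 0 ∧ n = 2 * c - x1)) (p1 : y1 + y2 + g' = c)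
    (p2 : s = y1 + 2 * y2 + 2 * g' + e') (p3 : 0 ≤ g') (p4 : g' ≤ e') (p8 : 0 ≤ y1)
    (c2 : s + b' * 3 = n) (h : y1 - x1 ≤ b' - b) (hP : ¬ ((g' ≤ 1 ∧ (0 < y1 → g' = 0)) ∧ b' = b)) :
    (y1 = 0 ∧ x1 = 0 ∧ b' = b ∧ x2 = y2 + 1) ∨
      (y1 = 1 ∧ x1 = 0 ∧ b' = b + 1 ∧ x2 = y2 ∧ 4 ≤ n) := by
  rcases hq with ⟨a1, a2, a3, a4⟩ | ⟨a1, a2, a3⟩
  · rcases (show b' = b ∨ b' = b + 1 by omega) with h' | h'
    · left; omega
    · right; omega
  · omega

theorem dense_cmp {a : ℤ} (ha : 1 ≤ a) (hB : Sim B) (hD : Sim D)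
    (he : ∑ v, dg B v = ∑ v, dg D v) (d : Dat (ind D) Q fun _ : Fin b => 3) (hQ : Cond Q)
    (hb : b = (n - 2 * c) / 3) :
    (∃ P : Fin c → ℕ, Cond P ∧ Shape B P fun _ : Fin b => 3) ∨
      Less (lay (-1) a (ind D)) (lay (-1) a (ind B)) := by
  have hq := by
    obtain ⟨q1, q2, q3, q4, q5⟩ := pstat d.p1
    obtain ⟨q6, q7⟩ := (cond_iff d.p1).1 hQ
    exact arQ q1 q2 q3 q4 q5 q6 q7 (cnt_nonneg Q 1) (by simpa using d.cd) hb
  clear hb
  have e1 := d.deg hD
  have e2 := d.s2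
  have e3 := d.t3
  rw [cnt_three] at e3
  have l := low_t hB hD he
  have l' := low_s he
  have t3 := step a (show (-1 : ℤ) * -1 = 1 by norm_num) (h := 2) l fun j hj => l' j (by omega)
  have l3 : trL (ind B) (Tq 3) - trL (ind D) (Tq 3) <
      3 * (a * (smL (ind B) (Pq 2) - smL (ind D) (Pq 2))) →
      Less (lay (-1) a (ind D)) (lay (-1) a (ind B)) := fun h =>
    less_of a (by norm_num) (t := 2) (by omega) l (fun j hj => l' j (by omega)) (by
      norm_num
      linarith)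
  by_cases hm : M2 B
  swap
  · obtain ⟨b0, b1, b2, b3⟩ := hB.big hm
    have := hB.s2
    rw [Fintype.card_fin] at b2 b3
    clear t3
    have h1 : 0 ≤ smL (ind B) (Pq 2) - smL (ind D) (Pq 2) := by omega
    have h2 := mul_le_mul_of_nonneg_right ha h1
    exact Or.inr (l3 (by omega))
  obtain ⟨b', P, Y, h⟩ := shape_of hB hm (he.trans e1)
  have d' := h.dat
  obtain ⟨p1, p2, p3, p4, -⟩ := pstat d'.p1
  have p8 := cnt_nonneg P 1
  have c2 := d'.cd
  have f2 := d'.s2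
  have f3 := d'.t3
  by_cases h3 : trL (ind B) (Tq 3) - trL (ind D) (Tq 3) <
      3 * (a * (smL (ind B) (Pq 2) - smL (ind D) (Pq 2)))
  · exact Or.inr (l3 h3)
  rw [f2, e2, f3, e3] at h3 t3
  clear l3 e1 he
  have h2 := mul_le_mul_of_nonneg_right ha
    (show 0 ≤ 2 * cnt P 1 - 2 * c - (2 * cnt Q 1 - 2 * c) by clear t3 h3; omega)
  have h4 : cnt P 1 - cnt Q 1 ≤ cnt Y 3 - b := by linarith
  obtain rfl : Y = fun _ => 3 := by
    by_contra hn
    obtain ⟨j, hj⟩ := Function.ne_iff.1 hn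
    have h5 := single_le_sum (f := fun j => (Y j : ℤ) - if Y j = 3 then 3 else 0)
      (fun j _ => by split_ifs <;> omega) (mem_univ j)
    rw [sum_sub_distrib, cnt_mul, if_neg hj, ← Nat.cast_sum] at h5
    have := d'.y3 j
    have := cnt_nonneg Y 3
    clear t3 h3 h2
    omega
  rw [cnt_three] at f3 h3 h4 t3
  by_cases hP : Cond P ∧ b' = b
  · obtain ⟨hP, rfl⟩ := hP
    exact Or.inl ⟨P, hP, h⟩
  rw [cond_iff d'.p1] at hP
  have cs := arP hq p1 p2 p3 p4 p8 (by simpa using c2) h4 hP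
  have t2 := step a (show (-1 : ℤ) * -1 = 1 by norm_num) (h := 1) (fun j hj => l j (by omega))
    fun j hj => l' j (by omega)
  have t4 := four a l l'
  rw [l 2 le_rfl, l' 1 le_rfl] at t2
  rw [Fintype.card_fin, f2, e2, f3, e3, d'.t4 fun _ => by omega, d.t4 fun _ => by omega, d'.s3,
    d.s3] at t4
  have n4 : 4 ≤ n → (4 : ℤ) ≤ n := by omega
  refine Or.inr ⟨4, by omega, ?_, fun h h1 h2 => ?_⟩
  · rcases cs with ⟨a1, a2, rfl, a4⟩ | ⟨a1, a2, rfl, a4, a6⟩
    · rw [a1, a2, a4] at t4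
      linarith
    · rw [a1, a2] at h3
      push_cast at h3
      obtain rfl : a = 1 := by linarith
      rw [a1, a2, a4] at t4
      push_cast at t4
      linarith [n4 a6]
  · rcases (show h = 2 ∨ h = 3 by omega) with rfl | rfl
    · linarith
    · rcases cs with ⟨a1, a2, rfl, a4⟩ | ⟨a1, a2, rfl, a4, a6⟩
      · rw [a1, a2] at t3
        linarith
      · rw [a1, a2] at h3 t3
        push_cast at h3 t3
        obtain rfl : a = 1 := by linarith
        linarith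

end CW
end

-- merged part: Pool.Agent.Work.MP_64623b_co.Main
section
/-! From multigraphs to layers. -/

open Finset Matrix

namespace CW

variable {n c b : ℕ} {B D : Fin n → Fin n → Prop} {P : Fin c → ℕ} {Y : Fin b → ℕ}

theorem exists_model (p1 : ∀ i, 1 ≤ P i) (y3 : ∀ j, 3 ≤ Y j) (hn : ∑ i, P i + ∑ j, Y j = n) :
    ∃ B : Fin n → Fin n → Prop, Sim B ∧ Dat (ind B) P Y := by
  let e : Fin n ≃ Σ x, Fin (Sum.elim P Y x) := Fintype.equivOfCardEq (by
    simp [Fintype.card_sigma, Fintype.sum_sum_type, hn])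
  refine ⟨_, ⟨?_, ?_⟩, Shape.dat ⟨p1, y3, fun v => (e v).1, fun v => (e v).2, ⟨fun v _ => (e v).2.2,
    fun u _ v _ h => e.injective (sig_ext.2 (Prod.ext_iff.1 h)), fun p hp => ⟨e.symm ⟨p.1, p.2, hp⟩,
    trivial, by simp only; rw [e.apply_symm_apply]⟩⟩, fun u v => Iff.rfl⟩⟩
  · rintro u v ⟨h, h'⟩
    refine ⟨h.symm, ?_⟩
    rw [← h]
    rcases h' with h' | h' | ⟨j, h1, h2⟩
    exacts [Or.inr (Or.inl h'), Or.inl h', Or.inr (Or.inr ⟨j, h1, h2.symm⟩)]
  · rintro u ⟨-, h | h | ⟨j, -, h⟩⟩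
    · omega
    · omega
    · have := y3 j
      omega

def MG.z (G : MG n) : Matrix (Fin n) (Fin n) ℤ := (Nat.castRingHom ℤ).mapMatrix G.mu

theorem MG.z_apply (G : MG n) (i j : Fin n) : G.z i j = G.mu i j := rfl

theorem MG.cw_z (G : MG n) (h : ℕ) : (G.cw h : ℤ) = trace (G.z ^ h) := by
  rw [MG.z, ← map_pow]
  simp [MG.cw, trace]

theorem MG.edges_z (G : MG n) : 2 * (G.edges : ℤ) = sm G.z := by
  have e : (G.edges : ℤ) = ∑ i, ∑ j, if i < j then G.z i j else 0 := by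
    simp [MG.edges, MG.z_apply]
  rw [two_mul, e, sm_apply]
  nth_rw 1 [sum_comm]
  simp only [← sum_add_distrib]
  refine sum_congr rfl fun i _ => sum_congr rfl fun j _ => ?_
  rcases lt_trichotomy i j with h | rfl | h
  · rw [if_pos h, if_neg h.not_gt, zero_add]
  · simp [MG.z_apply, G.diag]
  · rw [if_pos h, if_neg h.not_gt, add_zero, MG.z_apply, MG.z_apply, G.symm]

theorem sm_lay (ε a : ℤ) :
    sm (lay ε a (ind B)) = ε * ∑ v, dg B v + a * (2 * (n.choose 2 : ℕ)) := by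
  have e : ∀ n : ℕ, 2 * ((n.choose 2 : ℕ) : ℤ) = n * n - n := fun n => by
    induction n with
    | zero => rfl
    | succ n ih =>
      rw [Nat.choose_succ_succ, Nat.choose_one_right]
      push_cast
      linarith
  rw [lay, map_add, map_smul, map_smul, map_sub, e]
  simp [sm_apply, J, one_apply, dg]

theorem MG.sim (G : MG n) (x : ℕ) : Sim (G.lvl x) :=
  ⟨fun _ _ h => ⟨h.1.symm, (G.symm _ _).trans h.2⟩, fun _ h => h.1 rfl⟩

theorem MG.two_iff (G : MG n) (l : ℕ) : 0 ≤ trace (G.z ^ 2) - (2 * l + 1) * sm G.z +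
      l * (l + 1) * (n * n - n) ∧
    (G.Two l ↔ trace (G.z ^ 2) - (2 * l + 1) * sm G.z + l * (l + 1) * (n * n - n) = 0) := by
  have e : trace (G.z ^ 2) - (2 * l + 1) * sm G.z + l * (l + 1) * (n * n - n) = ∑ i, ∑ j,
      if i = j then 0 else (G.z i j - l) * (G.z i j - l - 1) := by
    have e0 : (n * n - n : ℤ) = ∑ i : Fin n, ∑ j : Fin n, (1 - if i = j then 1 else 0) := by simp
    simp only [e0, sq, trace, Matrix.diag, mul_apply, sm_apply, mul_sum, ← sum_sub_distrib,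
      ← sum_add_distrib]
    refine sum_congr rfl fun i _ => sum_congr rfl fun j _ => ?_
    split_ifs with h
    · simp [h, MG.z_apply, G.diag]
    · rw [MG.z_apply G j, G.symm, ← MG.z_apply]
      ring
  have p : ∀ i j, 0 ≤ if i = j then 0 else (G.z i j - l) * (G.z i j - l - 1) := fun i j => by
    split_ifs
    · rfl
    · rcases le_or_gt (G.z i j) l with h | h
      · exact mul_nonneg_of_nonpos_of_nonpos (by omega) (by omega)
      · exact mul_nonneg (by omega) (by omega)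
  rw [e, sum_eq_zero_iff_of_nonneg fun i _ => sum_nonneg fun j _ => p i j]
  refine ⟨sum_nonneg fun i _ => sum_nonneg fun j _ => p i j, forall_congr' fun i => ?_⟩
  rw [sum_eq_zero_iff_of_nonneg fun j _ => p i j]
  simp only [mem_univ, true_imp_iff, ite_eq_left_iff, mul_eq_zero, MG.z_apply]
  exact forall_congr' fun j => imp_congr_right fun _ => by omega

theorem layer {l x y : ℕ} {ε : ℤ} (hx : x = l + 1 ∧ y = l ∧ ε = 1 ∨ x = l ∧ y = l + 1 ∧ ε = -1)
    (G : MG n) (hD : Sim D) (he : 2 * (G.edges : ℤ) = ε * ∑ v, dg D v + y * (2 * (n.choose 2 : ℕ)))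
    (Pr : (Fin n → Fin n → Prop) → Prop)
    (h1 : ∀ B, Sim B → ∑ v, dg B v = ∑ v, dg D v → Pr B → ∀ h, 2 ≤ h →
      trace (lay ε y (ind B) ^ h) = trace (lay ε y (ind D) ^ h))
    (h2 : ∀ B, Sim B → ∑ v, dg B v = ∑ v, dg D v → Pr B ∨ Less (lay ε y (ind D)) (lay ε y (ind B))) :
    G.Fewest ↔ G.Two l ∧ Pr (G.lvl x) := by
  classical
  have hz : ∀ H : MG n, H.Two l → H.z = lay ε y (ind (H.lvl x)) := fun H h => by
    ext i j
    show (H.mu i j : ℤ) = ε * ind (H.lvl x) i j + y * (1 - if i = j then 1 else 0)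
    by_cases e : i = j
    · simp [e, H.diag, ind_neg ((H.sim x).irr _)]
    · have := h i j e
      by_cases e' : H.mu i j = x
      · rw [ind_pos (B := H.lvl x) ⟨e, e'⟩, if_neg e]
        omega
      · rw [ind_neg (B := H.lvl x) fun h => e' h.2, if_neg e]
        omega
  let M : MG n := ⟨fun i j => if i = j then 0 else if D i j then x else y, fun i j => by
    simp only [eq_comm (a := i), show D i j ↔ D j i from ⟨hD.symm _ _, hD.symm _ _⟩],
    fun i => if_pos rfl⟩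
  have m2 : M.Two l := fun i j h => by
    simp only [M, if_neg h]
    split_ifs <;> omega
  have ml : M.lvl x = D := by
    ext i j
    by_cases e : i = j
    · simp [MG.lvl, e, hD.irr]
    · show i ≠ j ∧ (if i = j then 0 else if D i j then x else y) = x ↔ _
      rw [if_neg e]
      split_ifs with h
      · simp [e, h]
      · exact iff_of_false (by omega) h
  have mz := hz M m2
  rw [ml] at mz
  have me : M.edges = G.edges := by
    have := M.edges_z
    rw [mz, sm_lay] at this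
    omega
  have hd : ∀ H : MG n, H.edges = G.edges → H.Two l → ∑ v, dg (H.lvl x) v = ∑ v, dg D v :=
    fun H e h => by
      have := H.edges_z
      rw [hz H h, sm_lay, e, he, add_left_inj] at this
      exact (mul_left_cancel₀ (by omega) this).symm
  have k1 : ∀ H : MG n, H.edges = G.edges → H.Two l ∧ Pr (H.lvl x) → ∀ h, 2 ≤ h →
      H.cw h = M.cw h := fun H e h t ht => by
    zify
    rw [H.cw_z, M.cw_z, mz, hz H h.1]
    exact h1 _ (H.sim x) (hd H e h.1) h.2 t ht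
  have k2 : ∀ H : MG n, H.edges = G.edges → H.Two l ∧ Pr (H.lvl x) ∨
      ∃ t, 2 ≤ t ∧ M.cw t < H.cw t ∧ ∀ h, 2 ≤ h → h < t → M.cw h = H.cw h := fun H e => by
    zify
    simp only [MG.cw_z]
    by_cases h : H.Two l
    · refine (h2 _ (H.sim x) (hd H e h)).imp (And.intro h) fun h' => ?_
      rw [← mz, ← hz H h] at h'
      exact_mod_cast h'
    · refine Or.inr ⟨2, le_rfl, ?_, fun _ _ _ => by omega⟩
      have a1 := (M.two_iff l).2.1 m2
      have a2 := (H.two_iff l).1.lt_of_ne' (mt (H.two_iff l).2.2 h)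
      rw [← MG.edges_z, me] at a1
      rw [← MG.edges_z, e] at a2
      linarith
  refine ⟨fun h => (k2 G rfl).resolve_right fun ⟨t, t2, t3, t4⟩ => ?_, fun h H e => ?_⟩
  · rcases h M me with h | ⟨s, s2, s3, s4⟩
    · exact t3.ne' (h t t2)
    · rcases lt_trichotomy s t with h | rfl | h
      exacts [s3.ne' (t4 s s2 h), s3.not_gt t3, t3.ne' (s4 t t2 h)]
  · refine (k2 H e).imp (fun h' t ht => (k1 G rfl h t ht).trans (k1 H e h' t ht).symm) ?_
    rintro ⟨t, t2, t3, t4⟩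
    exact ⟨t, t2, k1 G rfl h t t2 ▸ t3, fun s s2 s3 => (k1 G rfl h s s2).trans (t4 s s2 s3)⟩

theorem sum_lt (c r : ℕ) (h : r ≤ c) : ∑ i : Fin c, (if (i : ℕ) < r then 1 else 0) = r := by
  rw [Fin.sum_univ_eq_sum_range (fun i => if i < r then 1 else 0), sum_boole, Nat.cast_id,
    show filter (· < r) (range c) = range r by ext; simp; omega, card_range]

theorem sparse {l k : ℕ} (G : MG n) (he : G.edges = l * n.choose 2 + k) (hk : k < n) :
    G.Fewest ↔ G.Two l ∧ ∃ P : Fin (n - k) → ℕ, (∀ i j, P i ≤ P j + 1) ∧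
      Shape (G.lvl (l + 1)) P Fin.elim0 := by
  obtain ⟨c, hc⟩ : ∃ c, n - k = c := ⟨_, rfl⟩
  rw [hc]
  have c0 : 0 < c := by omega
  let Q : Fin c → ℕ := fun i => n / c + if (i : ℕ) < n % c then 1 else 0
  have hQ : ∀ i j, Q i ≤ Q j + 1 := fun i j => by
    simp only [Q]
    split_ifs <;> omega
  obtain ⟨D, hD, d⟩ := exists_model (n := n) (P := Q) (Y := Fin.elim0)
    (fun i => (Nat.div_pos (by omega) c0).trans_le (Nat.le_add_right _ _)) (fun j => j.elim0) (by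
      rw [sum_add_distrib, sum_lt _ _ (Nat.mod_lt _ c0).le]
      simp [Nat.div_add_mod])
  refine layer (Or.inl ⟨rfl, rfl, rfl⟩) G hD ?_
    (fun B => ∃ P : Fin c → ℕ, (∀ i j, P i ≤ P j + 1) ∧ Shape B P Fin.elim0) ?_
    fun B hB e => sparse_cmp (by omega) hB hD e d hQ
  · rw [d.deg hD, he, ← hc, Nat.cast_sub hk.le]
    push_cast
    ring
  · rintro B - e ⟨P, hP, h⟩
    have c1 := d.cd
    have c2 := h.dat.cd
    refine same 1 _ rfl e h.dat d ((first_diff (by omega) hQ).resolve_right ?_)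
    rintro ⟨s, s1, s2⟩
    rcases first_diff (P := Q) (by omega) hP with h | ⟨t, t1, t2⟩
    · exact s2.ne (h s)
    · rcases lt_trichotomy s t with h | rfl | h
      exacts [s2.ne (t1 s h), s2.not_gt t2, t2.ne (s1 t h)]

theorem cycle {l : ℕ} (G : MG n) (he : G.edges = l * n.choose 2 + n) (h5 : 5 ≤ n) :
    G.Fewest ↔ G.Two l ∧ Shape (G.lvl (l + 1)) Fin.elim0 ![n] := by
  obtain ⟨D, hD, d⟩ := exists_model (n := n) (P := Fin.elim0) (Y := ![n]) (fun j => j.elim0)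
    (by simp; omega) (by simp)
  refine layer (Or.inl ⟨rfl, rfl, rfl⟩) G hD ?_ (fun B => Shape B Fin.elim0 ![n])
    (fun B _ e h => same 1 _ rfl e h.dat d fun _ => rfl)
    fun B hB e => cycle_cmp (by omega) hB hD e d h5
  rw [d.deg hD, he]
  push_cast
  ring

theorem dense {l k : ℕ} (G : MG n) (he : G.edges + k = (l + 1) * n.choose 2) (hk : k < n) :
    G.Fewest ↔ G.Two l ∧ ∃ P : Fin (n - k) → ℕ, Cond P ∧
      Shape (G.lvl l) P fun _ : Fin ((2 * k - n) / 3) => 3 := by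
  obtain ⟨c, hc⟩ : ∃ c, n - k = c + 1 := ⟨n - k - 1, by omega⟩
  rw [hc]
  let Q : Fin (c + 1) → ℕ := fun i => 1 + (if (i : ℕ) < min k (c + 1) then 1 else 0) +
    if (i : ℕ) = 0 then (2 * k - n) % 3 else 0
  have hQ : Cond Q := ⟨fun i j hi hj => Fin.ext (by
    simp only [Q] at hi hj
    split_ifs at hi hj <;> omega), fun i j hi => by
    have := i.2
    simp only [Q] at hi ⊢
    split_ifs at hi ⊢ <;> omega⟩
  obtain ⟨D, hD, d⟩ := exists_model (n := n) (P := Q) (Y := fun _ : Fin ((2 * k - n) / 3) => 3)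
    (fun i => by simp only [Q]; omega) (fun _ => le_rfl) (by
      rw [sum_add_distrib, sum_add_distrib, sum_lt _ _ (min_le_right _ _),
        Fin.sum_univ_succ (f := fun i => if (i : ℕ) = 0 then _ else _)]
      simp
      omega)
  refine layer (Or.inr ⟨rfl, rfl, rfl⟩) G hD ?_ (fun B => ∃ P : Fin (c + 1) → ℕ, Cond P ∧
    Shape B P fun _ : Fin ((2 * k - n) / 3) => 3) ?_
    fun B hB e => dense_cmp (by omega) hB hD e d hQ (by omega)
  · rw [d.deg hD, ← hc, Nat.cast_sub hk.le]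
    zify at he
    push_cast
    linarith
  · rintro B - e ⟨P, hP, h⟩
    exact same _ _ rfl e h.dat d (dense_same h.dat d hP hQ)

end CW
end
end
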